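import Pool.Agent.Q282.LT.Shift

/-!
# Uniform continuity of the normal distribution function under affine maps
-/

set_option autoImplicit false
set_option linter.unusedSectionVars false

namespace Q282LT

open MeasureTheory ProbabilityTheory Filter Topology
open Q282MM (Phi)

lemma Phi_mono {x y : ℝ} (h : x ≤ y) : Phi x ≤ Phi y := by
  unfold Q282MM.Phi
  exact measureReal_mono (Set.Iic_subset_Iic.2 h)

lemma Phi_le_one (x : ℝ) : Phi x ≤ 1 := by
  unfold Q282MM.Phi
  exact measureReal_le_one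

lemma Phi_nonneg (x : ℝ) : 0 ≤ Phi x := measureReal_nonneg

lemma Phi_lip' (x y : ℝ) : |Phi x - Phi y| ≤ |x - y| := by
  have h : ∀ {x y : ℝ}, x ≤ y → Phi y - Phi x ≤ y - x := by
    intro x y hxy
    have h1 := Q285MM.Phi_lip hxy
    refine h1.trans ?_
    have h2 : (√(2 * Real.pi))⁻¹ ≤ 1 := by
      apply inv_le_one_of_one_le₀
      rw [Real.one_le_sqrt]
      have := Real.pi_gt_three
      linarith
    calc (√(2 * Real.pi))⁻¹ * (y - x) ≤ 1 * (y - x) := mul_le_mul_of_nonneg_right h2 (by linarith)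
      _ = y - x := one_mul _
  rcases le_total x y with hxy | hxy
  · rw [abs_sub_comm, abs_of_nonneg (by have := Phi_mono hxy; linarith), abs_sub_comm, abs_of_nonneg (by linarith)]
    exact h hxy
  · rw [abs_of_nonneg (by have := Phi_mono hxy; linarith), abs_of_nonneg (by linarith)]
    exact h hxy

lemma Phi_tails (ε : ℝ) (hε : 0 < ε) : ∃ R : ℝ, 0 < R ∧ (∀ x, R ≤ x → 1 - ε ≤ Phi x) ∧ ∀ x, x ≤ -R → Phi x ≤ ε := by
  have h1 : Tendsto (fun x => Phi x) atTop (𝓝 1) := by
    have := tendsto_cdf_atTop (gaussianReal 0 1)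
    refine this.congr fun x => ?_
    rw [cdf_eq_real]
    rfl
  have h2 : Tendsto (fun x => Phi x) atBot (𝓝 0) := by
    have := tendsto_cdf_atBot (gaussianReal 0 1)
    refine this.congr fun x => ?_
    rw [cdf_eq_real]
    rfl
  obtain ⟨R₁, hR₁⟩ := eventually_atTop.1 (h1.eventually (lt_mem_nhds (show 1 - ε < 1 by linarith)))
  obtain ⟨R₂, hR₂⟩ := eventually_atBot.1 (h2.eventually (gt_mem_nhds hε))
  refine ⟨max 1 (max R₁ (-R₂)), by positivity, fun x hx => ?_, fun x hx => ?_⟩
  · exact (hR₁ x (((le_max_left _ _).trans (le_max_right _ _)).trans hx)).le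
  · refine (hR₂ x ?_).le
    have : -R₂ ≤ max 1 (max R₁ (-R₂)) := (le_max_right _ _).trans (le_max_right _ _)
    linarith

/-- uniform continuity under affine maps -/
lemma Phi_affine (ε : ℝ) (hε : 0 < ε) : ∃ δ : ℝ, 0 < δ ∧ δ ≤ 1 / 2 ∧
    ∀ a b y : ℝ, |a - 1| ≤ δ → |b| ≤ δ → |Phi (a * y + b) - Phi y| ≤ ε := by
  obtain ⟨R, hR, h1, h2⟩ := Phi_tails ε hε
  obtain ⟨S, hS⟩ : ∃ S : ℝ, S = 2 * (R + 1) := ⟨_, rfl⟩
  have hS0 : 0 < S := by
    rw [hS]
    positivity
  refine ⟨min (1 / 2) (ε / (S + 1)), by positivity, min_le_left _ _, fun a b y ha hb => ?_⟩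
  have ha1 : |a - 1| ≤ 1 / 2 := ha.trans (min_le_left _ _)
  have hb1 : |b| ≤ 1 / 2 := hb.trans (min_le_left _ _)
  have ha2 : |a - 1| ≤ ε / (S + 1) := ha.trans (min_le_right _ _)
  have hb2 : |b| ≤ ε / (S + 1) := hb.trans (min_le_right _ _)
  rw [abs_le] at ha1 hb1
  rcases le_or_gt |y| S with hy | hy
  · refine (Phi_lip' _ _).trans ?_
    have h3 : a * y + b - y = (a - 1) * y + b := by ring
    rw [h3]
    refine (abs_add_le _ _).trans ?_
    rw [abs_mul]
    have h4 : |a - 1| * |y| ≤ ε / (S + 1) * S := mul_le_mul ha2 hy (abs_nonneg _) (by positivity)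
    have h5 : ε / (S + 1) * S + ε / (S + 1) = ε := by
      have : S + 1 ≠ 0 := by positivity
      field_simp
    linarith
  · rcases le_or_gt 0 y with hy0 | hy0
    · rw [abs_of_nonneg hy0] at hy
      have h3 : R ≤ a * y + b := by nlinarith
      have h4 := h1 _ h3
      have h5 := h1 y (by linarith)
      have h6 := Phi_le_one (a * y + b)
      have h7 := Phi_le_one y
      rw [abs_le]
      constructor <;> linarith
    · rw [abs_of_neg hy0] at hy
      have h3 : a * y + b ≤ -R := by nlinarith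
      have h4 := h2 _ h3
      have h5 := h2 y (by linarith)
      have h6 := Phi_nonneg (a * y + b)
      have h7 := Phi_nonneg y
      rw [abs_le]
      constructor <;> linarith

end Q282LT
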