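import Pool.Agent.Q282.BP.Box
import Pool.Agent.Q282.MM.Main

/-!
# Moments of sums of independent bounded functions of the residues
-/

set_option autoImplicit false
set_option linter.unusedSectionVars false

namespace Q282LT

open Finset
open Q282MM (gm)
open Q282.BP (bx mem_bx card_bx bx_mean mean_mul_period)
open Pool.Agent.TH894.NE (box mem_box card_box Per mean mean_mul mean_mono mean_add mean_const two_mod)

/-! ### the normal moments -/

lemma gm_zero : gm 0 = 1 := by
  unfold gm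
  simp

lemma gm_one : gm 1 = 0 := by
  unfold gm
  simp

lemma gm_two : gm 2 = 1 := by
  unfold gm
  simp [Nat.doubleFactorial]

/-- the moments of a sum of two independent normal variables -/
lemma gm_add (s t : ℝ) (k : ℕ) :
    (gm k : ℝ) * (Real.sqrt (t ^ 2 + s ^ 2)) ^ k = ∑ j ∈ range (k + 1), (k.choose j : ℝ) * ((gm j : ℝ) * t ^ j) * ((gm (k - j) : ℝ) * s ^ (k - j)) := by
  have h := Q282MM.comb_true 2 ![t, s] k
  rw [Fin.sum_univ_two] at h
  simp only [Matrix.cons_val_zero, Matrix.cons_val_one] at h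
  rw [mul_comm, ← h]
  refine sum_bij' (i := fun κ _ => κ 0) (j := fun j _ => ![j, k - j]) ?_ ?_ ?_ ?_ ?_
  · intro κ hκ
    rw [mem_piAntidiag] at hκ
    have := hκ.1
    rw [Fin.sum_univ_two] at this
    rw [mem_range]
    omega
  · intro j hj
    rw [mem_range] at hj
    rw [mem_piAntidiag]
    refine ⟨?_, fun i _ => mem_univ i⟩
    rw [Fin.sum_univ_two]
    simp only [Matrix.cons_val_zero, Matrix.cons_val_one]
    omega
  · intro κ hκ
    rw [mem_piAntidiag] at hκ
    have h1 := hκ.1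
    rw [Fin.sum_univ_two] at h1
    funext i
    fin_cases i
    · rfl
    · show k - κ 0 = κ 1
      omega
  · intro j _
    rfl
  · intro κ hκ
    rw [mem_piAntidiag] at hκ
    have h1 := hκ.1
    rw [Fin.sum_univ_two] at h1
    have h2 : k - κ 0 = κ 1 := by omega
    have h3 : (Nat.multinomial Finset.univ κ : ℝ) = (k.choose (κ 0) : ℝ) := by
      have hu : (Finset.univ : Finset (Fin 2)) = {0, 1} := rfl
      rw [hu, Nat.binomial_eq_choose (by decide), h1]
    rw [Fin.prod_univ_two, Fin.prod_univ_two, h2, h3]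
    simp only [Matrix.cons_val_zero, Matrix.cons_val_one]
    ring

/-! ### the moments of a sum over coprime moduli -/

section

variable {d : ℕ} {ι : Type*} [DecidableEq ι]

/-- the moment of order `k` of the sum of the functions `F a`, `a ∈ I` -/
noncomputable def mk (d : ℕ) (I : Finset ι) (q : ι → ℕ) (F : ι → (Fin d → ℕ) → ℝ) (k : ℕ) : ℝ :=
  mean d (∏ a ∈ I, q a) fun n => (∑ a ∈ I, F a n) ^ k

/-- the variance of the function `F a` -/
noncomputable def va (d : ℕ) (q : ι → ℕ) (F : ι → (Fin d → ℕ) → ℝ) (a : ι) : ℝ := mean d (q a) fun n => F a n ^ 2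

lemma mean_sum' {κ : Type*} (s : Finset κ) (d q : ℕ) (G : κ → (Fin d → ℕ) → ℝ) :
    mean d q (fun n => ∑ i ∈ s, G i n) = ∑ i ∈ s, mean d q (G i) := by
  unfold Pool.Agent.TH894.NE.mean
  rw [sum_comm, mul_sum]

lemma mean_two {u v : ℕ} (hu : 1 ≤ u) (hv : 1 ≤ v) (huv : Nat.Coprime u v) (A B : (Fin d → ℕ) → ℝ) (hA : Per u A)
    (hB : Per v B) : mean d (u * v) (fun n => A n * B n) = mean d u A * mean d v B := by
  have h := two_mod u v hu hv huv A B hA hB
  unfold Pool.Agent.TH894.NE.mean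
  rw [h]
  have hu0 : (u : ℝ) ≠ 0 := by
    have : u ≠ 0 := by omega
    exact_mod_cast this
  have hv0 : (v : ℝ) ≠ 0 := by
    have : v ≠ 0 := by omega
    exact_mod_cast this
  push_cast
  rw [mul_pow]
  field_simp

/-- adding a modulus -/
lemma mk_insert (I : Finset ι) (q : ι → ℕ) (F : ι → (Fin d → ℕ) → ℝ) (a : ι) (ha : a ∉ I) (hq : ∀ b ∈ insert a I, 1 ≤ q b)
    (hco : ∀ b ∈ I, Nat.Coprime (q a) (q b)) (hF : ∀ b ∈ insert a I, Per (q b) (F b)) (k : ℕ) :
    mk d (insert a I) q F k = ∑ j ∈ range (k + 1), (k.choose j : ℝ) * mean d (q a) (fun n => F a n ^ j) * mk d I q F (k - j) := by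
  unfold mk
  rw [prod_insert ha]
  have h1 : (fun n : Fin d → ℕ => (∑ b ∈ insert a I, F b n) ^ k) =
      fun n => ∑ j ∈ range (k + 1), (k.choose j : ℝ) * (F a n ^ j * (∑ b ∈ I, F b n) ^ (k - j)) := by
    funext n
    rw [sum_insert ha, add_pow]
    refine sum_congr rfl fun j _ => ?_
    ring
  rw [h1, mean_sum']
  refine sum_congr rfl fun j _ => ?_
  rw [mean_mul, mean_two (hq a (mem_insert_self a I))
    (Nat.one_le_iff_ne_zero.2 (prod_ne_zero_iff.2 fun b hb => (Nat.one_le_iff_ne_zero.1 (hq b (mem_insert_of_mem hb)))))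
    (Nat.Coprime.prod_right hco), mul_assoc]
  · intro n
    have := hF a (mem_insert_self a I) n
    simp only
    rw [← this]
  · intro n
    simp only
    congr 1
    refine sum_congr rfl fun b hb => ?_
    exact (hF b (mem_insert_of_mem hb)).of_dvd (dvd_prod_of_mem q hb) n

lemma mk_empty (q : ι → ℕ) (F : ι → (Fin d → ℕ) → ℝ) (k : ℕ) : mk d ∅ q F k = if k = 0 then 1 else 0 := by
  unfold mk
  rw [prod_empty]
  simp only [sum_empty]
  rw [mean_const d 1 le_rfl]
  split_ifs with h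
  · rw [h, pow_zero]
  · rw [zero_pow h]

lemma va_nonneg (q : ι → ℕ) (F : ι → (Fin d → ℕ) → ℝ) (a : ι) : 0 ≤ va d q F a := by
  unfold va Pool.Agent.TH894.NE.mean
  refine mul_nonneg (by positivity) (sum_nonneg fun n _ => sq_nonneg _)

lemma mk_zero (I : Finset ι) (q : ι → ℕ) (F : ι → (Fin d → ℕ) → ℝ) (hq : ∀ b ∈ I, 1 ≤ q b) : mk d I q F 0 = 1 := by
  unfold mk
  simp only [pow_zero]
  exact mean_const d _ (Nat.one_le_iff_ne_zero.2 (prod_ne_zero_iff.2 fun b hb => (Nat.one_le_iff_ne_zero.1 (hq b hb)))) 1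

lemma mean_pow_zero (q : ι → ℕ) (F : ι → (Fin d → ℕ) → ℝ) (a : ι) (ha : 1 ≤ q a) : mean d (q a) (fun n => F a n ^ 0) = 1 := by
  simp only [pow_zero]
  exact mean_const d _ ha 1

lemma mk_one (I : Finset ι) (q : ι → ℕ) (F : ι → (Fin d → ℕ) → ℝ) (hq : ∀ b ∈ I, 1 ≤ q b)
    (hco : ∀ a ∈ I, ∀ b ∈ I, a ≠ b → Nat.Coprime (q a) (q b)) (hF : ∀ b ∈ I, Per (q b) (F b))
    (h0 : ∀ b ∈ I, mean d (q b) (F b) = 0) : mk d I q F 1 = 0 := by
  induction I using Finset.induction_on with
  | empty => rw [mk_empty]; simp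
  | insert a I ha ih =>
    have hq' : ∀ b ∈ I, 1 ≤ q b := fun b hb => hq b (mem_insert_of_mem hb)
    rw [mk_insert I q F a ha hq
      (fun b hb => hco a (mem_insert_self a I) b (mem_insert_of_mem hb) (fun h => ha (h ▸ hb))) hF 1]
    rw [sum_range_succ, sum_range_one]
    rw [mean_pow_zero q F a (hq a (mem_insert_self a I))]
    simp only [pow_one]
    rw [h0 a (mem_insert_self a I), Nat.sub_zero,
      ih hq' (fun x hx y hy => hco x (mem_insert_of_mem hx) y (mem_insert_of_mem hy)) (fun b hb => hF b (mem_insert_of_mem hb))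
      (fun b hb => h0 b (mem_insert_of_mem hb))]
    ring

lemma mk_two (I : Finset ι) (q : ι → ℕ) (F : ι → (Fin d → ℕ) → ℝ) (hq : ∀ b ∈ I, 1 ≤ q b)
    (hco : ∀ a ∈ I, ∀ b ∈ I, a ≠ b → Nat.Coprime (q a) (q b)) (hF : ∀ b ∈ I, Per (q b) (F b))
    (h0 : ∀ b ∈ I, mean d (q b) (F b) = 0) : mk d I q F 2 = ∑ a ∈ I, va d q F a := by
  induction I using Finset.induction_on with
  | empty => rw [mk_empty]; simp
  | insert a I ha ih =>
    have hq' : ∀ b ∈ I, 1 ≤ q b := fun b hb => hq b (mem_insert_of_mem hb)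
    rw [mk_insert I q F a ha hq
      (fun b hb => hco a (mem_insert_self a I) b (mem_insert_of_mem hb) (fun h => ha (h ▸ hb))) hF 2]
    rw [sum_range_succ, sum_range_succ, sum_range_one]
    rw [mean_pow_zero q F a (hq a (mem_insert_self a I)), sum_insert ha]
    simp only [pow_one]
    rw [h0 a (mem_insert_self a I), Nat.sub_zero, Nat.sub_self, mk_zero I q F hq',
      ih hq' (fun x hx y hy => hco x (mem_insert_of_mem hx) y (mem_insert_of_mem hy)) (fun b hb => hF b (mem_insert_of_mem hb))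
      (fun b hb => h0 b (mem_insert_of_mem hb))]
    unfold va
    simp
    ring

/-- the moments of one function -/
lemma mean_pow_le (B : ℝ) (_hB : 0 ≤ B) (q : ι → ℕ) (F : ι → (Fin d → ℕ) → ℝ) (a : ι)
    (hb : ∀ n, |F a n| ≤ B) (j : ℕ) (hj : 2 ≤ j) : |mean d (q a) (fun n => F a n ^ j)| ≤ B ^ (j - 2) * va d q F a := by
  have h1 : ∀ n, |F a n ^ j| ≤ B ^ (j - 2) * F a n ^ 2 := by
    intro n
    obtain ⟨i, rfl⟩ := Nat.exists_eq_add_of_le hj
    rw [abs_pow, pow_add, sq_abs, Nat.add_sub_cancel_left, mul_comm]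
    exact mul_le_mul_of_nonneg_right (pow_le_pow_left₀ (abs_nonneg _) (hb n) i) (sq_nonneg _)
  rw [abs_le]
  unfold va
  rw [← mean_mul]
  constructor
  · have h2 : mean d (q a) (fun n => (-1) * (B ^ (j - 2) * F a n ^ 2)) ≤ mean d (q a) (fun n => F a n ^ j) := by
      refine mean_mono fun n => ?_
      have := (abs_le.1 (h1 n)).1
      linarith
    rw [mean_mul] at h2
    linarith
  · exact mean_mono fun n => (abs_le.1 (h1 n)).2

lemma va_le (B : ℝ) (q : ι → ℕ) (F : ι → (Fin d → ℕ) → ℝ) (a : ι) (ha : 1 ≤ q a)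
    (hb : ∀ n, |F a n| ≤ B) : va d q F a ≤ B ^ 2 := by
  unfold va
  refine (mean_mono (G := fun _ => B ^ 2) fun n => ?_).trans (mean_const d _ ha _).le
  have := pow_le_pow_left₀ (abs_nonneg _) (hb n) 2
  rwa [sq_abs] at this

end

/-- the moments of a sum of bounded functions with mean zero to coprime moduli are close to those of the normal law -/
theorem mk_main (B : ℝ) (hB : 1 ≤ B) (k : ℕ) : ∃ C : ℝ, 0 ≤ C ∧ (k ≤ 2 → C = 0) ∧
    ∀ (d : ℕ) (I : Finset ℕ) (q : ℕ → ℕ) (F : ℕ → (Fin d → ℕ) → ℝ), (∀ b ∈ I, 1 ≤ q b) →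
      (∀ a ∈ I, ∀ b ∈ I, a ≠ b → Nat.Coprime (q a) (q b)) → (∀ b ∈ I, Per (q b) (F b)) →
      (∀ b ∈ I, mean d (q b) (F b) = 0) → (∀ b ∈ I, ∀ n, |F b n| ≤ B) →
      |mk d I q F k - (gm k : ℝ) * (Real.sqrt (∑ a ∈ I, va d q F a)) ^ k| ≤
        C * (∑ a ∈ I, va d q F a) * (Real.sqrt (1 + ∑ a ∈ I, va d q F a)) ^ (k - 3) := by
  induction k using Nat.strong_induction_on with
  | _ k ihk =>
  rcases Nat.lt_or_ge k 3 with hk3 | hk3
  · refine ⟨0, le_rfl, fun _ => rfl, ?_⟩
    intro d I q F hq hco hF h0 hb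
    have hV : 0 ≤ ∑ a ∈ I, va d q F a := sum_nonneg fun a _ => va_nonneg q F a
    have : mk d I q F k - (gm k : ℝ) * (Real.sqrt (∑ a ∈ I, va d q F a)) ^ k = 0 := by
      interval_cases k
      · rw [mk_zero I q F hq, gm_zero]
        simp
      · rw [mk_one I q F hq hco hF h0, gm_one]
        simp
      · rw [mk_two I q F hq hco hF h0, gm_two, Real.sq_sqrt hV]
        simp
    rw [this, abs_zero, zero_mul, zero_mul]
  · choose! c hc0 hc1 hc using ihk
    have hck : 0 ≤ c (k - 2) := hc0 (k - 2) (by omega)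
    obtain ⟨C, hC⟩ : ∃ C : ℝ, C = (k.choose 2 : ℝ) * c (k - 2) +
      ∑ j ∈ Ico 3 (k + 1), (k.choose j : ℝ) * (B ^ (j - 2) * ((gm (k - j) : ℝ) + c (k - j) + (gm j : ℝ) * (gm (k - j) : ℝ))) := ⟨_, rfl⟩
    have hC0 : 0 ≤ C := by
      rw [hC]
      refine add_nonneg (by positivity) (sum_nonneg fun j hj => ?_)
      rw [mem_Ico] at hj
      have := hc0 (k - j) (by omega)
      positivity
    refine ⟨C, hC0, fun h => absurd h (by omega), ?_⟩
    intro d I q F hq hco hF h0 hb
    induction I using Finset.induction_on with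
    | empty =>
      rw [mk_empty, sum_empty, if_neg (by omega), Real.sqrt_zero, zero_pow (by omega)]
      simp
    | insert a I ha ih =>
      have ha' : a ∈ insert a I := mem_insert_self a I
      have hm : ∀ b ∈ I, b ∈ insert a I := fun b hb => mem_insert_of_mem hb
      have hq' : ∀ b ∈ I, 1 ≤ q b := fun b hb => hq b (hm b hb)
      have hco' : ∀ x ∈ I, ∀ y ∈ I, x ≠ y → Nat.Coprime (q x) (q y) := fun x hx y hy => hco x (hm x hx) y (hm y hy)
      have hF' : ∀ b ∈ I, Per (q b) (F b) := fun b hb => hF b (hm b hb)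
      have h0' : ∀ b ∈ I, mean d (q b) (F b) = 0 := fun b hb => h0 b (hm b hb)
      have hb' : ∀ b ∈ I, ∀ n, |F b n| ≤ B := fun b hb' => hb b (hm b hb')
      have ih' := ih hq' hco' hF' h0' hb'
      have hcI : ∀ m < k, |mk d I q F m - (gm m : ℝ) * (Real.sqrt (∑ a ∈ I, va d q F a)) ^ m| ≤
        c m * (∑ a ∈ I, va d q F a) * (Real.sqrt (1 + ∑ a ∈ I, va d q F a)) ^ (m - 3) :=
        fun m hm => hc m hm d I q F hq' hco' hF' h0' hb'
      rw [mk_insert I q F a ha hq (fun b hb => hco a ha' b (hm b hb) (fun h => ha (h ▸ hb))) hF k, sum_insert ha]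
      obtain ⟨V, hV⟩ : ∃ V : ℝ, V = ∑ a ∈ I, va d q F a := ⟨_, rfl⟩
      obtain ⟨v, hv⟩ : ∃ v : ℝ, v = va d q F a := ⟨_, rfl⟩
      rw [← hV] at ih' ⊢
      rw [← hv]
      simp only [← hV] at hcI
      have hV0 : 0 ≤ V := by
        rw [hV]
        exact sum_nonneg fun a _ => va_nonneg q F a
      have hv0 : 0 ≤ v := by
        rw [hv]
        exact va_nonneg q F a
      have hvB : v ≤ B ^ 2 := by
        rw [hv]
        exact va_le B q F a (hq a ha') (hb a ha')
      obtain ⟨W, hW⟩ : ∃ W : ℝ, W = Real.sqrt (1 + V) := ⟨_, rfl⟩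
      obtain ⟨W', hW'⟩ : ∃ W' : ℝ, W' = Real.sqrt (1 + (v + V)) := ⟨_, rfl⟩
      rw [← hW] at ih'
      rw [← hW']
      simp only [← hW] at hcI
      have hW1 : 1 ≤ W := by
        rw [hW]
        exact Real.one_le_sqrt.2 (by linarith)
      have hWW : W ≤ W' := by
        rw [hW, hW']
        exact Real.sqrt_le_sqrt (by linarith)
      have hW'1 : 1 ≤ W' := hW1.trans hWW
      have hVW : V ≤ W ^ 2 := by
        rw [hW, Real.sq_sqrt (by linarith)]
        linarith
      have hsVW : Real.sqrt V ≤ W := by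
        rw [hW]
        exact Real.sqrt_le_sqrt (by linarith)
      have hsv : Real.sqrt v ≤ B := by
        rw [Real.sqrt_le_left (by linarith)]
        exact hvB
      -- the sum for the normal law
      have hg := gm_add (Real.sqrt V) (Real.sqrt v) k
      rw [Real.sq_sqrt hv0, Real.sq_sqrt hV0] at hg
      rw [hg, ← sum_sub_distrib]
      -- the moments are bounded
      have hMb : ∀ m < k, |mk d I q F m| ≤ ((gm m : ℝ) + c m) * W ^ m := by
        intro m hm
        have h1 := hcI m hm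
        have h2 : c m * V * W ^ (m - 3) ≤ c m * W ^ m := by
          rcases Nat.lt_or_ge m 3 with h3 | h3
          · rw [hc1 m hm (by omega)]
            simp
          · rw [mul_assoc]
            refine mul_le_mul_of_nonneg_left ?_ (hc0 m hm)
            calc V * W ^ (m - 3) ≤ W ^ 2 * W ^ (m - 3) := mul_le_mul_of_nonneg_right hVW (by positivity)
              _ = W ^ (m - 1) := by rw [← pow_add]; congr 1; omega
              _ ≤ W ^ m := pow_le_pow_right₀ hW1 (by omega)
        have h3 : (gm m : ℝ) * (Real.sqrt V) ^ m ≤ (gm m : ℝ) * W ^ m :=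
          mul_le_mul_of_nonneg_left (pow_le_pow_left₀ (Real.sqrt_nonneg _) hsVW m) (Nat.cast_nonneg _)
        have h4 : 0 ≤ (gm m : ℝ) * (Real.sqrt V) ^ m := by positivity
        have h5 := abs_sub_abs_le_abs_sub (mk d I q F m) ((gm m : ℝ) * (Real.sqrt V) ^ m)
        rw [abs_of_nonneg h4] at h5
        linarith
      rw [← sum_range_add_sum_Ico _ (by omega : 3 ≤ k + 1), sum_range_succ, sum_range_succ, sum_range_one]
      rw [mean_pow_zero q F a (hq a ha')]
      have h1 : mean d (q a) (fun n => F a n ^ 1) = 0 := by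
        simp only [pow_one]
        exact h0 a ha'
      have h2 : mean d (q a) (fun n => F a n ^ 2) = v := hv.symm
      rw [h1, h2, gm_zero, gm_one, gm_two, Real.sq_sqrt hv0]
      have hT : |∑ j ∈ Ico 3 (k + 1), ((k.choose j : ℝ) * mean d (q a) (fun n => F a n ^ j) * mk d I q F (k - j) -
          (k.choose j : ℝ) * ((gm j : ℝ) * Real.sqrt v ^ j) * ((gm (k - j) : ℝ) * Real.sqrt V ^ (k - j)))| ≤
          v * W' ^ (k - 3) * ∑ j ∈ Ico 3 (k + 1), (k.choose j : ℝ) * (B ^ (j - 2) *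
            ((gm (k - j) : ℝ) + c (k - j) + (gm j : ℝ) * (gm (k - j) : ℝ))) := by
        rw [mul_sum]
        refine (abs_sum_le_sum_abs _ _).trans (sum_le_sum fun j hj => ?_)
        rw [mem_Ico] at hj
        have h3 := mean_pow_le B (by linarith) q F a (hb a ha') j (by omega)
        rw [← hv] at h3
        have h4 := hMb (k - j) (by omega)
        have h5 : Real.sqrt v ^ j ≤ B ^ (j - 2) * v := by
          obtain ⟨i, hi⟩ := Nat.exists_eq_add_of_le (show 2 ≤ j by omega)
          rw [hi, pow_add, Real.sq_sqrt hv0, Nat.add_sub_cancel_left, mul_comm]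
          exact mul_le_mul_of_nonneg_right (pow_le_pow_left₀ (Real.sqrt_nonneg _) hsv i) hv0
        have h6 : W ^ (k - j) ≤ W' ^ (k - 3) := by
          calc W ^ (k - j) ≤ W' ^ (k - j) := pow_le_pow_left₀ (by linarith) hWW _
            _ ≤ W' ^ (k - 3) := pow_le_pow_right₀ hW'1 (by omega)
        have h7 : Real.sqrt V ^ (k - j) ≤ W' ^ (k - 3) :=
          (pow_le_pow_left₀ (Real.sqrt_nonneg _) hsVW _).trans h6
        have h8 := hc0 (k - j) (by omega)
        have hB0 : 0 ≤ B ^ (j - 2) * v := by positivity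
        have h9 : |mean d (q a) (fun n => F a n ^ j) * mk d I q F (k - j)| ≤
            (B ^ (j - 2) * v) * (((gm (k - j) : ℝ) + c (k - j)) * W' ^ (k - 3)) := by
          rw [abs_mul]
          refine mul_le_mul h3 (h4.trans ?_) (abs_nonneg _) hB0
          exact mul_le_mul_of_nonneg_left h6 (by positivity)
        have h10 : |((gm j : ℝ) * Real.sqrt v ^ j) * ((gm (k - j) : ℝ) * Real.sqrt V ^ (k - j))| ≤
            (B ^ (j - 2) * v) * ((gm j : ℝ) * (gm (k - j) : ℝ) * W' ^ (k - 3)) := by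
          rw [abs_of_nonneg (by positivity)]
          calc ((gm j : ℝ) * Real.sqrt v ^ j) * ((gm (k - j) : ℝ) * Real.sqrt V ^ (k - j))
              ≤ ((gm j : ℝ) * (B ^ (j - 2) * v)) * ((gm (k - j) : ℝ) * W' ^ (k - 3)) := by
                refine mul_le_mul (mul_le_mul_of_nonneg_left h5 (Nat.cast_nonneg _))
                  (mul_le_mul_of_nonneg_left h7 (Nat.cast_nonneg _)) (by positivity) (by positivity)
            _ = _ := by ring
        have h11 : (k.choose j : ℝ) * mean d (q a) (fun n => F a n ^ j) * mk d I q F (k - j) -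
          (k.choose j : ℝ) * ((gm j : ℝ) * Real.sqrt v ^ j) * ((gm (k - j) : ℝ) * Real.sqrt V ^ (k - j)) =
          (k.choose j : ℝ) * (mean d (q a) (fun n => F a n ^ j) * mk d I q F (k - j) -
            ((gm j : ℝ) * Real.sqrt v ^ j) * ((gm (k - j) : ℝ) * Real.sqrt V ^ (k - j))) := by ring
        rw [h11, abs_mul, abs_of_nonneg (Nat.cast_nonneg (k.choose j) : (0 : ℝ) ≤ _)]
        calc (k.choose j : ℝ) * |mean d (q a) (fun n => F a n ^ j) * mk d I q F (k - j) -
            ((gm j : ℝ) * Real.sqrt v ^ j) * ((gm (k - j) : ℝ) * Real.sqrt V ^ (k - j))|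
            ≤ (k.choose j : ℝ) * ((B ^ (j - 2) * v) * (((gm (k - j) : ℝ) + c (k - j)) * W' ^ (k - 3)) +
              (B ^ (j - 2) * v) * ((gm j : ℝ) * (gm (k - j) : ℝ) * W' ^ (k - 3))) := by
              refine mul_le_mul_of_nonneg_left ?_ (Nat.cast_nonneg _)
              exact (abs_sub _ _).trans (add_le_add h9 h10)
          _ = _ := by ring
      have h3 : v * |mk d I q F (k - 2) - (gm (k - 2) : ℝ) * Real.sqrt V ^ (k - 2)| ≤ v * W' ^ (k - 3) * c (k - 2) := by
        rw [mul_assoc]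
        refine mul_le_mul_of_nonneg_left ?_ hv0
        refine (hcI (k - 2) (by omega)).trans ?_
        rcases Nat.lt_or_ge k 5 with h4 | h4
        · rw [hc1 (k - 2) (by omega) (by omega)]
          simp
        · calc c (k - 2) * V * W ^ (k - 2 - 3) ≤ c (k - 2) * W ^ 2 * W ^ (k - 2 - 3) := by
                refine mul_le_mul_of_nonneg_right (mul_le_mul_of_nonneg_left hVW hck) (by positivity)
            _ = W ^ (k - 3) * c (k - 2) := by
                rw [mul_assoc, ← pow_add, mul_comm]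
                congr 2
                omega
            _ ≤ W' ^ (k - 3) * c (k - 2) :=
                mul_le_mul_of_nonneg_right (pow_le_pow_left₀ (by linarith) hWW _) hck
      have h4 : |mk d I q F k - (gm k : ℝ) * Real.sqrt V ^ k| ≤ C * V * W' ^ (k - 3) :=
        ih'.trans (mul_le_mul_of_nonneg_left (pow_le_pow_left₀ (by linarith) hWW _) (by positivity))
      have h5 : ((k.choose 0 : ℕ) : ℝ) * 1 * mk d I q F (k - 0) -
          ((k.choose 0 : ℕ) : ℝ) * (((1 : ℕ) : ℝ) * Real.sqrt v ^ 0) * ((gm (k - 0) : ℝ) * Real.sqrt V ^ (k - 0)) +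
          (((k.choose 1 : ℕ) : ℝ) * 0 * mk d I q F (k - 1) -
          ((k.choose 1 : ℕ) : ℝ) * (((0 : ℕ) : ℝ) * Real.sqrt v ^ 1) * ((gm (k - 1) : ℝ) * Real.sqrt V ^ (k - 1))) +
          (((k.choose 2 : ℕ) : ℝ) * v * mk d I q F (k - 2) -
          ((k.choose 2 : ℕ) : ℝ) * (((1 : ℕ) : ℝ) * v) * ((gm (k - 2) : ℝ) * Real.sqrt V ^ (k - 2))) =
          (mk d I q F k - (gm k : ℝ) * Real.sqrt V ^ k) +
          ((k.choose 2 : ℕ) : ℝ) * (v * (mk d I q F (k - 2) - (gm (k - 2) : ℝ) * Real.sqrt V ^ (k - 2))) := by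
        rw [Nat.choose_zero_right, Nat.sub_zero]
        push_cast
        ring
      rw [h5]
      have h6 : |((k.choose 2 : ℕ) : ℝ) * (v * (mk d I q F (k - 2) - (gm (k - 2) : ℝ) * Real.sqrt V ^ (k - 2)))| ≤
          v * W' ^ (k - 3) * (((k.choose 2 : ℕ) : ℝ) * c (k - 2)) := by
        rw [abs_mul, abs_mul, abs_of_nonneg hv0, abs_of_nonneg (Nat.cast_nonneg (k.choose 2) : (0 : ℝ) ≤ _)]
        calc ((k.choose 2 : ℕ) : ℝ) * (v * |mk d I q F (k - 2) - (gm (k - 2) : ℝ) * Real.sqrt V ^ (k - 2)|)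
            ≤ ((k.choose 2 : ℕ) : ℝ) * (v * W' ^ (k - 3) * c (k - 2)) :=
              mul_le_mul_of_nonneg_left h3 (Nat.cast_nonneg _)
          _ = _ := by ring
      have h7 := abs_add_three (mk d I q F k - (gm k : ℝ) * Real.sqrt V ^ k)
        (((k.choose 2 : ℕ) : ℝ) * (v * (mk d I q F (k - 2) - (gm (k - 2) : ℝ) * Real.sqrt V ^ (k - 2))))
        (∑ j ∈ Ico 3 (k + 1), ((k.choose j : ℝ) * mean d (q a) (fun n => F a n ^ j) * mk d I q F (k - j) -
          (k.choose j : ℝ) * ((gm j : ℝ) * Real.sqrt v ^ j) * ((gm (k - j) : ℝ) * Real.sqrt V ^ (k - j))))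
      refine h7.trans ?_
      have h8 : C * (v + V) * W' ^ (k - 3) = C * V * W' ^ (k - 3) + v * W' ^ (k - 3) * (((k.choose 2 : ℕ) : ℝ) * c (k - 2)) +
          v * W' ^ (k - 3) * ∑ j ∈ Ico 3 (k + 1), (k.choose j : ℝ) * (B ^ (j - 2) *
            ((gm (k - j) : ℝ) + c (k - j) + (gm j : ℝ) * (gm (k - j) : ℝ))) := by
        have h9 : v * W' ^ (k - 3) * C = v * W' ^ (k - 3) * (((k.choose 2 : ℕ) : ℝ) * c (k - 2)) +
          v * W' ^ (k - 3) * ∑ j ∈ Ico 3 (k + 1), (k.choose j : ℝ) * (B ^ (j - 2) *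
            ((gm (k - j) : ℝ) + c (k - j) + (gm j : ℝ) * (gm (k - j) : ℝ))) := by
          rw [hC, mul_add]
        have h10 : C * (v + V) * W' ^ (k - 3) = C * V * W' ^ (k - 3) + v * W' ^ (k - 3) * C := by ring
        rw [h10, h9, add_assoc]
      rw [h8]
      exact add_le_add (add_le_add h4 h6) hT

end Q282LT
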