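import Pool.Agent.Q282.LT.Mom

/-!
# Moments over boxes with long sides
-/

set_option autoImplicit false
set_option linter.unusedSectionVars false

namespace Q282LT

open Finset
open Q282MM (gm)
open Q282.BP (bx mem_bx card_bx bx_mean mean_mul_period)
open Pool.Agent.TH894.NE (box mem_box card_box Per mean mean_mul mean_mono mean_add mean_const two_mod)

/-- power moments over a box with long sides -/
theorem box_mom {d : ℕ} (k : ℕ) (B : ℝ) (hB : 0 ≤ B) (I : Finset ℕ) (q : ℕ → ℕ) (F : ℕ → (Fin d → ℕ) → ℝ)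
    (hq : ∀ a ∈ I, 1 ≤ q a) (hF : ∀ a ∈ I, Per (q a) (F a)) (hb : ∀ a ∈ I, ∀ n, |F a n| ≤ B)
    (Y : ℕ) (hY : ∀ a ∈ I, q a ≤ Y) (T : ℝ) (hT0 : 0 < T) (L : Fin d → ℕ) (hL : ∀ i, T ≤ L i)
    (hT : d * (Y : ℝ) ^ k ≤ T) :
    |∑ n ∈ bx L, (∑ a ∈ I, F a n) ^ k - (∏ i, (L i : ℝ)) * mk d I q F k| ≤
      (∏ i, (L i : ℝ)) * ((I.card * B) ^ k * (2 * (d * (Y : ℝ) ^ k / T))) := by
  classical
  have hL0 : ∀ i, (0 : ℝ) < L i := fun i => hT0.trans_le (hL i)
  have hP0 : 0 < ∏ i, (L i : ℝ) := prod_pos fun i _ => hL0 i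
  obtain ⟨Q, hQ⟩ : ∃ Q : ℕ, Q = ∏ a ∈ I, q a := ⟨_, rfl⟩
  have hQ0 : 0 < Q := by
    rw [hQ]
    exact prod_pos fun a ha => hq a ha
  obtain ⟨TT, hTT⟩ : ∃ TT : Finset (Fin k → ℕ), TT = Fintype.piFinset fun _ : Fin k => I := ⟨_, rfl⟩
  have hexp : ∀ n, (∑ a ∈ I, F a n) ^ k = ∑ τ ∈ TT, ∏ i, F (τ i) n := by
    intro n
    have h2 := prod_univ_sum (fun _ : Fin k => I) (fun _ a => F a n)
    rw [prod_const, card_univ, Fintype.card_fin] at h2
    rw [hTT, h2]
  have hmemT : ∀ τ ∈ TT, ∀ i, τ i ∈ I := by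
    intro τ hτ i
    rw [hTT, Fintype.mem_piFinset] at hτ
    exact hτ i
  have hterm : ∀ τ ∈ TT, |∑ n ∈ bx L, ∏ i, F (τ i) n - (∏ i, (L i : ℝ)) * mean d Q (fun n => ∏ i, F (τ i) n)| ≤
      (∏ i, (L i : ℝ)) * (B ^ k * (2 * (d * (Y : ℝ) ^ k / T))) := by
    intro τ hτ
    obtain ⟨r, hr⟩ : ∃ r : ℕ, r = ∏ i, q (τ i) := ⟨_, rfl⟩
    have hr0 : 0 < r := by
      rw [hr]
      exact prod_pos fun i _ => hq _ (hmemT τ hτ i)
    have hper : Per r (fun n => ∏ i, F (τ i) n) := by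
      intro n
      refine prod_congr rfl fun i _ => ?_
      exact (hF _ (hmemT τ hτ i)).of_dvd (by rw [hr]; exact dvd_prod_of_mem (fun i => q (τ i)) (mem_univ i)) n
    have hperQ : Per Q (fun n => ∏ i, F (τ i) n) := by
      intro n
      refine prod_congr rfl fun i _ => ?_
      exact (hF _ (hmemT τ hτ i)).of_dvd (by rw [hQ]; exact dvd_prod_of_mem q (hmemT τ hτ i)) n
    have hmean : mean d r (fun n => ∏ i, F (τ i) n) = mean d Q (fun n => ∏ i, F (τ i) n) := by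
      rw [← mean_mul_period hr0 Q hQ0 _ hper, mul_comm, mean_mul_period hQ0 r hr0 _ hperQ]
    have hM : ∀ n, |∏ i, F (τ i) n| ≤ B ^ k := by
      intro n
      rw [abs_prod]
      calc ∏ i, |F (τ i) n| ≤ ∏ _i : Fin k, B := by
            refine prod_le_prod (fun i _ => abs_nonneg _) fun i _ => ?_
            exact hb _ (hmemT τ hτ i) n
        _ = B ^ k := by rw [prod_const, card_univ, Fintype.card_fin]
    have h5 := bx_mean hr0 L T hT0 hL _ hper (B ^ k) hM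
    rw [hmean] at h5
    refine h5.trans ?_
    refine mul_le_mul_of_nonneg_left (mul_le_mul_of_nonneg_left ?_ (by positivity)) hP0.le
    have hqY : (r : ℝ) ≤ (Y : ℝ) ^ k := by
      have : r ≤ Y ^ k := by
        rw [hr]
        calc ∏ i, q (τ i) ≤ ∏ _i : Fin k, Y := prod_le_prod' fun i _ => hY _ (hmemT τ hτ i)
          _ = Y ^ k := by rw [prod_const, card_univ, Fintype.card_fin]
      exact_mod_cast this
    have h6 : (d : ℝ) * r / T ≤ d * (Y : ℝ) ^ k / T :=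
      div_le_div_of_nonneg_right (mul_le_mul_of_nonneg_left hqY (Nat.cast_nonneg _)) hT0.le
    have h7 : (d : ℝ) * r / T ≤ 1 := by
      refine h6.trans ?_
      rw [div_le_one hT0]
      exact hT
    have h8 : 0 ≤ (d : ℝ) * r / T := by positivity
    have h9 := Real.abs_exp_sub_one_le (x := (d : ℝ) * r / T) (by rw [abs_of_nonneg h8]; exact h7)
    rw [abs_of_nonneg h8] at h9
    exact (le_abs_self _).trans (h9.trans (by linarith))
  have hsum : ∑ n ∈ bx L, (∑ a ∈ I, F a n) ^ k = ∑ τ ∈ TT, ∑ n ∈ bx L, ∏ i, F (τ i) n := by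
    rw [sum_congr rfl fun n _ => hexp n, sum_comm]
  have hmsum : mk d I q F k = ∑ τ ∈ TT, mean d Q (fun n => ∏ i, F (τ i) n) := by
    unfold mk
    rw [← hQ, ← mean_sum']
    congr 1
    funext n
    exact hexp n
  rw [hsum, hmsum, mul_sum, ← sum_sub_distrib]
  refine (abs_sum_le_sum_abs _ _).trans ((sum_le_sum hterm).trans (le_of_eq ?_))
  have h4 : TT.card = I.card ^ k := by
    rw [hTT, Fintype.card_piFinset_const]
  rw [sum_const, nsmul_eq_mul, h4]
  push_cast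
  ring

end Q282LT
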