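import Pool.Agent.Q282.LT.Mob

/-!
# Sparse configurations of residues over boxes are those of all residues
-/

set_option autoImplicit false
set_option linter.unusedSectionVars false

namespace Q282LT

open Finset
open Q282.BP (bx mem_bx card_bx bx_mean mean_mul_period)
open Pool.Agent.TH894.NE (box mem_box card_box Per mean mean_mul mean_mono mean_add mean_const mean_prod two_mod)

/-- the configuration outside `R` is deleted -/
def res {κ : Type} (R : Finset ℕ) (σ : ℕ → Option κ) : ℕ → Option κ := fun p => if p ∈ R then σ p else none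

open Classical in
/-- the indicator function of the hits -/
noncomputable def hit {κ : Type} (o : Option κ) : ℝ := if o = none then 0 else 1

lemma hit_nonneg {κ : Type} (o : Option κ) : 0 ≤ hit o := by
  unfold hit
  split_ifs <;> norm_num

lemma hit_le {κ : Type} (o : Option κ) : hit o ≤ 1 := by
  unfold hit
  split_ifs <;> norm_num

/-- the pointwise estimate -/
lemma point_est {κ : Type} (Ψ : (ℕ → Option κ) → ℝ) (hΨ : ∀ σ, |Ψ σ| ≤ 1) (I : Finset ℕ) (σ : ℕ → Option κ) (J : ℕ) :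
    |Ψ (res I σ) - ∑ T ∈ I.powerset.filter (fun T => T.card < J), mu (fun R => Ψ (res R σ)) T| ≤
      3 ^ J * ∑ T ∈ powersetCard J I, ∏ p ∈ T, hit (σ p) := by
  classical
  obtain ⟨S, hS⟩ : ∃ S : Finset ℕ, S = I.filter fun p => σ p ≠ none := ⟨_, rfl⟩
  have hSI : S ⊆ I := by
    rw [hS]
    exact filter_subset _ _
  have h1 : res I σ = res S σ := by
    funext p
    unfold res
    rw [hS]
    by_cases hp : p ∈ I
    · by_cases hn : σ p = none
      · have hnS : p ∉ I.filter fun p => σ p ≠ none := fun h => (mem_filter.1 h).2 hn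
        rw [if_pos hp, if_neg hnS, hn]
      · rw [if_pos hp, if_pos (mem_filter.2 ⟨hp, hn⟩)]
    · rw [if_neg hp, if_neg (fun h => hp (mem_filter.1 h).1)]
  have h2 : ∑ T ∈ I.powerset.filter (fun T => T.card < J), mu (fun R => Ψ (res R σ)) T =
      ∑ T ∈ S.powerset.filter (fun T => T.card < J), mu (fun R => Ψ (res R σ)) T := by
    symm
    refine sum_subset (filter_subset_filter _ (powerset_mono.2 hSI)) fun T hT hTS => ?_
    rw [mem_filter, mem_powerset] at hT hTS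
    have h3 : ¬ T ⊆ S := fun h => hTS ⟨h, hT.2⟩
    obtain ⟨a, haT, haS⟩ := not_subset.1 h3
    have han : σ a = none := by
      by_contra h
      exact haS (by rw [hS]; exact mem_filter.2 ⟨hT.1 haT, h⟩)
    refine mu_zero _ T a haT fun R => ?_
    show Ψ (res (insert a R) σ) = Ψ (res R σ)
    congr 1
    funext p
    unfold res
    by_cases hp : p = a
    · subst hp
      rw [if_pos (mem_insert_self p R), han]
      split_ifs <;> rfl
    · by_cases hpR : p ∈ R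
      · rw [if_pos (mem_insert_of_mem hpR), if_pos hpR]
      · rw [if_neg (fun h => (mem_insert.1 h).elim hp hpR), if_neg hpR]
  have h3 : (S.card.choose J : ℝ) = ∑ T ∈ powersetCard J I, ∏ p ∈ T, hit (σ p) := by
    have h4 : ∑ T ∈ powersetCard J I, ∏ p ∈ T, hit (σ p) = ∑ T ∈ powersetCard J S, ∏ p ∈ T, hit (σ p) := by
      symm
      refine sum_subset (powersetCard_mono hSI) fun T hT hTS => ?_
      rw [mem_powersetCard] at hT hTS
      have h3 : ¬ T ⊆ S := fun h => hTS ⟨h, hT.2⟩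
      obtain ⟨a, haT, haS⟩ := not_subset.1 h3
      refine prod_eq_zero haT ?_
      unfold hit
      rw [if_pos]
      by_contra h
      exact haS (by rw [hS]; exact mem_filter.2 ⟨hT.1 haT, h⟩)
    rw [h4]
    have h5 : ∀ T ∈ powersetCard J S, ∏ p ∈ T, hit (σ p) = 1 := by
      intro T hT
      refine prod_eq_one fun p hp => ?_
      have := (mem_powersetCard.1 hT).1 hp
      rw [hS, mem_filter] at this
      unfold hit
      rw [if_neg this.2]
    rw [sum_congr rfl h5, sum_const, card_powersetCard, nsmul_eq_mul, mul_one]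
  rw [h1, h2, ← h3]
  exact mu_trunc (fun R => Ψ (res R σ)) (fun R => hΨ _) S J

/-- averages over boxes and over all residues of functions of few residues -/
lemma box_per {d : ℕ} (I : Finset ℕ) (q : ℕ → ℕ) (hq : ∀ a ∈ I, 1 ≤ q a) (Y : ℕ) (hY : ∀ a ∈ I, q a ≤ Y)
    (T₀ : ℝ) (hT0 : 0 < T₀) (L : Fin d → ℕ) (hL : ∀ i, T₀ ≤ L i) (T : Finset ℕ) (hT : T ⊆ I) (hTY : d * (Y : ℝ) ^ T.card ≤ T₀)
    (H : (Fin d → ℕ) → ℝ) (hH : Per (∏ a ∈ T, q a) H) (M : ℝ) (hM : ∀ n, |H n| ≤ M) :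
    |(∑ n ∈ bx L, H n) / (∏ i, (L i : ℝ)) - mean d (∏ a ∈ I, q a) H| ≤ M * (2 * (d * (Y : ℝ) ^ T.card / T₀)) := by
  have hL0 : ∀ i, (0 : ℝ) < L i := fun i => hT0.trans_le (hL i)
  have hP0 : 0 < ∏ i, (L i : ℝ) := prod_pos fun i _ => hL0 i
  have hM0 : 0 ≤ M := (abs_nonneg _).trans (hM 0)
  obtain ⟨r, hr⟩ : ∃ r : ℕ, r = ∏ a ∈ T, q a := ⟨_, rfl⟩
  obtain ⟨Q, hQ⟩ : ∃ Q : ℕ, Q = ∏ a ∈ I, q a := ⟨_, rfl⟩
  have hr0 : 0 < r := by
    rw [hr]
    exact prod_pos fun a ha => hq a (hT ha)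
  have hQ0 : 0 < Q := by
    rw [hQ]
    exact prod_pos fun a ha => hq a ha
  rw [← hr] at hH
  rw [← hQ]
  have hdvd : r ∣ Q := by
    rw [hr, hQ]
    exact prod_dvd_prod_of_subset _ _ _ hT
  obtain ⟨k, hk⟩ := hdvd
  have hk0 : 0 < k := by
    rcases Nat.eq_zero_or_pos k with h | h
    · rw [h, mul_zero] at hk
      omega
    · exact h
  have hmean : mean d Q H = mean d r H := by
    rw [hk]
    exact mean_mul_period hr0 k hk0 H hH
  rw [hmean]
  have h5 := bx_mean hr0 L T₀ hT0 hL _ hH M hM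
  have h6 : (∑ n ∈ bx L, H n) / (∏ i, (L i : ℝ)) - mean d r H = (∑ n ∈ bx L, H n - (∏ i, (L i : ℝ)) * mean d r H) / (∏ i, (L i : ℝ)) := by
    field_simp
  rw [h6, abs_div, abs_of_pos hP0, div_le_iff₀ hP0]
  refine h5.trans ?_
  rw [mul_comm]
  refine mul_le_mul_of_nonneg_right (mul_le_mul_of_nonneg_left ?_ hM0) hP0.le
  have hqY : (r : ℝ) ≤ (Y : ℝ) ^ T.card := by
    have : r ≤ Y ^ T.card := by
      rw [hr]
      calc ∏ a ∈ T, q a ≤ ∏ _a ∈ T, Y := prod_le_prod' fun a ha => hY a (hT ha)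
        _ = Y ^ T.card := by rw [prod_const]
    exact_mod_cast this
  have h6 : (d : ℝ) * r / T₀ ≤ d * (Y : ℝ) ^ T.card / T₀ :=
    div_le_div_of_nonneg_right (mul_le_mul_of_nonneg_left hqY (Nat.cast_nonneg _)) hT0.le
  have h7 : (d : ℝ) * r / T₀ ≤ 1 := by
    refine h6.trans ?_
    rw [div_le_one hT0]
    exact hTY
  have h8 : 0 ≤ (d : ℝ) * r / T₀ := by positivity
  have h9 := Real.abs_exp_sub_one_le (x := (d : ℝ) * r / T₀) (by rw [abs_of_nonneg h8]; exact h7)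
  rw [abs_of_nonneg h8] at h9
  exact (le_abs_self _).trans (h9.trans (by linarith))

/-- Configurations with a bounded expected number of hits: the average over a box with long sides of any bounded function of the
configuration is close to the average over all residues. -/
theorem conf {κ : Type} (ε Λ : ℝ) (hε : 0 < ε) (hΛ : 0 ≤ Λ) : ∃ (C₀ : ℝ) (A : ℕ), 0 < C₀ ∧
    ∀ (d : ℕ) (I : Finset ℕ) (q : ℕ → ℕ) (τ : ℕ → (Fin d → ℕ) → Option κ), (∀ b ∈ I, 1 ≤ q b) →
      (∀ a ∈ I, ∀ b ∈ I, a ≠ b → Nat.Coprime (q a) (q b)) → (∀ b ∈ I, ∀ n, τ b n = τ b (fun i => n i % q b)) →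
      ∑ a ∈ I, mean d (q a) (fun n => hit (τ a n)) ≤ Λ →
      ∀ Y : ℕ, 1 ≤ Y → (∀ a ∈ I, q a ≤ Y) → I.card ≤ Y → ∀ L : Fin d → ℕ, (∀ i, C₀ * (d + 1) * (Y : ℝ) ^ A ≤ L i) →
      ∀ Ψ : (ℕ → Option κ) → ℝ, (∀ σ, |Ψ σ| ≤ 1) →
      |(∑ n ∈ bx L, Ψ (res I fun a => τ a n)) / (∏ i, (L i : ℝ)) - mean d (∏ a ∈ I, q a) (fun n => Ψ (res I fun a => τ a n))| ≤ ε := by
  classical
  -- the level of the truncation
  obtain ⟨J, hJ⟩ : ∃ J : ℕ, (3 * Λ) ^ J / (J.factorial : ℝ) ≤ ε / 4 := by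
    have h := (FloorSemiring.tendsto_pow_div_factorial_atTop (3 * Λ)).eventually (gt_mem_nhds (show (0 : ℝ) < ε / 4 by positivity))
    obtain ⟨J, hJ⟩ := h.exists
    exact ⟨J, hJ.le⟩
  refine ⟨4 * (3 ^ J + J * 2 ^ J) / ε + 1, 2 * J, by positivity, ?_⟩
  intro d I q τ hq hco hτ hlam Y hY1 hY hIY L hL Ψ hΨ
  have hYr : (1 : ℝ) ≤ Y := by exact_mod_cast hY1
  obtain ⟨T₀, hT₀⟩ : ∃ T₀ : ℝ, T₀ = (4 * (3 ^ J + J * 2 ^ J) / ε + 1) * (d + 1) * (Y : ℝ) ^ (2 * J) := ⟨_, rfl⟩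
  rw [← hT₀] at hL
  have hT0 : 0 < T₀ := by
    rw [hT₀]
    positivity
  have hL0 : ∀ i, (0 : ℝ) < L i := fun i => hT0.trans_le (hL i)
  have hP0 : 0 < ∏ i, (L i : ℝ) := prod_pos fun i _ => hL0 i
  obtain ⟨Q, hQ⟩ : ∃ Q : ℕ, Q = ∏ a ∈ I, q a := ⟨_, rfl⟩
  have hQ1 : 0 < Q := by
    rw [hQ]
    exact prod_pos fun a ha => hq a ha
  -- the quantity δ
  obtain ⟨δ, hδ⟩ : ∃ δ : ℝ, δ = 2 * (d * (Y : ℝ) ^ J / T₀) := ⟨_, rfl⟩
  have hδ0 : 0 ≤ δ := by
    rw [hδ]
    positivity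
  have hTY : ∀ j ≤ J, (d : ℝ) * (Y : ℝ) ^ j ≤ T₀ := by
    intro j hj
    rw [hT₀]
    calc (d : ℝ) * (Y : ℝ) ^ j ≤ 1 * (d + 1) * (Y : ℝ) ^ (2 * J) := by
          rw [one_mul]
          exact mul_le_mul (by linarith) (pow_le_pow_right₀ hYr (by omega)) (by positivity) (by positivity)
      _ ≤ _ := by
          refine mul_le_mul_of_nonneg_right (mul_le_mul_of_nonneg_right ?_ (by positivity)) (by positivity)
          have : 0 ≤ 4 * (3 ^ J + J * 2 ^ J) / ε := by positivity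
          linarith
  have hδj : ∀ j ≤ J, 2 * (d * (Y : ℝ) ^ j / T₀) ≤ δ := by
    intro j hj
    rw [hδ]
    refine mul_le_mul_of_nonneg_left (div_le_div_of_nonneg_right ?_ hT0.le) (by norm_num)
    exact mul_le_mul_of_nonneg_left (pow_le_pow_right₀ hYr hj) (Nat.cast_nonneg _)
  have hδε : (3 ^ J + J * 2 ^ J) * ((Y : ℝ) ^ J * δ) ≤ ε / 2 := by
    have h1 : (3 ^ J + J * 2 ^ J) * ((Y : ℝ) ^ J * δ) = (2 * (3 ^ J + J * 2 ^ J) * d * (Y : ℝ) ^ (2 * J)) / T₀ := by
      rw [hδ, two_mul J, pow_add]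
      ring
    rw [h1, div_le_iff₀ hT0, hT₀]
    have h2 : ε / 2 * ((4 * (3 ^ J + J * 2 ^ J) / ε + 1) * (d + 1) * (Y : ℝ) ^ (2 * J)) =
        (2 * (3 ^ J + J * 2 ^ J) + ε / 2) * (d + 1) * (Y : ℝ) ^ (2 * J) := by
      field_simp
      ring
    rw [h2]
    refine mul_le_mul_of_nonneg_right ?_ (by positivity)
    refine mul_le_mul (by linarith) (by linarith) (Nat.cast_nonneg _) (by positivity)
  -- the functions
  obtain ⟨F, hF⟩ : ∃ F : (Fin d → ℕ) → ℝ, F = fun n => Ψ (res I fun a => τ a n) := ⟨_, rfl⟩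
  obtain ⟨g, hg⟩ : ∃ g : Finset ℕ → (Fin d → ℕ) → ℝ, g = fun T n => mu (fun R => Ψ (res R fun a => τ a n)) T := ⟨_, rfl⟩
  obtain ⟨𝒯, h𝒯⟩ : ∃ 𝒯 : Finset (Finset ℕ), 𝒯 = I.powerset.filter (fun T => T.card < J) := ⟨_, rfl⟩
  obtain ⟨G, hG⟩ : ∃ G : (Fin d → ℕ) → ℝ, G = fun n => ∑ T ∈ 𝒯, g T n := ⟨_, rfl⟩
  obtain ⟨E, hE⟩ : ∃ E : (Fin d → ℕ) → ℝ, E = fun n => ∑ T ∈ powersetCard J I, ∏ p ∈ T, hit (τ p n) := ⟨_, rfl⟩
  have hFG : ∀ n, |F n - G n| ≤ 3 ^ J * E n := by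
    intro n
    rw [hF, hG, hE, hg, h𝒯]
    exact point_est Ψ hΨ I (fun a => τ a n) J
  -- the means of E
  have hEmean : mean d Q E ≤ Λ ^ J / (J.factorial : ℝ) := by
    rw [hE, mean_sum']
    have h1 : ∀ T ∈ powersetCard J I, mean d Q (fun n => ∏ p ∈ T, hit (τ p n)) = ∏ p ∈ T, mean d (q p) (fun n => hit (τ p n)) := by
      intro T hT
      rw [mem_powersetCard] at hT
      have h2 : mean d Q (fun n => ∏ p ∈ T, hit (τ p n)) = mean d (∏ a ∈ T, q a) (fun n => ∏ p ∈ T, hit (τ p n)) := by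
        obtain ⟨k, hk⟩ : (∏ a ∈ T, q a) ∣ Q := by
          rw [hQ]
          exact prod_dvd_prod_of_subset _ _ _ hT.1
        have hk0 : 0 < k := by
          rcases Nat.eq_zero_or_pos k with h | h
          · rw [h, mul_zero] at hk
            omega
          · exact h
        rw [hk]
        refine mean_mul_period (prod_pos fun a ha => hq a (hT.1 ha)) k hk0 _ ?_
        intro n
        refine prod_congr rfl fun p hp => ?_
        rw [hτ p (hT.1 hp) n, hτ p (hT.1 hp) (fun i => n i % ∏ a ∈ T, q a)]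
        simp only [Nat.mod_mod_of_dvd _ (dvd_prod_of_mem q hp)]
      rw [h2]
      refine mean_prod T q (fun a ha => hq a (hT.1 ha)) (fun a ha b hb => hco a (hT.1 ha) b (hT.1 hb)) (fun p n => hit (τ p n)) ?_
      intro p hp n
      show hit (τ p n) = hit (τ p fun i => n i % q p)
      rw [← hτ p (hT.1 hp) n]
    rw [sum_congr rfl h1]
    have h3 := esym_le I (fun p => mean d (q p) (fun n => hit (τ p n))) (fun a ha => by
      have := mean_mono (d := d) (q := q a) (F := fun _ => 0) (G := fun n => hit (τ a n)) (fun n => hit_nonneg _)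
      rwa [mean_const d (q a) (hq a ha)] at this) J
    refine h3.trans (div_le_div_of_nonneg_right ?_ (by positivity))
    refine pow_le_pow_left₀ ?_ hlam J
    refine sum_nonneg fun a ha => ?_
    have := mean_mono (d := d) (q := q a) (F := fun _ => 0) (G := fun n => hit (τ a n)) (fun n => hit_nonneg _)
    rwa [mean_const d (q a) (hq a ha)] at this
  have hcardJ : ((powersetCard J I).card : ℝ) ≤ (Y : ℝ) ^ J := by
    rw [card_powersetCard]
    have h1 : I.card.choose J ≤ Y ^ J := (Nat.choose_le_pow _ _).trans (Nat.pow_le_pow_left hIY J)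
    exact_mod_cast h1
  have hEL : (∑ n ∈ bx L, E n) / (∏ i, (L i : ℝ)) ≤ mean d Q E + (Y : ℝ) ^ J * δ := by
    have h1 : (∑ n ∈ bx L, E n) / (∏ i, (L i : ℝ)) =
        ∑ T ∈ powersetCard J I, (∑ n ∈ bx L, ∏ p ∈ T, hit (τ p n)) / (∏ i, (L i : ℝ)) := by
      rw [hE, ← sum_div, sum_comm]
    have h2 : mean d Q E = ∑ T ∈ powersetCard J I, mean d Q (fun n => ∏ p ∈ T, hit (τ p n)) := by
      rw [hE, mean_sum']
    rw [h1, h2]
    have h3 : ∀ T ∈ powersetCard J I, (∑ n ∈ bx L, ∏ p ∈ T, hit (τ p n)) / (∏ i, (L i : ℝ)) ≤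
        mean d Q (fun n => ∏ p ∈ T, hit (τ p n)) + δ := by
      intro T hT
      rw [mem_powersetCard] at hT
      have h4 := box_per I q hq Y hY T₀ hT0 L hL T hT.1 (hTY _ hT.2.le) (fun n => ∏ p ∈ T, hit (τ p n)) (by
        intro n
        refine prod_congr rfl fun p hp => ?_
        rw [hτ p (hT.1 hp) n, hτ p (hT.1 hp) (fun i => n i % ∏ a ∈ T, q a)]
        simp only [Nat.mod_mod_of_dvd _ (dvd_prod_of_mem q hp)]) 1 (by
        intro n
        rw [abs_prod]
        refine prod_le_one (fun p _ => abs_nonneg _) fun p _ => ?_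
        rw [abs_of_nonneg (hit_nonneg _)]
        exact hit_le _)
      rw [← hQ, one_mul] at h4
      have h5 := (abs_le.1 h4).2
      have h6 := hδj _ hT.2.le
      linarith
    refine (sum_le_sum h3).trans ?_
    rw [sum_add_distrib, sum_const, nsmul_eq_mul]
    have := mul_le_mul_of_nonneg_right hcardJ hδ0
    linarith
  -- the means of G
  have hGG : |(∑ n ∈ bx L, G n) / (∏ i, (L i : ℝ)) - mean d Q G| ≤ J * 2 ^ J * ((Y : ℝ) ^ J * δ) := by
    have h1 : (∑ n ∈ bx L, G n) / (∏ i, (L i : ℝ)) = ∑ T ∈ 𝒯, (∑ n ∈ bx L, g T n) / (∏ i, (L i : ℝ)) := by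
      rw [hG, ← sum_div, sum_comm]
    have h2 : mean d Q G = ∑ T ∈ 𝒯, mean d Q (g T) := by
      rw [hG, mean_sum']
    rw [h1, h2, ← sum_sub_distrib]
    refine (abs_sum_le_sum_abs _ _).trans ?_
    have h3 : ∀ T ∈ 𝒯, |(∑ n ∈ bx L, g T n) / (∏ i, (L i : ℝ)) - mean d Q (g T)| ≤ 2 ^ J * δ := by
      intro T hT
      rw [h𝒯, mem_filter, mem_powerset] at hT
      have hperg : Per (∏ a ∈ T, q a) (g T) := by
        intro n
        rw [hg]
        show mu (fun R => Ψ (res R fun a => τ a n)) T = mu (fun R => Ψ (res R fun a => τ a fun i => n i % ∏ a ∈ T, q a)) T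
        unfold mu
        refine sum_congr rfl fun R hR => ?_
        rw [mem_powerset] at hR
        congr 1
        show Ψ (res R fun a => τ a n) = Ψ (res R fun a => τ a fun i => n i % ∏ a ∈ T, q a)
        congr 1
        funext p
        unfold res
        by_cases hp : p ∈ R
        · rw [if_pos hp, if_pos hp]
          show τ p n = τ p (fun i => n i % ∏ a ∈ T, q a)
          rw [hτ p (hT.1 (hR hp)) n, hτ p (hT.1 (hR hp)) (fun i => n i % ∏ a ∈ T, q a)]
          simp only [Nat.mod_mod_of_dvd _ (dvd_prod_of_mem q (hR hp))]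
        · rw [if_neg hp, if_neg hp]
      have h4 := box_per I q hq Y hY T₀ hT0 L hL T hT.1 (hTY _ hT.2.le) (g T) hperg (2 ^ T.card) (by
        intro n
        rw [hg]
        exact mu_abs _ (fun R => hΨ _) T)
      rw [← hQ] at h4
      refine h4.trans (mul_le_mul (pow_le_pow_right₀ (by norm_num) hT.2.le) (hδj _ hT.2.le) (by positivity) (by positivity))
    refine (sum_le_sum h3).trans ?_
    rw [sum_const, nsmul_eq_mul]
    have h4 : (𝒯.card : ℝ) ≤ J * (Y : ℝ) ^ J := by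
      have h5 : 𝒯 = (range J).biUnion fun j => powersetCard j I := by
        rw [h𝒯]
        ext T
        rw [mem_filter, mem_powerset, mem_biUnion]
        constructor
        · rintro ⟨h6, h7⟩
          exact ⟨T.card, mem_range.2 h7, mem_powersetCard.2 ⟨h6, rfl⟩⟩
        · rintro ⟨j, hj, h6⟩
          rw [mem_powersetCard] at h6
          exact ⟨h6.1, by rw [h6.2]; exact mem_range.1 hj⟩
      have h6 : 𝒯.card ≤ J * Y ^ J := by
        rw [h5]
        refine card_biUnion_le.trans ?_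
        calc ∑ j ∈ range J, (powersetCard j I).card ≤ ∑ _j ∈ range J, Y ^ J := by
              refine sum_le_sum fun j hj => ?_
              rw [mem_range] at hj
              rw [card_powersetCard]
              exact ((Nat.choose_le_pow _ _).trans (Nat.pow_le_pow_left hIY j)).trans (Nat.pow_le_pow_right hY1 hj.le)
          _ = J * Y ^ J := by rw [sum_const, card_range, smul_eq_mul]
      exact_mod_cast h6
    calc (𝒯.card : ℝ) * (2 ^ J * δ) ≤ (J * (Y : ℝ) ^ J) * (2 ^ J * δ) := mul_le_mul_of_nonneg_right h4 (by positivity)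
      _ = _ := by ring
  -- the remainders
  have hR1 : |(∑ n ∈ bx L, F n) / (∏ i, (L i : ℝ)) - (∑ n ∈ bx L, G n) / (∏ i, (L i : ℝ))| ≤
      3 ^ J * ((∑ n ∈ bx L, E n) / (∏ i, (L i : ℝ))) := by
    rw [← sub_div, ← sum_sub_distrib, abs_div, abs_of_pos hP0, ← mul_div_assoc, mul_sum]
    refine div_le_div_of_nonneg_right ?_ hP0.le
    exact (abs_sum_le_sum_abs _ _).trans (sum_le_sum fun n _ => hFG n)
  have hR2 : |mean d Q F - mean d Q G| ≤ 3 ^ J * mean d Q E := by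
    unfold Pool.Agent.TH894.NE.mean
    rw [← mul_sub, ← sum_sub_distrib, abs_mul, abs_of_nonneg (by positivity : (0 : ℝ) ≤ 1 / (Q : ℝ) ^ d)]
    have h1 : |∑ n ∈ box d Q, (F n - G n)| ≤ ∑ n ∈ box d Q, 3 ^ J * E n :=
      (abs_sum_le_sum_abs _ _).trans (sum_le_sum fun n _ => hFG n)
    rw [← mul_sum] at h1
    calc 1 / (Q : ℝ) ^ d * |∑ n ∈ box d Q, (F n - G n)| ≤ 1 / (Q : ℝ) ^ d * (3 ^ J * ∑ n ∈ box d Q, E n) :=
          mul_le_mul_of_nonneg_left h1 (by positivity)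
      _ = _ := by ring
  have h3J : 3 ^ J * (Λ ^ J / (J.factorial : ℝ)) ≤ ε / 4 := by
    rw [mul_div_assoc', ← mul_pow]
    exact hJ
  have h1 := mul_le_mul_of_nonneg_left hEL (by positivity : (0 : ℝ) ≤ 3 ^ J)
  have h2 := mul_le_mul_of_nonneg_left hEmean (by positivity : (0 : ℝ) ≤ 3 ^ J)
  have hA := abs_le.1 hR1
  have hB := abs_le.1 hR2
  have hC := abs_le.1 hGG
  rw [← hQ, ← hF]
  show |(∑ n ∈ bx L, F n) / (∏ i, (L i : ℝ)) - mean d Q F| ≤ ε
  have hexp : (3 ^ J + J * 2 ^ J) * ((Y : ℝ) ^ J * δ) = 3 ^ J * ((Y : ℝ) ^ J * δ) + J * 2 ^ J * ((Y : ℝ) ^ J * δ) := by ring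
  rw [hexp] at hδε
  rw [mul_add] at h1
  rw [abs_le]
  constructor
  · linarith [hA.1, hA.2, hB.1, hB.2, hC.1, hC.2]
  · linarith [hA.1, hA.2, hB.1, hB.2, hC.1, hC.2]

end Q282LT
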