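import Pool.Agent.Q282.LT.Box

/-!
# The normal law for sums over coprime moduli, over boxes with long sides
-/

set_option autoImplicit false
set_option linter.unusedSectionVars false

namespace Q282LT

open Finset
open Q282MM (gm Phi)
open Q282.BP (bx mem_bx card_bx bx_mean mean_mul_period)
open Pool.Agent.TH894.NE (box mem_box card_box Per mean mean_mul mean_mono mean_add mean_const two_mod)

theorem gauss (ε : ℝ) (hε : 0 < ε) (B : ℝ) (hB : 1 ≤ B) : ∃ (V₀ C₀ : ℝ) (A : ℕ), 0 < V₀ ∧ 0 < C₀ ∧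
    ∀ (d : ℕ) (I : Finset ℕ) (q : ℕ → ℕ) (F : ℕ → (Fin d → ℕ) → ℝ), (∀ b ∈ I, 1 ≤ q b) →
      (∀ a ∈ I, ∀ b ∈ I, a ≠ b → Nat.Coprime (q a) (q b)) → (∀ b ∈ I, Per (q b) (F b)) →
      (∀ b ∈ I, mean d (q b) (F b) = 0) → (∀ b ∈ I, ∀ n, |F b n| ≤ B) → V₀ ≤ ∑ a ∈ I, va d q F a →
      ∀ Y : ℕ, (∀ a ∈ I, q a ≤ Y) → I.card ≤ Y → ∀ L : Fin d → ℕ, (∀ i, C₀ * (d + 1) * (Y : ℝ) ^ A ≤ L i) →
      ∀ y : ℝ, |(((bx L).filter fun n => ∑ a ∈ I, F a n ≤ y * Real.sqrt (∑ a ∈ I, va d q F a)).card : ℝ) /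
        ((bx L).card : ℝ) - Phi y| ≤ ε := by
  classical
  -- the number of moments
  obtain ⟨n, hn⟩ := exists_nat_ge ((8 / ε) ^ 2 + 1)
  have hn1 : 1 ≤ n := by
    have : (1 : ℝ) ≤ n := by
      have : 0 ≤ (8 / ε) ^ 2 := sq_nonneg _
      linarith
    exact_mod_cast this
  have hn0 : (0 : ℝ) < n := by exact_mod_cast hn1
  have hn2 : 4 / Real.sqrt (n : ℝ) ≤ ε / 2 := by
    have h1 : 8 / ε ≤ Real.sqrt n := Real.le_sqrt_of_sq_le (by linarith)
    have h2 : 0 < Real.sqrt n := Real.sqrt_pos.2 hn0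
    rw [div_le_iff₀ h2]
    have h3 := mul_le_mul_of_nonneg_left h1 hε.le
    have h4 : ε * (8 / ε) = 8 := by field_simp
    rw [h4] at h3
    linarith
  obtain ⟨C, hC, hemp, -⟩ := Q282MM.emp Q282MM.fin_true n hn1
  obtain ⟨η, hη⟩ : ∃ η : ℝ, η = ε / (2 * (C + 1)) := ⟨_, rfl⟩
  have hη0 : 0 < η := by
    rw [hη]
    positivity
  have hCη : C * η ≤ ε / 2 := by
    rw [hη, mul_div_assoc', div_le_div_iff₀ (by positivity) (by norm_num)]
    nlinarith
  choose c hc0 hc1 hc using mk_main B hB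
  obtain ⟨K, hK⟩ : ∃ K : ℝ, K = ∑ k ∈ range (2 * n + 1), 2 ^ k * c k := ⟨_, rfl⟩
  have hK0 : 0 ≤ K := by
    rw [hK]
    exact sum_nonneg fun k _ => mul_nonneg (by positivity) (hc0 k)
  have hcK : ∀ k ≤ 2 * n, 2 ^ k * c k ≤ K := by
    intro k hk
    rw [hK]
    exact single_le_sum (f := fun k => 2 ^ k * c k) (fun k _ => mul_nonneg (by positivity) (hc0 k)) (mem_range.2 (by omega))
  refine ⟨1 + (2 * K / η) ^ 2, 4 / η * B ^ (2 * n) + 1, 4 * n, by positivity, by positivity, ?_⟩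
  intro d I q F hq hco hF h0 hb hV Y hY hIY L hL y
  obtain ⟨V, hVd⟩ : ∃ V : ℝ, V = ∑ a ∈ I, va d q F a := ⟨_, rfl⟩
  rw [← hVd] at hV ⊢
  have hV1 : 1 ≤ V := by
    have : 0 ≤ (2 * K / η) ^ 2 := sq_nonneg _
    linarith
  have hV0 : 0 < V := by linarith
  have hsV : 0 < Real.sqrt V := Real.sqrt_pos.2 hV0
  have hsV1 : 1 ≤ Real.sqrt V := Real.one_le_sqrt.2 hV1
  have hsV2 : 2 * K / η ≤ Real.sqrt V := Real.le_sqrt_of_sq_le (by linarith)
  have hIne : I.Nonempty := by
    rw [nonempty_iff_ne_empty]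
    intro h
    rw [h, sum_empty] at hVd
    linarith
  have hY1 : 1 ≤ Y := (card_pos.2 hIne).trans_le hIY
  have hYr : (1 : ℝ) ≤ Y := by exact_mod_cast hY1
  obtain ⟨T, hT⟩ : ∃ T : ℝ, T = (4 / η * B ^ (2 * n) + 1) * (d + 1) * (Y : ℝ) ^ (4 * n) := ⟨_, rfl⟩
  rw [← hT] at hL
  have hT0 : 0 < T := by
    rw [hT]
    positivity
  have hL0 : ∀ i, (0 : ℝ) < L i := fun i => hT0.trans_le (hL i)
  have hP0 : 0 < ∏ i, (L i : ℝ) := prod_pos fun i _ => hL0 i
  have hcard : ((bx L).card : ℝ) = ∏ i, (L i : ℝ) := by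
    rw [card_bx]
    push_cast
    rfl
  have hne : (bx L).Nonempty := by
    rw [← card_pos]
    have : (0 : ℝ) < ((bx L).card : ℝ) := by rw [hcard]; exact hP0
    exact_mod_cast this
  have hmom : ∀ k ≤ 2 * n, |(∑ v ∈ bx L, ((∑ a ∈ I, F a v) / Real.sqrt V) ^ k) / ((bx L).card : ℝ) - (gm k : ℝ)| ≤ η := by
    intro k hk
    have hTk : (d : ℝ) * (Y : ℝ) ^ k ≤ T := by
      rw [hT]
      calc (d : ℝ) * (Y : ℝ) ^ k ≤ 1 * (d + 1) * (Y : ℝ) ^ (4 * n) := by
            rw [one_mul]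
            refine mul_le_mul (by linarith) (pow_le_pow_right₀ hYr (by omega)) (by positivity) (by positivity)
        _ ≤ _ := by
            refine mul_le_mul_of_nonneg_right (mul_le_mul_of_nonneg_right ?_ (by positivity)) (by positivity)
            have : 0 ≤ 4 / η * B ^ (2 * n) := by positivity
            linarith
    have h1 := box_mom k B (by linarith) I q F hq hF hb Y hY T hT0 L hL hTk
    have h2 := hc k d I q F hq hco hF h0 hb
    rw [← hVd] at h2
    have h3 : (∑ v ∈ bx L, ((∑ a ∈ I, F a v) / Real.sqrt V) ^ k) / ((bx L).card : ℝ) - (gm k : ℝ) =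
        ((∑ v ∈ bx L, (∑ a ∈ I, F a v) ^ k) - (∏ i, (L i : ℝ)) * mk d I q F k) / ((∏ i, (L i : ℝ)) * Real.sqrt V ^ k) +
        (mk d I q F k - (gm k : ℝ) * Real.sqrt V ^ k) / Real.sqrt V ^ k := by
      rw [hcard]
      simp_rw [div_pow]
      rw [← sum_div]
      have := hP0.ne'
      have := (pow_pos hsV k).ne'
      field_simp
      ring
    rw [h3]
    refine (abs_add_le _ _).trans ?_
    rw [abs_div, abs_div, abs_of_pos (by positivity : 0 < (∏ i, (L i : ℝ)) * Real.sqrt V ^ k), abs_of_pos (pow_pos hsV k)]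
    have h4 : |(∑ v ∈ bx L, (∑ a ∈ I, F a v) ^ k) - (∏ i, (L i : ℝ)) * mk d I q F k| / ((∏ i, (L i : ℝ)) * Real.sqrt V ^ k) ≤
        η / 2 := by
      have h5 : (∏ i, (L i : ℝ)) * ((I.card * B) ^ k * (2 * (d * (Y : ℝ) ^ k / T))) ≤ η / 2 * (∏ i, (L i : ℝ)) := by
        rw [mul_comm (η / 2)]
        refine mul_le_mul_of_nonneg_left ?_ hP0.le
        have h6 : (I.card * B : ℝ) ^ k ≤ (Y : ℝ) ^ k * B ^ (2 * n) := by
          rw [mul_pow]
          refine mul_le_mul (pow_le_pow_left₀ (Nat.cast_nonneg _) (by exact_mod_cast hIY) k)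
            (pow_le_pow_right₀ hB hk) (by positivity) (by positivity)
        have h7 : 2 * (d * (Y : ℝ) ^ k / T) ≤ 2 * (Y : ℝ) ^ k / ((4 / η * B ^ (2 * n)) * (Y : ℝ) ^ (4 * n)) := by
          rw [hT, mul_div_assoc', div_le_div_iff₀ (by positivity) (by positivity)]
          have h8 : 2 * (d * (Y : ℝ) ^ k) * ((4 / η * B ^ (2 * n)) * (Y : ℝ) ^ (4 * n)) =
            2 * (Y : ℝ) ^ k * ((4 / η * B ^ (2 * n)) * d * (Y : ℝ) ^ (4 * n)) := by ring
          rw [h8]
          refine mul_le_mul_of_nonneg_left ?_ (by positivity)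
          refine mul_le_mul_of_nonneg_right ?_ (by positivity)
          have h9 : 0 ≤ 4 / η * B ^ (2 * n) := by positivity
          have h10 : (0 : ℝ) ≤ d := Nat.cast_nonneg d
          nlinarith
        calc (I.card * B : ℝ) ^ k * (2 * (d * (Y : ℝ) ^ k / T))
            ≤ ((Y : ℝ) ^ k * B ^ (2 * n)) * (2 * (Y : ℝ) ^ k / ((4 / η * B ^ (2 * n)) * (Y : ℝ) ^ (4 * n))) :=
              mul_le_mul h6 h7 (by positivity) (by positivity)
          _ = η / 2 * ((Y : ℝ) ^ (2 * k) / (Y : ℝ) ^ (4 * n)) := by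
              have hBp : (0 : ℝ) < B ^ (2 * n) := by positivity
              have hYp : (0 : ℝ) < (Y : ℝ) ^ (4 * n) := by positivity
              rw [two_mul k, pow_add]
              field_simp
              ring
          _ ≤ η / 2 * 1 := by
              refine mul_le_mul_of_nonneg_left ?_ (by positivity)
              rw [div_le_one (by positivity)]
              exact pow_le_pow_right₀ hYr (by omega)
          _ = η / 2 := mul_one _
      have h6 : (∏ i, (L i : ℝ)) ≤ (∏ i, (L i : ℝ)) * Real.sqrt V ^ k :=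
        le_mul_of_one_le_right hP0.le (one_le_pow₀ hsV1)
      rw [div_le_iff₀ (by positivity)]
      refine (h1.trans h5).trans ?_
      exact mul_le_mul_of_nonneg_left h6 (by positivity)
    have h5 : |mk d I q F k - (gm k : ℝ) * Real.sqrt V ^ k| / Real.sqrt V ^ k ≤ η / 2 := by
      rw [div_le_iff₀ (pow_pos hsV k)]
      refine h2.trans ?_
      rcases Nat.lt_or_ge k 3 with h3 | h3
      · rw [hc1 k (by omega), zero_mul, zero_mul]
        positivity
      · have h6 : Real.sqrt (1 + V) ≤ 2 * Real.sqrt V := by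
          rw [Real.sqrt_le_left (by positivity), mul_pow, Real.sq_sqrt hV0.le]
          linarith
        have h7 : c k * V * Real.sqrt (1 + V) ^ (k - 3) ≤ 2 ^ k * c k * (Real.sqrt V) ^ (k - 1) := by
          calc c k * V * Real.sqrt (1 + V) ^ (k - 3) ≤ c k * V * (2 * Real.sqrt V) ^ (k - 3) := by
                refine mul_le_mul_of_nonneg_left (pow_le_pow_left₀ (Real.sqrt_nonneg _) h6 _) ?_
                exact mul_nonneg (hc0 k) hV0.le
            _ = 2 ^ (k - 3) * c k * (Real.sqrt V ^ 2 * Real.sqrt V ^ (k - 3)) := by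
                rw [mul_pow, Real.sq_sqrt hV0.le]
                ring
            _ = 2 ^ (k - 3) * c k * (Real.sqrt V) ^ (k - 1) := by
                rw [← pow_add]
                congr 2
                omega
            _ ≤ _ := by
                refine mul_le_mul_of_nonneg_right (mul_le_mul_of_nonneg_right ?_ (hc0 k)) (by positivity)
                exact pow_le_pow_right₀ (by norm_num) (by omega)
        refine h7.trans ?_
        have h8 : Real.sqrt V ^ k = Real.sqrt V ^ (k - 1) * Real.sqrt V := by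
          rw [← pow_succ]
          congr 1
          omega
        rw [h8]
        have h9 : 2 ^ k * c k ≤ η / 2 * Real.sqrt V := by
          refine (hcK k hk).trans ?_
          have h10 := mul_le_mul_of_nonneg_left hsV2 hη0.le
          have h11 : η * (2 * K / η) = 2 * K := by field_simp
          rw [h11] at h10
          linarith
        calc 2 ^ k * c k * Real.sqrt V ^ (k - 1) ≤ (η / 2 * Real.sqrt V) * Real.sqrt V ^ (k - 1) :=
              mul_le_mul_of_nonneg_right h9 (by positivity)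
          _ = _ := by ring
    linarith
  have h1 := hemp (Fin d → ℕ) (bx L) (fun v => (∑ a ∈ I, F a v) / Real.sqrt V) η hne hη0.le hmom y
  have h2 : (bx L).filter (fun v => (∑ a ∈ I, F a v) / Real.sqrt V ≤ y) =
      (bx L).filter fun v => ∑ a ∈ I, F a v ≤ y * Real.sqrt V := by
    apply filter_congr
    intro v _
    rw [div_le_iff₀ hsV]
  rw [h2] at h1
  linarith

end Q282LT
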