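import Pool.Agent.Helper916.Kloos
import Pool.Agent.H498R2.KlWeil

/-!
# The first four moments of Kloosterman sums over a finite field
-/

set_option autoImplicit false
set_option linter.unusedSectionVars false

namespace Q282LT.KL

open Finset
open Pool.Agent.Helper916 (Kl Kl_dil kl_count)

variable {F : Type*} [Field F] [Fintype F] [DecidableEq F]

/-- the solutions of the two equations -/
def sol (F : Type*) [Field F] [Fintype F] [DecidableEq F] (k : ℕ) : Finset (Fin k → F) :=
  (Fintype.piFinset fun _ : Fin k => univ.erase (0 : F)).filter fun z => ∑ i, z i = 0 ∧ ∑ i, (z i)⁻¹ = 0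

lemma mem_sol {k : ℕ} {z : Fin k → F} : z ∈ sol F k ↔ (∀ i, z i ≠ 0) ∧ ∑ i, z i = 0 ∧ ∑ i, (z i)⁻¹ = 0 := by
  unfold sol
  rw [mem_filter, Fintype.mem_piFinset]
  simp only [mem_erase, mem_univ, and_true]

lemma psi_sum {ι : Type*} (ψ : AddChar F ℂ) (s : Finset ι) (f : ι → F) : ψ (∑ i ∈ s, f i) = ∏ i ∈ s, ψ (f i) := by
  classical
  induction s using Finset.induction_on with
  | empty => simp
  | insert a s ha ih => rw [sum_insert ha, prod_insert ha, AddChar.map_add_eq_mul, ih]

lemma Kl_pow (ψ : AddChar F ℂ) (b c : F) (k : ℕ) :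
    Kl ψ b c ^ k = ∑ z ∈ Fintype.piFinset fun _ : Fin k => univ.erase (0 : F), ψ (∑ i, z i * b) * ψ (∑ i, (z i)⁻¹ * c) := by
  have h2 := prod_univ_sum (fun _ : Fin k => univ.erase (0 : F)) (fun _ z => ψ (b * z + c * z⁻¹))
  rw [prod_const, card_univ, Fintype.card_fin] at h2
  unfold Pool.Agent.Helper916.Kl
  rw [h2]
  refine sum_congr rfl fun z _ => ?_
  rw [← AddChar.map_add_eq_mul, ← sum_add_distrib, psi_sum]
  refine prod_congr rfl fun i _ => ?_
  congr 1
  ring

lemma double_sum (ψ : AddChar F ℂ) (hψ : ψ.IsPrimitive) (k : ℕ) :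
    ∑ b : F, ∑ c : F, Kl ψ b c ^ k = (Fintype.card F : ℂ) ^ 2 * ((sol F k).card : ℂ) := by
  have h1 : ∑ b : F, ∑ c : F, Kl ψ b c ^ k = ∑ z ∈ Fintype.piFinset fun _ : Fin k => univ.erase (0 : F),
      (∑ b : F, ψ (b * ∑ i, z i)) * ∑ c : F, ψ (c * ∑ i, (z i)⁻¹) := by
    have h2 : ∀ b c : F, Kl ψ b c ^ k = ∑ z ∈ Fintype.piFinset fun _ : Fin k => univ.erase (0 : F),
        ψ (b * ∑ i, z i) * ψ (c * ∑ i, (z i)⁻¹) := by
      intro b c
      rw [Kl_pow]
      refine sum_congr rfl fun z _ => ?_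
      rw [mul_sum, mul_sum]
      congr 2
      · refine sum_congr rfl fun i _ => mul_comm _ _
      · refine sum_congr rfl fun i _ => mul_comm _ _
    rw [sum_congr rfl fun b _ => sum_congr rfl fun c _ => h2 b c]
    rw [sum_congr rfl fun b _ => sum_comm, sum_comm]
    refine sum_congr rfl fun z _ => ?_
    rw [sum_mul_sum]
  rw [h1]
  simp_rw [AddChar.sum_mulShift _ hψ]
  unfold sol
  rw [card_filter]
  push_cast
  rw [mul_sum]
  refine sum_congr rfl fun z _ => ?_
  by_cases c1 : ∑ i, z i = 0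
  · by_cases c2 : ∑ i, (z i)⁻¹ = 0
    · simp [c1, c2, sq]
    · simp [c1, c2]
  · simp [c1]

lemma Kl_zero_left (ψ : AddChar F ℂ) (hψ : ψ.IsPrimitive) (c : F) (hc : c ≠ 0) : Kl ψ 0 c = -1 := by
  unfold Pool.Agent.Helper916.Kl
  have h1 : ∑ z ∈ univ.erase (0 : F), ψ (0 * z + c * z⁻¹) = ∑ z ∈ univ.erase (0 : F), ψ (z * c) := by
    refine sum_nbij' (i := fun z => z⁻¹) (j := fun z => z⁻¹) ?_ ?_ ?_ ?_ ?_
    · intro z hz
      rw [mem_erase] at hz ⊢
      exact ⟨inv_ne_zero hz.1, mem_univ _⟩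
    · intro z hz
      rw [mem_erase] at hz ⊢
      exact ⟨inv_ne_zero hz.1, mem_univ _⟩
    · intro z _
      exact inv_inv z
    · intro z _
      exact inv_inv z
    · intro z _
      congr 1
      ring
  rw [h1]
  have h2 := AddChar.sum_mulShift c hψ
  rw [if_neg hc, ← add_sum_erase _ _ (mem_univ (0 : F)), zero_mul, AddChar.map_zero_eq_one] at h2
  push_cast at h2
  linear_combination h2

lemma Kl_zero_right (ψ : AddChar F ℂ) (hψ : ψ.IsPrimitive) (b : F) (hb : b ≠ 0) : Kl ψ b 0 = -1 := by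
  unfold Pool.Agent.Helper916.Kl
  have h1 : ∑ z ∈ univ.erase (0 : F), ψ (b * z + 0 * z⁻¹) = ∑ z ∈ univ.erase (0 : F), ψ (z * b) := by
    refine sum_congr rfl fun z _ => ?_
    congr 1
    ring
  rw [h1]
  have h2 := AddChar.sum_mulShift b hψ
  rw [if_neg hb, ← add_sum_erase _ _ (mem_univ (0 : F)), zero_mul, AddChar.map_zero_eq_one] at h2
  push_cast at h2
  linear_combination h2

lemma card_U : (((univ.erase (0 : F)).card : ℕ) : ℂ) = (Fintype.card F : ℂ) - 1 := by
  rw [card_erase_of_mem (mem_univ _), card_univ, Nat.cast_sub Fintype.card_pos]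
  simp

lemma Kl_zero_zero (ψ : AddChar F ℂ) : Kl ψ 0 0 = (Fintype.card F : ℂ) - 1 := by
  unfold Pool.Agent.Helper916.Kl
  simp only [zero_mul, add_zero, AddChar.map_zero_eq_one, sum_const, nsmul_eq_mul, mul_one]
  exact card_U

/-- the moments of the sums `Kl(a, 1)` -/
theorem moment_formula (ψ : AddChar F ℂ) (hψ : ψ.IsPrimitive) (k : ℕ) :
    ((Fintype.card F : ℂ) - 1) * ∑ a : F, Kl ψ a 1 ^ k =
      (Fintype.card F : ℂ) ^ 2 * ((sol F k).card : ℂ) - ((Fintype.card F : ℂ) - 1) ^ k -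
        ((Fintype.card F : ℂ) - 1) * (-1) ^ k := by
  rw [← double_sum ψ hψ k]
  have h1 : ∑ a : F, Kl ψ a 1 ^ k = (-1) ^ k + ∑ a ∈ univ.erase (0 : F), Kl ψ a 1 ^ k := by
    rw [← add_sum_erase _ _ (mem_univ (0 : F)), Kl_zero_left ψ hψ 1 one_ne_zero]
  have h2 : ∑ b : F, ∑ c : F, Kl ψ b c ^ k = (((Fintype.card F : ℂ) - 1) ^ k + ((Fintype.card F : ℂ) - 1) * (-1) ^ k) +
      ((Fintype.card F : ℂ) - 1) * ((-1) ^ k + ∑ a ∈ univ.erase (0 : F), Kl ψ a 1 ^ k) := by
    rw [← add_sum_erase _ _ (mem_univ (0 : F))]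
    congr 1
    · rw [← add_sum_erase _ _ (mem_univ (0 : F)), Kl_zero_zero]
      congr 1
      have h3 : ∀ c ∈ univ.erase (0 : F), Kl ψ 0 c ^ k = (-1) ^ k := by
        intro c hc
        rw [Kl_zero_left ψ hψ c (mem_erase.1 hc).1]
      rw [sum_congr rfl h3, sum_const, nsmul_eq_mul, card_U]
    · have h3 : ∀ b ∈ univ.erase (0 : F), ∑ c : F, Kl ψ b c ^ k = (-1) ^ k + ∑ a ∈ univ.erase (0 : F), Kl ψ a 1 ^ k := by
        intro b hb
        have hb0 := (mem_erase.1 hb).1
        rw [← add_sum_erase _ _ (mem_univ (0 : F)), Kl_zero_right ψ hψ b hb0]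
        congr 1
        refine sum_nbij' (i := fun c => b * c) (j := fun a => b⁻¹ * a) ?_ ?_ ?_ ?_ ?_
        · intro c hc
          rw [mem_erase] at hc ⊢
          exact ⟨mul_ne_zero hb0 hc.1, mem_univ _⟩
        · intro a ha
          rw [mem_erase] at ha ⊢
          exact ⟨mul_ne_zero (inv_ne_zero hb0) ha.1, mem_univ _⟩
        · intro c _
          rw [← mul_assoc, inv_mul_cancel₀ hb0, one_mul]
        · intro a _
          rw [← mul_assoc, mul_inv_cancel₀ hb0, one_mul]
        · intro c hc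
          have hc0 := (mem_erase.1 hc).1
          rw [← Kl_dil ψ b c hc0, mul_inv_cancel₀ hc0]
      rw [sum_congr rfl h3, sum_const, nsmul_eq_mul, card_U]
  rw [h1, h2]
  ring

/-! ### the numbers of solutions -/

lemma sol_one : (sol F 1).card = 0 := by
  rw [card_eq_zero, eq_empty_iff_forall_notMem]
  intro z hz
  rw [mem_sol] at hz
  have := hz.2.1
  rw [Fin.sum_univ_one] at this
  exact hz.1 0 this

lemma sol_two : (sol F 2).card = Fintype.card F - 1 := by
  have h1 : (univ.erase (0 : F)).card = Fintype.card F - 1 := by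
    rw [card_erase_of_mem (mem_univ _), card_univ]
  rw [← h1]
  symm
  refine card_nbij' (i := fun x => ![x, -x]) (j := fun z => z 0) ?_ ?_ ?_ ?_
  · intro x hx
    rw [mem_coe, mem_erase] at hx
    rw [mem_coe, mem_sol]
    refine ⟨?_, ?_, ?_⟩
    · intro i
      fin_cases i
      · exact hx.1
      · exact neg_ne_zero.2 hx.1
    · simp [Fin.sum_univ_two]
    · simp [Fin.sum_univ_two, inv_neg]
  · intro z hz
    rw [mem_coe, mem_sol] at hz
    rw [mem_coe, mem_erase]
    exact ⟨hz.1 0, mem_univ _⟩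
  · intro x _
    rfl
  · intro z hz
    rw [mem_coe, mem_sol, Fin.sum_univ_two] at hz
    funext i
    fin_cases i
    · rfl
    · show -z 0 = z 1
      linear_combination -hz.2.1

lemma sol_three : (sol F 3).card ≤ 2 * (Fintype.card F - 1) := by
  have h1 : (univ.erase (0 : F)).card = Fintype.card F - 1 := by
    rw [card_erase_of_mem (mem_univ _), card_univ]
  rw [← h1]
  refine card_le_mul_card_image_of_maps_to (f := fun z : Fin 3 → F => z 0) ?_ 2 ?_
  · intro z hz
    rw [mem_sol] at hz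
    rw [mem_erase]
    exact ⟨hz.1 0, mem_univ _⟩
  · intro x hx
    rcases ((sol F 3).filter fun z => z 0 = x).eq_empty_or_nonempty with he | ⟨w, hw⟩
    · rw [he]
      simp
    · refine (card_le_card (t := {![x, w 1, w 2], ![x, w 2, w 1]}) ?_).trans card_le_two
      intro z hz
      rw [mem_filter, mem_sol, Fin.sum_univ_three, Fin.sum_univ_three] at hz hw
      obtain ⟨⟨hz0, hz1, hz2⟩, hz3⟩ := hz
      obtain ⟨⟨hw0, hw1, hw2⟩, hw3⟩ := hw
      have hx0 : x ≠ 0 := (mem_erase.1 hx).1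
      have a1 := hz0 1
      have a2 := hz0 2
      have b1 := hw0 1
      have b2 := hw0 2
      rw [hz3] at hz1 hz2
      rw [hw3] at hw1 hw2
      field_simp at hz2 hw2
      have ez : z 1 * z 2 = x ^ 2 := by
        linear_combination hz2 - x * hz1
      have ew : w 1 * w 2 = x ^ 2 := by
        linear_combination hw2 - x * hw1
      have h2 : (z 1 - w 1) * (z 1 - w 2) = 0 := by
        linear_combination z 1 * hz1 - z 1 * hw1 - ez + ew
      rw [mem_insert, mem_singleton]
      rcases mul_eq_zero.1 h2 with h3 | h3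
      · left
        funext i
        fin_cases i
        · exact hz3
        · exact sub_eq_zero.1 h3
        · show z 2 = w 2
          linear_combination hz1 - hw1 - h3
      · right
        funext i
        fin_cases i
        · exact hz3
        · exact sub_eq_zero.1 h3
        · show z 2 = w 1
          linear_combination hz1 - hw1 - h3

lemma sol_four_le : ((sol F 4).card : ℝ) ≤ 3 * ((Fintype.card F : ℝ) - 1) ^ 2 := by
  refine le_trans ?_ (kl_count (F := F))
  have h1 : (sol F 4).card ≤ ∑ π ∈ (univ.erase (0 : F)) ×ˢ (univ.erase (0 : F)),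
      (((univ.erase (0 : F)) ×ˢ (univ.erase (0 : F))).filter
        (fun π' => π.1 + π.2 = π'.1 + π'.2 ∧ π.1⁻¹ + π.2⁻¹ = π'.1⁻¹ + π'.2⁻¹)).card := by
    rw [← card_sigma]
    refine card_le_card_of_injOn (fun z => ⟨(z 0, z 1), (-z 2, -z 3)⟩) ?_ ?_
    · intro z hz
      rw [mem_coe, mem_sol, Fin.sum_univ_four, Fin.sum_univ_four] at hz
      obtain ⟨h0, h1, h2⟩ := hz
      rw [mem_coe, mem_sigma, mem_product, mem_filter, mem_product]
      simp only [mem_erase, mem_univ, and_true, ne_eq, neg_eq_zero]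
      refine ⟨⟨h0 0, h0 1⟩, ⟨h0 2, h0 3⟩, ?_, ?_⟩
      · linear_combination h1
      · rw [inv_neg, inv_neg]
        linear_combination h2
    · intro z _ w _ h
      simp only [Sigma.mk.injEq, Prod.mk.injEq, heq_eq_eq, neg_inj] at h
      obtain ⟨⟨h1, h2⟩, h3, h4⟩ := h
      funext i
      fin_cases i
      · exact h1
      · exact h2
      · exact h3
      · exact h4
  exact_mod_cast h1

lemma sol_four_ge : 3 * ((Fintype.card F : ℝ) - 1) ^ 2 - 3 * ((Fintype.card F : ℝ) - 1) ≤ ((sol F 4).card : ℝ) := by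
  obtain ⟨U, hU⟩ : ∃ U : Finset F, U = univ.erase (0 : F) := ⟨_, rfl⟩
  have hUc : (U.card : ℝ) = (Fintype.card F : ℝ) - 1 := by
    rw [hU, card_erase_of_mem (mem_univ _), card_univ, Nat.cast_sub Fintype.card_pos]
    simp
  have hmU : ∀ x, x ∈ U ↔ x ≠ 0 := by
    intro x
    rw [hU, mem_erase]
    simp
  rw [← hUc]
  obtain ⟨A, hA⟩ : ∃ A : Finset (Fin 4 → F), A = (U ×ˢ U).image fun x => ![x.1, x.2, -x.1, -x.2] := ⟨_, rfl⟩
  obtain ⟨B, hB⟩ : ∃ B : Finset (Fin 4 → F), B = (U ×ˢ U).image fun x => ![x.1, x.2, -x.2, -x.1] := ⟨_, rfl⟩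
  obtain ⟨C, hC⟩ : ∃ C : Finset (Fin 4 → F), C = (U ×ˢ U).image fun x => ![x.1, -x.1, x.2, -x.2] := ⟨_, rfl⟩
  have cA : A.card = U.card ^ 2 := by
    rw [hA, card_image_of_injOn, card_product, sq]
    intro x _ y _ h
    have h0 := congrFun h 0
    have h1 := congrFun h 1
    exact Prod.ext h0 h1
  have cB : B.card = U.card ^ 2 := by
    rw [hB, card_image_of_injOn, card_product, sq]
    intro x _ y _ h
    have h0 := congrFun h 0
    have h1 := congrFun h 1
    exact Prod.ext h0 h1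
  have cC : C.card = U.card ^ 2 := by
    rw [hC, card_image_of_injOn, card_product, sq]
    intro x _ y _ h
    have h0 := congrFun h 0
    have h1 := congrFun h 2
    exact Prod.ext h0 h1
  have memA : ∀ z, z ∈ A → (z 0 ≠ 0 ∧ z 1 ≠ 0 ∧ z 2 = -z 0 ∧ z 3 = -z 1) := by
    intro z hz
    rw [hA, mem_image] at hz
    obtain ⟨x, hx, rfl⟩ := hz
    rw [mem_product, hmU, hmU] at hx
    exact ⟨hx.1, hx.2, rfl, rfl⟩
  have memB : ∀ z, z ∈ B → (z 0 ≠ 0 ∧ z 1 ≠ 0 ∧ z 2 = -z 1 ∧ z 3 = -z 0) := by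
    intro z hz
    rw [hB, mem_image] at hz
    obtain ⟨x, hx, rfl⟩ := hz
    rw [mem_product, hmU, hmU] at hx
    exact ⟨hx.1, hx.2, rfl, rfl⟩
  have memC : ∀ z, z ∈ C → (z 0 ≠ 0 ∧ z 2 ≠ 0 ∧ z 1 = -z 0 ∧ z 3 = -z 2) := by
    intro z hz
    rw [hC, mem_image] at hz
    obtain ⟨x, hx, rfl⟩ := hz
    rw [mem_product, hmU, hmU] at hx
    exact ⟨hx.1, hx.2, rfl, rfl⟩
  have sA : A ⊆ sol F 4 := by
    intro z hz
    obtain ⟨h0, h1, h2, h3⟩ := memA z hz
    rw [mem_sol, Fin.sum_univ_four, Fin.sum_univ_four]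
    refine ⟨fun i => ?_, ?_, ?_⟩
    · fin_cases i
      · exact h0
      · exact h1
      · show z 2 ≠ 0
        rw [h2]
        exact neg_ne_zero.2 h0
      · show z 3 ≠ 0
        rw [h3]
        exact neg_ne_zero.2 h1
    · rw [h2, h3]
      ring
    · rw [h2, h3, inv_neg, inv_neg]
      ring
  have sB : B ⊆ sol F 4 := by
    intro z hz
    obtain ⟨h0, h1, h2, h3⟩ := memB z hz
    rw [mem_sol, Fin.sum_univ_four, Fin.sum_univ_four]
    refine ⟨fun i => ?_, ?_, ?_⟩
    · fin_cases i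
      · exact h0
      · exact h1
      · show z 2 ≠ 0
        rw [h2]
        exact neg_ne_zero.2 h1
      · show z 3 ≠ 0
        rw [h3]
        exact neg_ne_zero.2 h0
    · rw [h2, h3]
      ring
    · rw [h2, h3, inv_neg, inv_neg]
      ring
  have sC : C ⊆ sol F 4 := by
    intro z hz
    obtain ⟨h0, h1, h2, h3⟩ := memC z hz
    rw [mem_sol, Fin.sum_univ_four, Fin.sum_univ_four]
    refine ⟨fun i => ?_, ?_, ?_⟩
    · fin_cases i
      · exact h0
      · show z 1 ≠ 0
        rw [h2]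
        exact neg_ne_zero.2 h0
      · exact h1
      · show z 3 ≠ 0
        rw [h3]
        exact neg_ne_zero.2 h1
    · rw [h2, h3]
      ring
    · rw [h2, h3, inv_neg, inv_neg]
      ring
  have cAB : (A ∩ B).card ≤ U.card := by
    refine card_le_card_of_injOn (fun z => z 0) ?_ ?_
    · intro z hz
      rw [mem_coe, mem_inter] at hz
      rw [mem_coe, hmU]
      exact (memA z hz.1).1
    · intro z hz w hw h
      rw [mem_coe, mem_inter] at hz hw
      obtain ⟨z0, z1, z2, z3⟩ := memA z hz.1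
      obtain ⟨_, _, z5, z6⟩ := memB z hz.2
      obtain ⟨w0, w1, w2, w3⟩ := memA w hw.1
      obtain ⟨_, _, w5, w6⟩ := memB w hw.2
      have h' : z 0 = w 0 := h
      have hz1 : z 1 = z 0 := by
        rw [z5] at z2
        exact neg_inj.1 z2
      have hw1 : w 1 = w 0 := by
        rw [w5] at w2
        exact neg_inj.1 w2
      funext i
      fin_cases i
      · exact h'
      · show z 1 = w 1
        rw [hz1, hw1, h']
      · show z 2 = w 2
        rw [z2, w2, h']
      · show z 3 = w 3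
        rw [z3, w3, hz1, hw1, h']
  have cABC : ((A ∪ B) ∩ C).card ≤ U.card + U.card := by
    rw [union_inter_distrib_right]
    refine (card_union_le _ _).trans (add_le_add ?_ ?_)
    · refine card_le_card_of_injOn (fun z => z 0) ?_ ?_
      · intro z hz
        rw [mem_coe, mem_inter] at hz
        rw [mem_coe, hmU]
        exact (memA z hz.1).1
      · intro z hz w hw h
        rw [mem_coe, mem_inter] at hz hw
        obtain ⟨z0, z1, z2, z3⟩ := memA z hz.1
        obtain ⟨_, _, z5, z6⟩ := memC z hz.2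
        obtain ⟨w0, w1, w2, w3⟩ := memA w hw.1
        obtain ⟨_, _, w5, w6⟩ := memC w hw.2
        have h' : z 0 = w 0 := h
        funext i
        fin_cases i
        · exact h'
        · show z 1 = w 1
          rw [z5, w5, h']
        · show z 2 = w 2
          rw [z2, w2, h']
        · show z 3 = w 3
          rw [z3, w3, z5, w5, h']
    · refine card_le_card_of_injOn (fun z => z 0) ?_ ?_
      · intro z hz
        rw [mem_coe, mem_inter] at hz
        rw [mem_coe, hmU]
        exact (memB z hz.1).1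
      · intro z hz w hw h
        rw [mem_coe, mem_inter] at hz hw
        obtain ⟨z0, z1, z2, z3⟩ := memB z hz.1
        obtain ⟨_, _, z5, z6⟩ := memC z hz.2
        obtain ⟨w0, w1, w2, w3⟩ := memB w hw.1
        obtain ⟨_, _, w5, w6⟩ := memC w hw.2
        have h' : z 0 = w 0 := h
        funext i
        fin_cases i
        · exact h'
        · show z 1 = w 1
          rw [z5, w5, h']
        · show z 2 = w 2
          rw [z2, w2, z5, w5, h']
        · show z 3 = w 3
          rw [z3, w3, h']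
  have h1 := card_union_add_card_inter A B
  have h2 := card_union_add_card_inter (A ∪ B) C
  have h3 : ((A ∪ B) ∪ C).card ≤ (sol F 4).card := card_le_card (union_subset (union_subset sA sB) sC)
  rw [cA, cB] at h1
  rw [cC] at h2
  have h4 : 3 * U.card ^ 2 ≤ (sol F 4).card + 3 * U.card := by omega
  have h5 : 3 * (U.card : ℝ) ^ 2 ≤ (sol F 4).card + 3 * (U.card : ℝ) := by exact_mod_cast h4
  linarith

end Q282LT.KL
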