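import Pool.Agent.Q282.LT.KlSum
import Pool.Agent.Q282.LT.Phi

/-!
# The normal law for the first two Weyl sums of Kloosterman angles
-/

set_option autoImplicit false
set_option linter.unusedSectionVars false

namespace Q282LT

open Finset
open Q282MM (Phi)

/-! ### one variable -/

lemma avg_one (q : ℕ) (g : ℤ → ℝ) : avg 1 q (fun ν => g (ν 0)) = (∑ a ∈ range q, g (a : ℤ)) / (q : ℝ) := by
  unfold avg
  rw [pow_one]
  congr 1
  refine sum_nbij' (i := fun ν => ν 0) (j := fun a _ => a) ?_ ?_ ?_ ?_ ?_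
  · intro ν hν
    rw [Fintype.mem_piFinset] at hν
    exact hν 0
  · intro a ha
    rw [Fintype.mem_piFinset]
    exact fun _ => ha
  · intro ν _
    funext i
    rw [Subsingleton.elim i 0]
  · intro a _
    rfl
  · intro ν _
    rfl

lemma zbox_one (M : ℤ) (N : ℕ) (P : ℤ → Prop) [DecidablePred P] :
    ((zbox (fun _ : Fin 1 => M) (fun _ : Fin 1 => N)).filter fun ν => P (ν 0)).card = ((Ico M (M + N)).filter P).card := by
  refine card_nbij' (i := fun ν => ν 0) (j := fun a _ => a) ?_ ?_ ?_ ?_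
  · intro ν hν
    rw [mem_coe, mem_filter, mem_zbox] at hν
    rw [mem_coe, mem_filter, mem_Ico]
    exact ⟨hν.1 0, hν.2⟩
  · intro a ha
    rw [mem_coe, mem_filter, mem_Ico] at ha
    rw [mem_coe, mem_filter, mem_zbox]
    exact ⟨fun _ => ha.1, ha.2⟩
  · intro ν _
    funext i
    rw [Subsingleton.elim i 0]
  · intro a _
    rfl

/-- a law for a linear function of the sum, normalized with approximate mean and variance -/
lemma approx_law (ε : ℝ) (hε : 0 < ε) : ∃ δ : ℝ, 0 < δ ∧ δ ≤ 1 / 2 ∧ ∀ (Pr : ℝ → ℝ) (ε₁ M W V c : ℝ), 0 < V → 0 < c →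
    (∀ y, |Pr (M + y * Real.sqrt W) - Phi y| ≤ ε₁) → |c ^ 2 * W - V| ≤ δ * V → c * |M| ≤ δ * Real.sqrt V →
    ∀ y, |Pr (y * Real.sqrt V / c) - Phi y| ≤ ε₁ + ε := by
  obtain ⟨δ, hδ, hδ1, h⟩ := Phi_affine ε hε
  refine ⟨δ / 4, by positivity, by linarith, fun Pr ε₁ M W V c hV hc hPr hW hM y => ?_⟩
  have hsV : 0 < Real.sqrt V := Real.sqrt_pos.2 hV
  have hW' := abs_le.1 hW
  have hcW : V / 2 ≤ c ^ 2 * W := by nlinarith
  have hW0 : 0 < W := by
    by_contra hcon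
    push Not at hcon
    have : c ^ 2 * W ≤ 0 := mul_nonpos_of_nonneg_of_nonpos (sq_nonneg c) hcon
    linarith
  have hsW : 0 < Real.sqrt W := Real.sqrt_pos.2 hW0
  obtain ⟨a, ha⟩ : ∃ a : ℝ, a = Real.sqrt V / (c * Real.sqrt W) := ⟨_, rfl⟩
  obtain ⟨b, hb⟩ : ∃ b : ℝ, b = -(M / Real.sqrt W) := ⟨_, rfl⟩
  have h1 := hPr (a * y + b)
  have h2 : M + (a * y + b) * Real.sqrt W = y * Real.sqrt V / c := by
    rw [ha, hb]
    field_simp
    ring
  rw [h2] at h1
  have ha0 : 0 < a := by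
    rw [ha]
    positivity
  have ha2 : a ^ 2 * (c ^ 2 * W) = V := by
    rw [ha, div_pow, mul_pow, Real.sq_sqrt hV.le, Real.sq_sqrt hW0.le]
    field_simp
  have ha3 : |a - 1| ≤ δ := by
    have h3 : |a - 1| ≤ |a ^ 2 - 1| := by
      have h4 : a ^ 2 - 1 = (a - 1) * (a + 1) := by ring
      rw [h4, abs_mul]
      refine le_mul_of_one_le_right (abs_nonneg _) ?_
      rw [abs_of_pos (by linarith)]
      linarith
    refine h3.trans ?_
    have h4 : (a ^ 2 - 1) * (c ^ 2 * W) = V - c ^ 2 * W := by linarith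
    have h5 : |a ^ 2 - 1| * (c ^ 2 * W) ≤ δ / 4 * V := by
      have e : |a ^ 2 - 1| * (c ^ 2 * W) = |(a ^ 2 - 1) * (c ^ 2 * W)| := by
        rw [abs_mul (a ^ 2 - 1), abs_of_pos (by linarith : 0 < c ^ 2 * W)]
      rw [e, h4, abs_sub_comm]
      exact hW
    have h6 : |a ^ 2 - 1| * (V / 2) ≤ δ / 4 * V := (mul_le_mul_of_nonneg_left hcW (abs_nonneg _)).trans h5
    nlinarith [abs_nonneg (a ^ 2 - 1)]
  have hb3 : |b| ≤ δ := by
    rw [hb, abs_neg, abs_div, abs_of_pos hsW, div_le_iff₀ hsW]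
    have h4 : Real.sqrt V ≤ 2 * (c * Real.sqrt W) := by
      rw [← Real.sqrt_sq (by positivity : 0 ≤ 2 * (c * Real.sqrt W))]
      refine Real.sqrt_le_sqrt ?_
      rw [mul_pow, mul_pow, Real.sq_sqrt hW0.le]
      linarith
    have h5 : c * |M| ≤ c * (δ * Real.sqrt W) := by
      refine hM.trans ?_
      calc δ / 4 * Real.sqrt V ≤ δ / 4 * (2 * (c * Real.sqrt W)) := mul_le_mul_of_nonneg_left h4 (by positivity)
        _ = c * (δ * Real.sqrt W) / 2 := by ring
        _ ≤ _ := by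
          have : 0 ≤ c * (δ * Real.sqrt W) := by positivity
          linarith
    exact le_of_mul_le_mul_left h5 hc
  have h7 := h a b y ha3 hb3
  calc |Pr (y * Real.sqrt V / c) - Phi y| = |(Pr (y * Real.sqrt V / c) - Phi (a * y + b)) + (Phi (a * y + b) - Phi y)| := by ring_nf
    _ ≤ _ := (abs_add_le _ _).trans (add_le_add h1 h7)

namespace KL

/-- the cosine of the Kloosterman angle -/
noncomputable def cosAngle (a : ℤ) (p : ℕ) : ℝ := S a p / (2 * Real.sqrt p)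

/-- the summand -/
noncomputable def term (u v : ℕ → ℝ) (a : ℤ) (p : ℕ) : ℝ :=
  u p * (2 * cosAngle a p) + v p * (4 * cosAngle a p ^ 2 - 1)

lemma term_eq (u v : ℕ → ℝ) (a : ℤ) (p : ℕ) [Fact p.Prime] :
    term u v a p = u p * (S a p / Real.sqrt p) + v p * (S a p ^ 2 / p - 1) := by
  have hp := p_gt p
  have hs : 0 < Real.sqrt p := Real.sqrt_pos.2 (by linarith)
  unfold term cosAngle
  rw [div_pow, mul_pow, Real.sq_sqrt (by linarith)]
  field_simp
  ring

lemma term_abs (u v : ℕ → ℝ) (hu : ∀ p, |u p| ≤ 1) (hv : ∀ p, |v p| ≤ 1) (a : ℤ) (p : ℕ) [Fact p.Prime] :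
    |term u v a p| ≤ 5 := by
  have hp := p_gt p
  have hs : 0 < Real.sqrt p := Real.sqrt_pos.2 (by linarith)
  have h1 : |2 * cosAngle a p| ≤ 2 := by
    unfold cosAngle
    have h2 : 2 * (S a p / (2 * Real.sqrt p)) = S a p / Real.sqrt p := by field_simp
    rw [h2, abs_div, abs_of_pos hs, div_le_iff₀ hs]
    exact S_weil a p
  have h2 : |4 * cosAngle a p ^ 2 - 1| ≤ 3 := by
    have h3 : 4 * cosAngle a p ^ 2 = |2 * cosAngle a p| ^ 2 := by
      rw [sq_abs]
      ring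
    rw [h3, abs_le]
    constructor <;> nlinarith [abs_nonneg (2 * cosAngle a p)]
  unfold term
  refine (abs_add_le _ _).trans ?_
  rw [abs_mul (u p), abs_mul (v p)]
  have h3 := mul_le_mul (hu p) h1 (abs_nonneg _) zero_le_one
  have h4 := mul_le_mul (hv p) h2 (abs_nonneg _) zero_le_one
  linarith

lemma term_congr (u v : ℕ → ℝ) {a a' : ℤ} (p : ℕ) (h : (p : ℤ) ∣ a - a') : term u v a p = term u v a' p := by
  unfold term cosAngle
  rw [S_congr p h]

lemma mean_term (u v : ℕ → ℝ) (p : ℕ) [Fact p.Prime] :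
    (∑ a ∈ range p, term u v (a : ℤ) p) / (p : ℝ) = -(v p / p) := by
  have hp := p_gt p
  have hs : 0 < Real.sqrt p := Real.sqrt_pos.2 (by linarith)
  have hp0 : (p : ℝ) ≠ 0 := by linarith
  have h1 : ∑ a ∈ range p, term u v (a : ℤ) p = u p / Real.sqrt p * AA 1 p + v p * (AA 2 p / p - p) := by
    unfold AA
    rw [mul_sum, sum_div, mul_sub, mul_sum]
    have h2 : v p * (p : ℝ) = ∑ _a ∈ range p, v p := by
      rw [sum_const, card_range, nsmul_eq_mul, mul_comm]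
    rw [h2, ← sum_sub_distrib, ← sum_add_distrib]
    refine sum_congr rfl fun a _ => ?_
    rw [term_eq, pow_one]
    ring
  rw [h1, AA_one, AA_two]
  field_simp
  ring

lemma sq_term (u v : ℕ → ℝ) (p : ℕ) [Fact p.Prime] :
    |(∑ a ∈ range p, term u v (a : ℤ) p ^ 2) / (p : ℝ) - (v p / p) ^ 2 - (u p ^ 2 + v p ^ 2)| ≤
      12 * (u p ^ 2 + v p ^ 2) / Real.sqrt p := by
  have hp := p_gt p
  have hs : 0 < Real.sqrt p := Real.sqrt_pos.2 (by linarith)
  have hs1 : 1 ≤ Real.sqrt p := Real.one_le_sqrt.2 (by linarith)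
  have hss : Real.sqrt p ^ 2 = p := Real.sq_sqrt (by linarith)
  have hp0 : (p : ℝ) ≠ 0 := by linarith
  obtain ⟨s, hsd⟩ : ∃ s : ℝ, s = Real.sqrt p := ⟨_, rfl⟩
  obtain ⟨U, hU⟩ : ∃ U : ℝ, U = u p := ⟨_, rfl⟩
  obtain ⟨V, hV⟩ : ∃ V : ℝ, V = v p := ⟨_, rfl⟩
  have h1 : ∑ a ∈ range p, term u v (a : ℤ) p ^ 2 =
      U ^ 2 / p * AA 2 p + 2 * U * V / s * (AA 3 p / p - AA 1 p) + V ^ 2 * (AA 4 p / p ^ 2 - 2 * AA 2 p / p + p) := by
    have h2 : V ^ 2 * (p : ℝ) = ∑ _a ∈ range p, V ^ 2 := by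
      rw [sum_const, card_range, nsmul_eq_mul, mul_comm]
    rw [mul_add (V ^ 2), h2]
    unfold AA
    rw [mul_sub (V ^ 2), mul_sum, sum_div, sum_div, ← sum_sub_distrib, mul_sum, mul_sum, mul_sum (range p) _ 2, sum_div, mul_sum,
      ← sum_sub_distrib, ← sum_add_distrib, ← sum_add_distrib, ← sum_add_distrib]
    refine sum_congr rfl fun a _ => ?_
    rw [term_eq, ← hU, ← hV, ← hsd]
    have : s ≠ 0 := by
      rw [hsd]
      exact hs.ne'
    have hs2 : s ^ 2 = p := by rw [hsd, hss]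
    rw [← hs2]
    field_simp
    ring
  have h3 := AA_three p
  have h4 := AA_four p
  rw [h1, AA_one, AA_two]
  obtain ⟨X, hX⟩ : ∃ X : ℝ, X = AA 3 p / p ^ 2 := ⟨_, rfl⟩
  obtain ⟨Y, hY⟩ : ∃ Y : ℝ, Y = (AA 4 p - 2 * (p : ℝ) ^ 3) / p ^ 2 := ⟨_, rfl⟩
  have hX1 : |X| ≤ 2 := by
    rw [hX, abs_div, abs_of_pos (by positivity : (0 : ℝ) < (p : ℝ) ^ 2), div_le_iff₀ (by positivity)]
    exact h3
  have hY1 : |Y| ≤ 6 := by
    rw [hY, abs_div, abs_of_pos (by positivity : (0 : ℝ) < (p : ℝ) ^ 2), div_le_iff₀ (by positivity)]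
    exact h4
  have h5 : (U ^ 2 / p * ((p : ℝ) ^ 2 - p) + 2 * U * V / s * (AA 3 p / p - 0) +
      V ^ 2 * (AA 4 p / p ^ 2 - 2 * ((p : ℝ) ^ 2 - p) / p + p)) / (p : ℝ) - (V / p) ^ 2 - (U ^ 2 + V ^ 2) =
      (-(U ^ 2) / s + 2 * U * V * X + V ^ 2 * (Y + 2) / s - V ^ 2 / (s * p)) / s := by
    have : s ≠ 0 := by
      rw [hsd]
      exact hs.ne'
    have hs2 : s ^ 2 = p := by rw [hsd, hss]
    have hs4 : (p : ℝ) = s ^ 2 := hs2.symm
    rw [hX, hY, hs4]
    field_simp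
    ring
  rw [← hU, ← hV, ← hsd] 
  rw [h5, abs_div, abs_of_pos (by rw [hsd]; exact hs : 0 < s)]
  refine div_le_div_of_nonneg_right ?_ (by rw [hsd]; exact hs.le)
  have hs1' : 1 ≤ s := by rw [hsd]; exact hs1
  have hp1 : 1 ≤ s * p := by nlinarith
  have e1 : |-(U ^ 2) / s| ≤ U ^ 2 := by
    rw [abs_div, abs_neg, abs_of_nonneg (sq_nonneg U), abs_of_pos (by linarith : 0 < s)]
    exact div_le_self (sq_nonneg U) hs1'
  have e2 : |2 * U * V * X| ≤ (U ^ 2 + V ^ 2) * 2 := by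
    rw [abs_mul]
    refine mul_le_mul ?_ hX1 (abs_nonneg _) (by positivity)
    rw [abs_le]
    constructor
    · nlinarith [sq_nonneg (U + V)]
    · nlinarith [sq_nonneg (U - V)]
  have e3 : |V ^ 2 * (Y + 2) / s| ≤ V ^ 2 * 8 := by
    rw [abs_div, abs_of_pos (by linarith : 0 < s), abs_mul, abs_of_nonneg (sq_nonneg V)]
    have h6 : |Y + 2| ≤ 8 := by
      rw [abs_le] at hY1 ⊢
      constructor <;> linarith [hY1.1, hY1.2]
    calc V ^ 2 * |Y + 2| / s ≤ V ^ 2 * |Y + 2| := div_le_self (by positivity) hs1'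
      _ ≤ V ^ 2 * 8 := mul_le_mul_of_nonneg_left h6 (sq_nonneg V)
  have e4 : |V ^ 2 / (s * p)| ≤ V ^ 2 := by
    rw [abs_div, abs_of_nonneg (sq_nonneg V), abs_of_pos (by linarith : 0 < s * p)]
    exact div_le_self (sq_nonneg V) hp1
  have f1 := abs_le.1 e1
  have f2 := abs_le.1 e2
  have f3 := abs_le.1 e3
  have f4 := abs_le.1 e4
  have hU2 := sq_nonneg U
  have hV2 := sq_nonneg V
  rw [abs_le]
  constructor
  · linarith [f1.1, f2.1, f3.1, f4.2]
  · linarith [f1.2, f2.2, f3.2, f4.1]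

/-- the sum over the primes -/
noncomputable def total (u v : ℕ → ℝ) (x : ℕ) (a : ℤ) : ℝ := ∑ p ∈ (range (x + 1)).filter Nat.Prime, term u v a p

/-- The normal law for the first two Weyl sums. -/
theorem kl_law (ε : ℝ) (hε : 0 < ε) : ∃ (V₀ C₀ : ℝ) (K : ℕ), 0 < V₀ ∧ 0 < C₀ ∧
    ∀ u v : ℕ → ℝ, (∀ p, |u p| ≤ 1) → (∀ p, |v p| ≤ 1) → ∀ x : ℕ,
      V₀ ≤ ∑ p ∈ (range (x + 1)).filter Nat.Prime, (u p ^ 2 + v p ^ 2) → ∀ (M : ℤ) (N : ℕ), C₀ * (x : ℝ) ^ K ≤ N →
      ∀ y : ℝ, |(((Ico M (M + N)).filter fun a => total u v x a ≤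
        y * Real.sqrt (∑ p ∈ (range (x + 1)).filter Nat.Prime, (u p ^ 2 + v p ^ 2))).card : ℝ) / (N : ℝ) - Phi y| ≤ ε := by
  classical
  obtain ⟨δ, hδ, hδ1, happ⟩ := approx_law (ε / 2) (by positivity)
  obtain ⟨V₁, C₁, A, hV₁, hC₁, hg⟩ := gauss_z (ε / 2) (by positivity)
  -- the threshold for the primes
  obtain ⟨P, hP⟩ := exists_nat_ge ((24 / δ) ^ 2 + 1)
  have hP1 : (1 : ℝ) ≤ P := by
    have : 0 ≤ (24 / δ) ^ 2 := sq_nonneg _
    linarith
  have hP0 : (0 : ℝ) < P := by linarith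
  have hsP : 24 / δ ≤ Real.sqrt P := Real.le_sqrt_of_sq_le (by linarith)
  have hsP0 : 0 < Real.sqrt P := Real.sqrt_pos.2 hP0
  have hsP1 : 12 / Real.sqrt P ≤ δ / 2 := by
    rw [div_le_iff₀ hsP0]
    have h1 := mul_le_mul_of_nonneg_left hsP hδ.le
    have h2 : δ * (24 / δ) = 24 := by field_simp
    rw [h2] at h1
    linarith
  have hsP2 : 1 / Real.sqrt P ≤ δ / 2 := by
    refine le_trans ?_ hsP1
    exact div_le_div_of_nonneg_right (by norm_num) hsP0.le
  refine ⟨50 * V₁ + (50 * P / δ) ^ 2 + 50 * P / δ + 1, 2 * C₁, A, by positivity, by positivity, ?_⟩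
  intro u v hu hv x hV M N hN y
  obtain ⟨I, hI⟩ : ∃ I : Finset ℕ, I = (range (x + 1)).filter Nat.Prime := ⟨_, rfl⟩
  have hIp : ∀ p ∈ I, p.Prime ∧ p ≤ x := by
    intro p hp
    rw [hI, mem_filter, mem_range] at hp
    exact ⟨hp.2, by omega⟩
  rw [← hI] at hV ⊢
  obtain ⟨V, hVd⟩ : ∃ V : ℝ, V = ∑ p ∈ I, (u p ^ 2 + v p ^ 2) := ⟨_, rfl⟩
  rw [← hVd] at hV ⊢
  have hP50 : 0 ≤ 50 * (P : ℝ) / δ := by positivity
  have hV1 : 1 ≤ V := by nlinarith [sq_nonneg (50 * (P : ℝ) / δ)]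
  have hV0 : 0 < V := by linarith
  have hsV : 0 < Real.sqrt V := Real.sqrt_pos.2 hV0
  have hVP : 50 * (P : ℝ) ≤ δ * V := by
    have h1 : 50 * (P : ℝ) / δ ≤ V := by nlinarith [sq_nonneg (50 * (P : ℝ) / δ)]
    rw [div_le_iff₀ hδ] at h1
    linarith
  have hsVP : 50 * (P : ℝ) ≤ δ * Real.sqrt V := by
    have h1 : 50 * (P : ℝ) / δ ≤ Real.sqrt V := Real.le_sqrt_of_sq_le (by nlinarith)
    rw [div_le_iff₀ hδ] at h1
    linarith
  have hterm : ∀ p ∈ I, 0 ≤ u p ^ 2 + v p ^ 2 ∧ u p ^ 2 + v p ^ 2 ≤ 2 := by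
    intro p _
    have h1 : u p ^ 2 ≤ 1 := by
      rw [← sq_abs]
      exact pow_le_one₀ (abs_nonneg _) (hu p)
    have h2 : v p ^ 2 ≤ 1 := by
      rw [← sq_abs]
      exact pow_le_one₀ (abs_nonneg _) (hv p)
    constructor
    · positivity
    · linarith
  -- the functions
  obtain ⟨f, hf⟩ : ∃ f : ℕ → (Fin 1 → ℤ) → ℝ, f = fun p ν => term u v (ν 0) p / 5 := ⟨_, rfl⟩
  have hE1 : ∀ p ∈ I, avg 1 p (f p) = -(v p / p) / 5 := by
    intro p hp
    have : Fact p.Prime := ⟨(hIp p hp).1⟩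
    rw [hf]
    have h1 := avg_one p (fun a => term u v a p / 5)
    simp only at h1 ⊢
    rw [h1, ← sum_div, div_right_comm, mean_term]
  have hE2 : ∀ p ∈ I, avg 1 p (fun ν => f p ν ^ 2) = (∑ a ∈ range p, term u v (a : ℤ) p ^ 2) / (p : ℝ) / 25 := by
    intro p hp
    rw [hf]
    have h1 := avg_one p (fun a => (term u v a p / 5) ^ 2)
    simp only at h1 ⊢
    rw [h1]
    have h2 : ∑ a ∈ range p, (term u v (a : ℤ) p / 5) ^ 2 = (∑ a ∈ range p, term u v (a : ℤ) p ^ 2) / 25 := by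
      rw [sum_div]
      refine sum_congr rfl fun a _ => ?_
      ring
    rw [h2, div_right_comm]
  obtain ⟨W, hW⟩ : ∃ W : ℝ, W = ∑ p ∈ I, (avg 1 p (fun ν => f p ν ^ 2) - avg 1 p (f p) ^ 2) := ⟨_, rfl⟩
  obtain ⟨m, hm⟩ : ∃ m : ℝ, m = ∑ p ∈ I, avg 1 p (f p) := ⟨_, rfl⟩
  -- the variance
  have hWV : |(5 : ℝ) ^ 2 * W - V| ≤ δ * V := by
    rw [hW, hVd, mul_sum, ← sum_sub_distrib]
    refine (abs_sum_le_sum_abs _ _).trans ?_
    have h1 : ∀ p ∈ I, |(5 : ℝ) ^ 2 * (avg 1 p (fun ν => f p ν ^ 2) - avg 1 p (f p) ^ 2) - (u p ^ 2 + v p ^ 2)| ≤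
        (if p ≤ P then 24 else 0) + δ / 2 * (u p ^ 2 + v p ^ 2) := by
      intro p hp
      have : Fact p.Prime := ⟨(hIp p hp).1⟩
      have hp2 := p_gt p
      have h2 := sq_term u v p
      rw [hE1 p hp, hE2 p hp]
      have h3 : (5 : ℝ) ^ 2 * ((∑ a ∈ range p, term u v (a : ℤ) p ^ 2) / (p : ℝ) / 25 - (-(v p / p) / 5) ^ 2) - (u p ^ 2 + v p ^ 2) =
          (∑ a ∈ range p, term u v (a : ℤ) p ^ 2) / (p : ℝ) - (v p / p) ^ 2 - (u p ^ 2 + v p ^ 2) := by ring
      rw [h3]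
      refine h2.trans ?_
      obtain ⟨t0, t1⟩ := hterm p hp
      have hsp : 1 ≤ Real.sqrt p := Real.one_le_sqrt.2 (by linarith)
      by_cases hpP : p ≤ P
      · rw [if_pos hpP]
        have h4 : 12 * (u p ^ 2 + v p ^ 2) / Real.sqrt p ≤ 12 * (u p ^ 2 + v p ^ 2) := div_le_self (by positivity) hsp
        have h5 : 0 ≤ δ / 2 * (u p ^ 2 + v p ^ 2) := by positivity
        linarith
      · rw [if_neg hpP]
        push Not at hpP
        have h4 : Real.sqrt P ≤ Real.sqrt p := Real.sqrt_le_sqrt (by exact_mod_cast hpP.le)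
        have h5 : 12 / Real.sqrt p ≤ δ / 2 := (div_le_div_of_nonneg_left (by norm_num) hsP0 h4).trans hsP1
        calc 12 * (u p ^ 2 + v p ^ 2) / Real.sqrt p = 12 / Real.sqrt p * (u p ^ 2 + v p ^ 2) := by ring
          _ ≤ δ / 2 * (u p ^ 2 + v p ^ 2) := mul_le_mul_of_nonneg_right h5 t0
          _ = _ := by ring
    refine (sum_le_sum h1).trans ?_
    rw [sum_add_distrib, ← mul_sum, ← hVd]
    have h2 : ∑ p ∈ I, (if p ≤ P then (24 : ℝ) else 0) ≤ 24 * P := by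
      rw [← sum_filter, sum_const, nsmul_eq_mul, mul_comm]
      refine mul_le_mul_of_nonneg_left ?_ (by norm_num)
      have h3 : (I.filter fun p => p ≤ P).card ≤ (Icc 1 P).card := by
        refine card_le_card fun p hp => ?_
        rw [mem_filter] at hp
        rw [mem_Icc]
        exact ⟨(hIp p hp.1).1.one_lt.le, hp.2⟩
      rw [Nat.card_Icc, Nat.add_sub_cancel] at h3
      exact_mod_cast h3
    linarith
  -- the mean
  have hmV : 5 * |m| ≤ δ * Real.sqrt V := by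
    have h1 : 5 * |m| ≤ ∑ p ∈ I, |v p| / p := by
      have h2 : (5 : ℝ) * |m| = |∑ p ∈ I, -(v p / p)| := by
        rw [hm, ← abs_of_pos (by norm_num : (0 : ℝ) < 5), ← abs_mul, mul_sum]
        congr 1
        refine sum_congr rfl fun p hp => ?_
        rw [hE1 p hp]
        ring
      rw [h2]
      refine (abs_sum_le_sum_abs _ _).trans (sum_le_sum fun p _ => ?_)
      rw [abs_neg, abs_div, abs_of_nonneg (Nat.cast_nonneg p : (0 : ℝ) ≤ p)]
    have h3 : ∑ p ∈ I, |v p| / p = ∑ p ∈ I.filter (fun p => p ≤ P), |v p| / p + ∑ p ∈ I.filter (fun p => ¬ p ≤ P), |v p| / p :=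
      (sum_filter_add_sum_filter_not I (fun p => p ≤ P) _).symm
    have h4 : ∑ p ∈ I.filter (fun p => p ≤ P), |v p| / p ≤ P := by
      have h5 : ∀ p ∈ I.filter (fun p => p ≤ P), |v p| / p ≤ 1 := by
        intro p hp
        rw [mem_filter] at hp
        have : (1 : ℝ) ≤ p := by exact_mod_cast (hIp p hp.1).1.one_lt.le
        rw [div_le_one (by linarith)]
        exact (hv p).trans this
      refine (sum_le_sum h5).trans ?_
      rw [sum_const, nsmul_eq_mul, mul_one]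
      have h6 : (I.filter fun p => p ≤ P).card ≤ (Icc 1 P).card := by
        refine card_le_card fun p hp => ?_
        rw [mem_filter] at hp
        rw [mem_Icc]
        exact ⟨(hIp p hp.1).1.one_lt.le, hp.2⟩
      rw [Nat.card_Icc, Nat.add_sub_cancel] at h6
      exact_mod_cast h6
    have h5 : ∑ p ∈ I.filter (fun p => ¬ p ≤ P), |v p| / p ≤ Real.sqrt V * (1 / Real.sqrt P) := by
      have h6 : ∑ p ∈ I.filter (fun p => ¬ p ≤ P), |v p| * (1 / p) ≤
          Real.sqrt (∑ p ∈ I.filter (fun p => ¬ p ≤ P), |v p| ^ 2) * Real.sqrt (∑ p ∈ I.filter (fun p => ¬ p ≤ P), (1 / (p : ℝ)) ^ 2) :=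
        Real.sum_mul_le_sqrt_mul_sqrt _ _ _
      have h7 : ∑ p ∈ I.filter (fun p => ¬ p ≤ P), |v p| / p = ∑ p ∈ I.filter (fun p => ¬ p ≤ P), |v p| * (1 / p) :=
        sum_congr rfl fun p _ => by ring
      rw [h7]
      refine h6.trans (mul_le_mul (Real.sqrt_le_sqrt ?_) ?_ (Real.sqrt_nonneg _) (Real.sqrt_nonneg _))
      · rw [hVd]
        calc ∑ p ∈ I.filter (fun p => ¬ p ≤ P), |v p| ^ 2 ≤ ∑ p ∈ I, |v p| ^ 2 :=
              sum_le_sum_of_subset_of_nonneg (filter_subset _ _) fun p _ _ => sq_nonneg _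
          _ ≤ _ := sum_le_sum fun p _ => by
              rw [sq_abs]
              have := sq_nonneg (u p)
              linarith
      · have h8 : 1 / Real.sqrt P = Real.sqrt ((P : ℝ)⁻¹) := by
          rw [Real.sqrt_inv, one_div]
        rw [h8]
        refine Real.sqrt_le_sqrt ?_
        rcases le_or_gt P x with hPx | hPx
        · have hP0' : P ≠ 0 := by
            intro h
            rw [h] at hP0
            simp at hP0
          have h9 := sum_Ioc_inv_sq_le_sub (α := ℝ) hP0' hPx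
          have h10 : ∑ p ∈ I.filter (fun p => ¬ p ≤ P), (1 / (p : ℝ)) ^ 2 ≤ ∑ i ∈ Ioc P x, ((i : ℝ) ^ 2)⁻¹ := by
            have h11 : I.filter (fun p => ¬ p ≤ P) ⊆ Ioc P x := by
              intro p hp
              rw [mem_filter] at hp
              rw [mem_Ioc]
              exact ⟨not_le.1 hp.2, (hIp p hp.1).2⟩
            refine le_trans (le_of_eq ?_) (sum_le_sum_of_subset_of_nonneg h11 fun i _ _ => by positivity)
            refine sum_congr rfl fun p _ => ?_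
            rw [one_div, inv_pow]
          have h12 : (0 : ℝ) ≤ (x : ℝ)⁻¹ := by positivity
          linarith
        · have h11 : I.filter (fun p => ¬ p ≤ P) = ∅ := by
            rw [filter_eq_empty_iff]
            intro p hp
            have := (hIp p hp).2
            push Not
            omega
          rw [h11, sum_empty]
          positivity
    have h6 : Real.sqrt V * (1 / Real.sqrt P) ≤ Real.sqrt V * (δ / 2) := mul_le_mul_of_nonneg_left hsP2 hsV.le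
    rw [h3] at h1
    nlinarith
  -- the law
  have hW50 : V₁ ≤ W := by
    have h1 := (abs_le.1 hWV).1
    have h2 : 50 * V₁ ≤ V := by nlinarith [sq_nonneg (50 * (P : ℝ) / δ)]
    nlinarith
  have hlaw := hg 1 I (fun p => p) f (fun p hp => (hIp p hp).1.one_lt.le)
    (fun p hp p' hp' hne => (Nat.coprime_primes (hIp p hp).1 (hIp p' hp').1).2 hne)
    (fun p _ ν ν' hνν => by
      rw [hf]
      show term u v (ν 0) p / 5 = term u v (ν' 0) p / 5
      rw [term_congr u v p (hνν 0)])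
    (fun p hp ν => by
      have : Fact p.Prime := ⟨(hIp p hp).1⟩
      rw [hf]
      show |term u v (ν 0) p / 5| ≤ 1
      rw [abs_div, abs_of_pos (by norm_num : (0 : ℝ) < 5), div_le_one (by norm_num)]
      exact term_abs u v hu hv _ p)
    (by rw [← hW]; exact hW50) x (fun p hp => (hIp p hp).2)
    (by
      rw [hI]
      calc ((range (x + 1)).filter Nat.Prime).card ≤ (Icc 1 x).card := by
            refine card_le_card fun p hp => ?_
            rw [mem_filter, mem_range] at hp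
            rw [mem_Icc]
            exact ⟨hp.2.one_lt.le, by omega⟩
        _ = x := by rw [Nat.card_Icc, Nat.add_sub_cancel])
    (fun _ => M) (fun _ => N) (fun _ => by
      push_cast
      linarith)
  rw [← hW, ← hm] at hlaw
  obtain ⟨Pr, hPr⟩ : ∃ Pr : ℝ → ℝ, Pr = fun z => (((Ico M (M + N)).filter fun a => total u v x a / 5 ≤ z).card : ℝ) / (N : ℝ) := ⟨_, rfl⟩
  have hPr1 : ∀ y, |Pr (m + y * Real.sqrt W) - Phi y| ≤ ε / 2 := by
    intro y
    have h1 := hlaw y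
    have h2 : ∀ ν : Fin 1 → ℤ, ∑ p ∈ I, f p ν = total u v x (ν 0) / 5 := by
      intro ν
      unfold total
      rw [hf, ← hI, sum_div]
    simp only [h2] at h1
    rw [zbox_one M N (fun a => total u v x a / 5 ≤ m + y * Real.sqrt W)] at h1
    rw [Fin.prod_univ_one] at h1
    rw [hPr]
    exact h1
  have h2 := happ Pr (ε / 2) m W V 5 hV0 (by norm_num) hPr1 hWV hmV y
  rw [hPr] at h2
  have h3 : (Ico M (M + N)).filter (fun a => total u v x a / 5 ≤ y * Real.sqrt V / 5) =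
      (Ico M (M + N)).filter fun a => total u v x a ≤ y * Real.sqrt V := by
    apply filter_congr
    intro a _
    rw [div_le_div_iff_of_pos_right (by norm_num : (0 : ℝ) < 5)]
  simp only [h3] at h2
  linarith

end KL

end Q282LT
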