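import Pool.Agent.Q282.LT.Kl

/-!
# The first four moments of the Kloosterman sums `S(a, 1; p)`, and Weil's bound
-/

set_option autoImplicit false
set_option linter.unusedSectionVars false

namespace Q282LT.KL

open Finset
open Pool.Agent.Helper916 (Kl)

/-- the Kloosterman sum `S(a, 1; p)` -/
noncomputable def S (a : ℤ) (p : ℕ) : ℝ :=
  ∑ x ∈ Ico 1 p, Real.cos (2 * Real.pi * ((((a : ZMod p) * (x : ZMod p) + (x : ZMod p)⁻¹).val : ℕ) : ℝ) / (p : ℝ))

lemma S_eq (a : ℤ) (p : ℕ) [Fact p.Prime] : ((S a p : ℝ) : ℂ) = Kl (ZMod.stdAddChar (N := p)) (a : ZMod p) 1 := by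
  have hp0 : (p : ℝ) ≠ 0 := by exact_mod_cast (Fact.out : p.Prime).ne_zero
  have hre : (Kl (ZMod.stdAddChar (N := p)) (a : ZMod p) 1).re = S a p := by
    unfold Pool.Agent.Helper916.Kl S
    rw [Complex.re_sum]
    symm
    refine sum_nbij' (i := fun x : ℕ => (x : ZMod p)) (j := fun z : ZMod p => z.val) ?_ ?_ ?_ ?_ ?_
    · intro x hx
      rw [mem_Ico] at hx
      rw [mem_erase]
      refine ⟨?_, mem_univ _⟩
      intro h
      rw [ZMod.natCast_eq_zero_iff] at h
      exact absurd (Nat.le_of_dvd (by omega) h) (by omega)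
    · intro z hz
      rw [mem_erase] at hz
      rw [mem_Ico]
      have h1 := ZMod.val_lt z
      have h2 : z.val ≠ 0 := fun h => hz.1 ((ZMod.val_eq_zero z).1 h)
      omega
    · intro x hx
      rw [mem_Ico] at hx
      exact ZMod.val_natCast_of_lt hx.2
    · intro z _
      exact ZMod.natCast_zmod_val z
    · intro x _
      rw [ZMod.stdAddChar_apply, ZMod.toCircle_apply]
      have h1 : (2 * (Real.pi : ℂ) * Complex.I * (((a : ZMod p) * (x : ZMod p) + 1 * (x : ZMod p)⁻¹).val : ℂ) / (p : ℂ)) =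
          ((2 * Real.pi * ((((a : ZMod p) * (x : ZMod p) + (x : ZMod p)⁻¹).val : ℕ) : ℝ) / (p : ℝ) : ℝ) : ℂ) * Complex.I := by
        rw [one_mul]
        push_cast
        ring
      rw [h1, Complex.exp_ofReal_mul_I_re]
  have him : (starRingEnd ℂ) (Kl (ZMod.stdAddChar (N := p)) (a : ZMod p) 1) = Kl (ZMod.stdAddChar (N := p)) (a : ZMod p) 1 := by
    unfold Pool.Agent.Helper916.Kl
    rw [map_sum]
    refine sum_nbij' (i := fun z => -z) (j := fun z => -z) ?_ ?_ ?_ ?_ ?_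
    · intro z hz
      rw [mem_erase] at hz ⊢
      exact ⟨neg_ne_zero.2 hz.1, mem_univ _⟩
    · intro z hz
      rw [mem_erase] at hz ⊢
      exact ⟨neg_ne_zero.2 hz.1, mem_univ _⟩
    · intro z _
      exact neg_neg z
    · intro z _
      exact neg_neg z
    · intro z _
      rw [← AddChar.map_neg_eq_conj]
      congr 1
      rw [inv_neg]
      ring
  rw [← hre]
  exact (Complex.conj_eq_iff_re.1 him)

lemma S_congr (p : ℕ) {a a' : ℤ} (h : (p : ℤ) ∣ a - a') : S a p = S a' p := by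
  unfold S
  have : (a : ZMod p) = (a' : ZMod p) := by
    rw [← sub_eq_zero, ← Int.cast_sub, ZMod.intCast_zmod_eq_zero_iff_dvd]
    exact h
  rw [this]

/-- the sums of the powers -/
noncomputable def AA (k p : ℕ) : ℝ := ∑ a ∈ range p, S (a : ℤ) p ^ k

lemma AA_eq (k p : ℕ) [Fact p.Prime] : ((AA k p : ℝ) : ℂ) = ∑ a : ZMod p, Kl (ZMod.stdAddChar (N := p)) a 1 ^ k := by
  unfold AA
  push_cast
  refine sum_nbij' (i := fun x : ℕ => (x : ZMod p)) (j := fun z : ZMod p => z.val) ?_ ?_ ?_ ?_ ?_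
  · intro x _
    exact mem_univ _
  · intro z _
    rw [mem_range]
    exact ZMod.val_lt z
  · intro x hx
    rw [mem_range] at hx
    exact ZMod.val_natCast_of_lt hx
  · intro z _
    exact ZMod.natCast_zmod_val z
  · intro x _
    rw [S_eq]
    push_cast
    rfl

lemma AA_formula (k p : ℕ) [Fact p.Prime] : ((p : ℝ) - 1) * AA k p =
    (p : ℝ) ^ 2 * ((sol (ZMod p) k).card : ℝ) - ((p : ℝ) - 1) ^ k - ((p : ℝ) - 1) * (-1) ^ k := by
  have h := moment_formula (ZMod.stdAddChar (N := p)) (ZMod.isPrimitive_stdAddChar p) k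
  rw [← AA_eq, ZMod.card] at h
  exact_mod_cast h

lemma p_gt (p : ℕ) [Fact p.Prime] : (2 : ℝ) ≤ p := by exact_mod_cast (Fact.out : p.Prime).two_le

lemma AA_one (p : ℕ) [Fact p.Prime] : AA 1 p = 0 := by
  have h := AA_formula 1 p
  rw [sol_one] at h
  have hp := p_gt p
  have h1 : ((p : ℝ) - 1) * AA 1 p = 0 := by
    rw [h]
    push_cast
    ring
  rcases mul_eq_zero.1 h1 with h2 | h2
  · linarith
  · exact h2

lemma AA_two (p : ℕ) [Fact p.Prime] : AA 2 p = (p : ℝ) ^ 2 - p := by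
  have h := AA_formula 2 p
  rw [sol_two, ZMod.card, Nat.cast_sub (Fact.out : p.Prime).one_lt.le] at h
  have hp := p_gt p
  have h1 : ((p : ℝ) - 1) * (AA 2 p - ((p : ℝ) ^ 2 - p)) = 0 := by
    rw [mul_sub, h]
    push_cast
    ring
  rcases mul_eq_zero.1 h1 with h2 | h2
  · linarith
  · linarith

lemma AA_three (p : ℕ) [Fact p.Prime] : |AA 3 p| ≤ 2 * (p : ℝ) ^ 2 := by
  have h := AA_formula 3 p
  have hp := p_gt p
  have h1 : ((sol (ZMod p) 3).card : ℝ) ≤ 2 * ((p : ℝ) - 1) := by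
    have := sol_three (F := ZMod p)
    rw [ZMod.card] at this
    have h2 : ((sol (ZMod p) 3).card : ℝ) ≤ ((2 * (p - 1) : ℕ) : ℝ) := by exact_mod_cast this
    rw [Nat.cast_mul, Nat.cast_sub (Fact.out : p.Prime).one_lt.le] at h2
    simpa using h2
  have h0 : (0 : ℝ) ≤ ((sol (ZMod p) 3).card : ℝ) := Nat.cast_nonneg _
  have hp1 : 0 < (p : ℝ) - 1 := by linarith
  have h2 := mul_le_mul_of_nonneg_left h1 (sq_nonneg (p : ℝ))
  have h3 := mul_nonneg (sq_nonneg (p : ℝ)) h0
  rw [abs_le]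
  constructor
  · refine le_of_mul_le_mul_left ?_ hp1
    rw [h]
    nlinarith [mul_pos hp1 hp1, mul_pos (mul_pos hp1 hp1) hp1]
  · refine le_of_mul_le_mul_left ?_ hp1
    rw [h]
    nlinarith [mul_pos hp1 hp1, mul_pos (mul_pos hp1 hp1) hp1]

lemma AA_four (p : ℕ) [Fact p.Prime] : |AA 4 p - 2 * (p : ℝ) ^ 3| ≤ 6 * (p : ℝ) ^ 2 := by
  have h := AA_formula 4 p
  have hp := p_gt p
  have h1 := sol_four_le (F := ZMod p)
  have h2 := sol_four_ge (F := ZMod p)
  rw [ZMod.card] at h1 h2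
  have hp1 : 0 < (p : ℝ) - 1 := by linarith
  have h3 := mul_le_mul_of_nonneg_left h1 (sq_nonneg (p : ℝ))
  have h4 := mul_le_mul_of_nonneg_left h2 (sq_nonneg (p : ℝ))
  rw [abs_le]
  constructor
  · refine le_of_mul_le_mul_left ?_ hp1
    rw [mul_sub, h]
    nlinarith [mul_pos hp1 hp1, mul_pos (mul_pos hp1 hp1) hp1]
  · refine le_of_mul_le_mul_left ?_ hp1
    rw [mul_sub, h]
    nlinarith [mul_pos hp1 hp1, mul_pos (mul_pos hp1 hp1) hp1]

/-- Weil's bound -/
lemma S_weil (a : ℤ) (p : ℕ) [Fact p.Prime] : |S a p| ≤ 2 * Real.sqrt p := by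
  have hp := p_gt p
  have hs1 : 1 ≤ Real.sqrt p := Real.one_le_sqrt.2 (by linarith)
  have hnorm : ‖((S a p : ℝ) : ℂ)‖ = |S a p| := Complex.norm_real _
  rcases (Fact.out : p.Prime).eq_two_or_odd with h2 | h2
  · subst h2
    unfold S
    have h3 : Ico 1 2 = {1} := rfl
    rw [h3, sum_singleton]
    refine (Real.abs_cos_le_one _).trans ?_
    linarith
  · by_cases ha : (a : ZMod p) = 0
    · rw [← hnorm, S_eq, ha, Kl_zero_left _ (ZMod.isPrimitive_stdAddChar p) 1 one_ne_zero]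
      simp
      linarith
    · have h3 := Pool.Agent.H498R2.Kl.kloosterman_le (F := ZMod p) (by
        rw [ZMod.ringChar_zmod_n]
        omega) (ZMod.isPrimitive_stdAddChar p) ha one_ne_zero
      rw [ZMod.card] at h3
      rw [← hnorm, S_eq]
      refine le_trans (le_of_eq ?_) h3
      congr 1
      unfold Pool.Agent.Helper916.Kl
      rw [← add_sum_erase univ (fun x : ZMod p => if x = 0 then (0 : ℂ) else ZMod.stdAddChar ((a : ZMod p) * x + 1 * x⁻¹)) (mem_univ 0),
        if_pos rfl, zero_add]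
      refine sum_congr rfl fun z hz => ?_
      rw [if_neg (mem_erase.1 hz).1]

end Q282LT.KL
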