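import Pool.Agent.Q282.LT.Conf
import Mathlib.Probability.Distributions.Poisson.Basic

/-!
# The inequality of Le Cam for residues to coprime moduli, with several types of hits
-/

set_option autoImplicit false
set_option linter.unusedSectionVars false

namespace Q282LT

open Finset MeasureTheory ProbabilityTheory
open scoped NNReal
open Pool.Agent.TH894.NE (box mem_box card_box Per mean mean_mul mean_mono mean_add mean_const mean_prod two_mod)

section

variable {κ : Type} [Fintype κ] [DecidableEq κ]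

/-- the law of independent Poisson variables -/
noncomputable def piPo (r : κ → ℝ≥0) : Measure (κ → ℕ) := Measure.pi fun i => poissonMeasure (r i)

instance (r : κ → ℝ≥0) : IsProbabilityMeasure (piPo r) := by
  unfold piPo
  infer_instance

lemma piPo_add (r t : κ → ℝ≥0) : piPo (fun i => r i + t i) = ((piPo r).prod (piPo t)).map (fun x => x.1 + x.2) := by
  unfold piPo
  refine Measure.pi_eq fun s _ => ?_
  rw [Measure.map_apply (measurable_from_prod_countable_right (by intro; exact measurable_of_countable _)) (MeasurableSet.of_discrete)]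
  have hmp := measurePreserving_arrowProdEquivProdArrow ℕ ℕ κ (fun i => poissonMeasure (r i)) (fun i => poissonMeasure (t i))
  rw [← hmp.measure_preimage (MeasurableSet.of_discrete).nullMeasurableSet]
  have h1 : (MeasurableEquiv.arrowProdEquivProdArrow ℕ ℕ κ) ⁻¹' ((fun x : (κ → ℕ) × (κ → ℕ) => x.1 + x.2) ⁻¹' Set.univ.pi s) =
      Set.univ.pi fun i => (fun y : ℕ × ℕ => y.1 + y.2) ⁻¹' s i := by
    ext x
    simp only [Set.mem_preimage, Set.mem_pi, Set.mem_univ, forall_true_left]
    rfl
  rw [h1, Measure.pi_pi]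
  refine prod_congr rfl fun i _ => ?_
  rw [← poissonMeasure_conv_poissonMeasure, Measure.conv, Measure.map_apply (by fun_prop) MeasurableSet.of_discrete]

lemma integrable_bdd (r : κ → ℝ≥0) (h : (κ → ℕ) → ℝ) (hb : ∀ k, |h k| ≤ 1) : Integrable h (piPo r) :=
  Integrable.of_bound (measurable_of_countable h).aestronglyMeasurable 1 (Filter.Eventually.of_forall fun k => hb k)

lemma int_add (r t : κ → ℝ≥0) (h : (κ → ℕ) → ℝ) (hb : ∀ k, |h k| ≤ 1) :
    ∫ k, h k ∂piPo (fun i => r i + t i) = ∫ k, (∫ l, h (k + l) ∂piPo t) ∂piPo r := by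
  rw [piPo_add, integral_map (measurable_of_countable _).aemeasurable (measurable_of_countable h).aestronglyMeasurable,
    integral_prod]
  exact Integrable.of_bound (measurable_of_countable _).aestronglyMeasurable 1 (Filter.Eventually.of_forall fun k => hb _)

lemma mass (r : κ → ℝ≥0) (k : κ → ℕ) : (piPo r).real {k} = ∏ i, (Real.exp (-(r i : ℝ)) * (r i : ℝ) ^ k i / ((k i).factorial : ℝ)) := by
  unfold piPo
  rw [measureReal_def, Measure.pi_singleton, ENNReal.toReal_prod]
  refine prod_congr rfl fun i _ => ?_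
  exact poissonMeasure_real_singleton (r i) (k i)

/-- the vector of a type -/
def vec (o : Option κ) : κ → ℕ := fun i => if o = some i then 1 else 0

lemma vec_none : vec (none : Option κ) = 0 := by
  funext i
  unfold vec
  simp

lemma vec_inj : Function.Injective (vec : Option κ → κ → ℕ) := by
  intro o o' h
  rcases o with _ | i
  · rcases o' with _ | j
    · rfl
    · have := congrFun h j
      unfold vec at this
      simp at this
  · rcases o' with _ | j
    · have := congrFun h i
      unfold vec at this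
      simp at this
    · have := congrFun h i
      unfold vec at this
      simp at this
      rw [this]

lemma mass_none (r : κ → ℝ≥0) : (piPo r).real {vec none} = Real.exp (-∑ i, (r i : ℝ)) := by
  rw [mass, vec_none, ← sum_neg_distrib, Real.exp_sum]
  refine prod_congr rfl fun i _ => ?_
  simp

lemma mass_some (r : κ → ℝ≥0) (i : κ) : (piPo r).real {vec (some i)} = r i * Real.exp (-∑ i, (r i : ℝ)) := by
  rw [mass, ← sum_neg_distrib, Real.exp_sum]
  have h1 : ∀ j, Real.exp (-(r j : ℝ)) * (r j : ℝ) ^ vec (some i) j / ((vec (some i) j).factorial : ℝ) =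
      (if j = i then (r i : ℝ) else 1) * Real.exp (-(r j : ℝ)) := by
    intro j
    unfold vec
    by_cases h : j = i
    · subst h
      simp
      ring
    · have h' : ¬ (some i = some j) := fun h2 => h (Option.some.inj h2).symm
      rw [if_neg h, if_neg h']
      simp
  rw [prod_congr rfl fun j _ => h1 j, prod_mul_distrib]
  congr 1
  simp

/-- a lower bound for integrals of nonnegative functions -/
lemma int_lower (r : κ → ℝ≥0) (g : (κ → ℕ) → ℝ) (h0 : ∀ k, 0 ≤ g k) (h1 : ∀ k, g k ≤ 1) :
    Real.exp (-∑ i, (r i : ℝ)) * (g (vec none) + ∑ i, (r i : ℝ) * g (vec (some i))) ≤ ∫ k, g k ∂piPo r := by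
  have hb : ∀ k, |g k| ≤ 1 := fun k => by rw [abs_of_nonneg (h0 k)]; exact h1 k
  have h2 : ∫ k, ∑ o : Option κ, Set.indicator {vec o} (fun _ => g (vec o)) k ∂piPo r ≤ ∫ k, g k ∂piPo r := by
    refine integral_mono ?_ (integrable_bdd r g hb) ?_
    · refine integrable_finsetSum _ fun o _ => ?_
      exact (integrable_const _).indicator (MeasurableSet.of_discrete)
    · intro k
      show ∑ o : Option κ, Set.indicator {vec o} (fun _ => g (vec o)) k ≤ g k
      by_cases hk : ∃ o : Option κ, k = vec o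
      · obtain ⟨o, rfl⟩ := hk
        rw [sum_eq_single o]
        · rw [Set.indicator_of_mem (Set.mem_singleton _)]
        · intro o' _ hne
          rw [Set.indicator_of_notMem]
          intro h
          exact hne (vec_inj (Set.mem_singleton_iff.1 h)).symm
        · intro h
          exact absurd (mem_univ o) h
      · rw [sum_eq_zero]
        · exact h0 k
        · intro o _
          rw [Set.indicator_of_notMem]
          intro h
          exact hk ⟨o, Set.mem_singleton_iff.1 h⟩
  rw [integral_finsetSum _ fun o _ => (integrable_const _).indicator (MeasurableSet.of_discrete)] at h2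
  simp only [integral_indicator_const _ (MeasurableSet.of_discrete : MeasurableSet {vec _})] at h2
  rw [Fintype.sum_option] at h2
  simp only [smul_eq_mul] at h2
  rw [mass_none] at h2
  have h3 : ∀ i, (piPo r).real {vec (some i)} * g (vec (some i)) = Real.exp (-∑ i, (r i : ℝ)) * ((r i : ℝ) * g (vec (some i))) := by
    intro i
    rw [mass_some]
    ring
  rw [sum_congr rfl fun i _ => h3 i, ← mul_sum, ← mul_add] at h2
  exact h2

/-- one step of the comparison -/
lemma one_step (r : κ → ℝ≥0) (f : (κ → ℕ) → ℝ) (h0 : ∀ k, 0 ≤ f k) (h1 : ∀ k, f k ≤ 1) :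
    |((1 - ∑ i, (r i : ℝ)) * f (vec none) + ∑ i, (r i : ℝ) * f (vec (some i))) - ∫ k, f k ∂piPo r| ≤ (∑ i, (r i : ℝ)) ^ 2 := by
  have hb : ∀ k, |f k| ≤ 1 := fun k => by rw [abs_of_nonneg (h0 k)]; exact h1 k
  have hl := int_lower r f h0 h1
  have hu := int_lower r (fun k => 1 - f k) (fun k => by have := h1 k; linarith) (fun k => by have := h0 k; linarith)
  rw [integral_sub (integrable_const _) (integrable_bdd r f hb), integral_const, probReal_univ, one_smul] at hu
  have hsum : ∑ i, (r i : ℝ) * (1 - f (vec (some i))) = ∑ i, (r i : ℝ) - ∑ i, (r i : ℝ) * f (vec (some i)) := by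
    rw [← sum_sub_distrib]
    refine sum_congr rfl fun i _ => ?_
    ring
  rw [hsum] at hu
  obtain ⟨P, hP⟩ : ∃ P : ℝ, P = ∑ i, (r i : ℝ) := ⟨_, rfl⟩
  obtain ⟨G, hG⟩ : ∃ G : ℝ, G = ∑ i, (r i : ℝ) * f (vec (some i)) := ⟨_, rfl⟩
  obtain ⟨E, hE⟩ : ∃ E : ℝ, E = Real.exp (-P) := ⟨_, rfl⟩
  obtain ⟨X, hX⟩ : ∃ X : ℝ, X = ∫ k, f k ∂piPo r := ⟨_, rfl⟩
  have hP0 : 0 ≤ P := by
    rw [hP]
    exact sum_nonneg fun i _ => NNReal.coe_nonneg _
  have hG0 : 0 ≤ G := by
    rw [hG]
    exact sum_nonneg fun i _ => mul_nonneg (NNReal.coe_nonneg _) (h0 _)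
  have hGP : G ≤ P := by
    rw [hG, hP]
    exact sum_le_sum fun i _ => mul_le_of_le_one_right (NNReal.coe_nonneg _) (h1 _)
  have hE0 : 0 < E := by
    rw [hE]
    exact Real.exp_pos _
  have hE1 : 1 - P ≤ E := by
    rw [hE]
    have := Real.add_one_le_exp (-P)
    linarith
  have hE2 : E ≤ 1 := by
    rw [hE]
    exact Real.exp_le_one_iff.2 (by linarith)
  rw [← hP, ← hG, ← hX] at hl hu ⊢
  rw [← hE] at hl hu
  have hf0 := h0 (vec none)
  have hf1 := h1 (vec none)
  obtain ⟨f₀, hf₀⟩ : ∃ f₀ : ℝ, f₀ = f (vec none) := ⟨_, rfl⟩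
  rw [← hf₀] at hf0 hf1 hl hu ⊢
  rw [abs_le]
  constructor
  · nlinarith [mul_nonneg hG0 (sub_nonneg.2 hE2), mul_nonneg (sub_nonneg.2 hf1) (sub_nonneg.2 hE1), mul_nonneg hP0 (sub_nonneg.2 hE1)]
  · nlinarith [mul_nonneg hf0 (sub_nonneg.2 hE1), mul_nonneg (sub_nonneg.2 hGP) (sub_nonneg.2 hE2), mul_nonneg hP0 (sub_nonneg.2 hE1)]

/-- the numbers of the hits of the types -/
def cntv (I : Finset ℕ) (σ : ℕ → Option κ) : κ → ℕ := fun i => (I.filter fun a => σ a = some i).card

lemma cntv_insert (I : Finset ℕ) (a : ℕ) (ha : a ∉ I) (σ : ℕ → Option κ) :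
    cntv (insert a I) σ = cntv I σ + vec (σ a) := by
  funext i
  unfold cntv vec
  rw [Pi.add_apply, filter_insert]
  split_ifs with h
  · rw [card_insert_of_notMem fun h' => ha (mem_filter.1 h').1]
  · rw [add_zero]

lemma cntv_empty (σ : ℕ → Option κ) : cntv ∅ σ = 0 := by
  funext i
  unfold cntv
  simp

/-- the probability of a type -/
noncomputable def pr (d : ℕ) (q : ℕ → ℕ) (τ : ℕ → (Fin d → ℕ) → Option κ) (a : ℕ) (o : Option κ) : ℝ :=
  mean d (q a) (fun n => if τ a n = o then 1 else 0)

lemma mean_nonneg {d q : ℕ} {F : (Fin d → ℕ) → ℝ} (h : ∀ n, 0 ≤ F n) : 0 ≤ mean d q F := by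
  unfold Pool.Agent.TH894.NE.mean
  exact mul_nonneg (by positivity) (sum_nonneg fun n _ => h n)

lemma pr_nonneg (d : ℕ) (q : ℕ → ℕ) (τ : ℕ → (Fin d → ℕ) → Option κ) (a : ℕ) (o : Option κ) : 0 ≤ pr d q τ a o := by
  unfold pr
  refine mean_nonneg fun n => ?_
  split_ifs <;> norm_num

lemma pr_sum (d : ℕ) (q : ℕ → ℕ) (τ : ℕ → (Fin d → ℕ) → Option κ) (a : ℕ) (ha : 1 ≤ q a) : ∑ o, pr d q τ a o = 1 := by
  unfold pr
  rw [← mean_sum']
  have : (fun n : Fin d → ℕ => ∑ o : Option κ, if τ a n = o then (1 : ℝ) else 0) = fun _ => 1 := by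
    funext n
    rw [sum_ite_eq]
    simp
  rw [this]
  exact mean_const d (q a) ha 1

lemma pr_none (d : ℕ) (q : ℕ → ℕ) (τ : ℕ → (Fin d → ℕ) → Option κ) (a : ℕ) (ha : 1 ≤ q a) :
    pr d q τ a none = 1 - ∑ i, pr d q τ a (some i) := by
  have := pr_sum d q τ a ha
  rw [Fintype.sum_option] at this
  linarith

/-- the expected numbers of the hits -/
noncomputable def lam (d : ℕ) (q : ℕ → ℕ) (τ : ℕ → (Fin d → ℕ) → Option κ) (I : Finset ℕ) (i : κ) : ℝ≥0 :=
  Real.toNNReal (∑ a ∈ I, pr d q τ a (some i))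

lemma lam_insert (d : ℕ) (q : ℕ → ℕ) (τ : ℕ → (Fin d → ℕ) → Option κ) (I : Finset ℕ) (a : ℕ) (ha : a ∉ I) :
    lam d q τ (insert a I) = fun i => lam d q τ I i + Real.toNNReal (pr d q τ a (some i)) := by
  funext i
  unfold lam
  rw [sum_insert ha, add_comm, Real.toNNReal_add (sum_nonneg fun b _ => pr_nonneg d q τ b _) (pr_nonneg d q τ a _)]

/-- the inequality of Le Cam -/
theorem lecam (d : ℕ) (q : ℕ → ℕ) (τ : ℕ → (Fin d → ℕ) → Option κ) (I : Finset ℕ) (hq : ∀ b ∈ I, 1 ≤ q b)
    (hco : ∀ a ∈ I, ∀ b ∈ I, a ≠ b → Nat.Coprime (q a) (q b)) (hτ : ∀ b ∈ I, ∀ n, τ b n = τ b (fun i => n i % q b)) :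
    ∀ h : (κ → ℕ) → ℝ, (∀ k, 0 ≤ h k) → (∀ k, h k ≤ 1) →
      |mean d (∏ a ∈ I, q a) (fun n => h (cntv I fun a => τ a n)) - ∫ k, h k ∂piPo (lam d q τ I)| ≤
        ∑ a ∈ I, (∑ i, pr d q τ a (some i)) ^ 2 := by
  induction I using Finset.induction_on with
  | empty =>
    intro h h0 h1
    have h2 : (fun n : Fin d → ℕ => h (cntv ∅ fun a => τ a n)) = fun _ => h (vec none) := by
      funext n
      rw [cntv_empty, vec_none]
    rw [prod_empty, h2, mean_const d 1 le_rfl, sum_empty]
    have h3 := one_step (lam d q τ ∅) h h0 h1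
    have h4 : ∀ i, lam d q τ ∅ i = 0 := by
      intro i
      unfold lam
      rw [sum_empty, Real.toNNReal_zero]
    simp only [h4] at h3
    simpa using h3
  | insert a I ha ih =>
    intro h h0 h1
    have ha' : a ∈ insert a I := mem_insert_self a I
    have hm : ∀ b ∈ I, b ∈ insert a I := fun b hb => mem_insert_of_mem hb
    have ih' := ih (fun b hb => hq b (hm b hb)) (fun x hx y hy => hco x (hm x hx) y (hm y hy)) (fun b hb => hτ b (hm b hb))
    have hb : ∀ k, |h k| ≤ 1 := fun k => by rw [abs_of_nonneg (h0 k)]; exact h1 k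
    obtain ⟨Q, hQ⟩ : ∃ Q : ℕ, Q = ∏ a ∈ I, q a := ⟨_, rfl⟩
    have hQ1 : 1 ≤ Q := by
      rw [hQ]
      exact Nat.one_le_iff_ne_zero.2 (prod_ne_zero_iff.2 fun b hb => (Nat.one_le_iff_ne_zero.1 (hq b (hm b hb))))
    -- the average over the last modulus
    obtain ⟨H, hH⟩ : ∃ H : (κ → ℕ) → ℝ, H = fun k => ∑ o, pr d q τ a o * h (k + vec o) := ⟨_, rfl⟩
    have hH0 : ∀ k, 0 ≤ H k := by
      intro k
      rw [hH]
      exact sum_nonneg fun o _ => mul_nonneg (pr_nonneg d q τ a o) (h0 _)
    have hH1 : ∀ k, H k ≤ 1 := by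
      intro k
      rw [hH, ← pr_sum d q τ a (hq a ha')]
      exact sum_le_sum fun o _ => mul_le_of_le_one_right (pr_nonneg d q τ a o) (h1 _)
    have hHb : ∀ k, |H k| ≤ 1 := fun k => by rw [abs_of_nonneg (hH0 k)]; exact hH1 k
    have h2 : mean d (∏ b ∈ insert a I, q b) (fun n => h (cntv (insert a I) fun b => τ b n)) =
        mean d Q (fun n => H (cntv I fun b => τ b n)) := by
      rw [prod_insert ha, ← hQ]
      have h3 : (fun n : Fin d → ℕ => h (cntv (insert a I) fun b => τ b n)) =
          fun n => ∑ o : Option κ, (if τ a n = o then 1 else 0) * h ((cntv I fun b => τ b n) + vec o) := by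
        funext n
        rw [cntv_insert I a ha]
        simp
      rw [h3, mean_sum', hH, mean_sum']
      refine sum_congr rfl fun o _ => ?_
      rw [mean_mul]
      have h4 := mean_two (d := d) (hq a ha') hQ1 (by
          rw [hQ]
          exact Nat.Coprime.prod_right fun b hb => hco a ha' b (hm b hb) (fun h => ha (h ▸ hb)))
        (fun n => if τ a n = o then (1 : ℝ) else 0) (fun n => h ((cntv I fun b => τ b n) + vec o))
        (by
          intro n
          show (if τ a n = o then (1 : ℝ) else 0) = if τ a (fun i => n i % q a) = o then 1 else 0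
          rw [← hτ a ha' n])
        (by
          intro n
          show h ((cntv I fun b => τ b n) + vec o) = h ((cntv I fun b => τ b fun i => n i % Q) + vec o)
          congr 2
          funext i
          unfold cntv
          congr 1
          refine filter_congr fun b hb' => ?_
          show τ b n = some i ↔ τ b (fun i => n i % Q) = some i
          rw [hτ b (hm b hb') n, hτ b (hm b hb') (fun i => n i % Q)]
          have : q b ∣ Q := by
            rw [hQ]
            exact dvd_prod_of_mem q hb'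
          simp only [Nat.mod_mod_of_dvd _ this])
      exact h4
    -- the average over the last Poisson variables
    have h5 : ∫ k, h k ∂piPo (lam d q τ (insert a I)) =
        ∫ k, (∫ l, h (k + l) ∂piPo fun i => Real.toNNReal (pr d q τ a (some i))) ∂piPo (lam d q τ I) := by
      rw [lam_insert d q τ I a ha]
      exact int_add (lam d q τ I) (fun i => Real.toNNReal (pr d q τ a (some i))) h hb
    obtain ⟨H', hH'⟩ : ∃ H' : (κ → ℕ) → ℝ, H' = fun k => ∫ l, h (k + l) ∂piPo fun i => Real.toNNReal (pr d q τ a (some i)) := ⟨_, rfl⟩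
    have hcoe : ∀ i, ((Real.toNNReal (pr d q τ a (some i)) : ℝ≥0) : ℝ) = pr d q τ a (some i) := fun i =>
      Real.coe_toNNReal _ (pr_nonneg d q τ a _)
    have h6 : ∀ k, |H k - H' k| ≤ (∑ i, pr d q τ a (some i)) ^ 2 := by
      intro k
      have h7 := one_step (fun i => Real.toNNReal (pr d q τ a (some i))) (fun l => h (k + l)) (fun l => h0 _) (fun l => h1 _)
      simp only [hcoe] at h7
      rw [hH, hH']
      show |∑ o, pr d q τ a o * h (k + vec o) - ∫ l, h (k + l) ∂piPo fun i => Real.toNNReal (pr d q τ a (some i))| ≤ _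
      rw [Fintype.sum_option, pr_none d q τ a (hq a ha')]
      exact h7
    have hH'b : ∀ k, |H' k| ≤ 1 := by
      intro k
      rw [hH']
      have h7 := norm_integral_le_of_norm_le_const (μ := piPo fun i => Real.toNNReal (pr d q τ a (some i)))
        (f := fun l => h (k + l)) (C := 1) (Filter.Eventually.of_forall fun l => hb _)
      rw [probReal_univ, mul_one] at h7
      exact h7
    have h8 : |∫ k, H k ∂piPo (lam d q τ I) - ∫ k, H' k ∂piPo (lam d q τ I)| ≤ (∑ i, pr d q τ a (some i)) ^ 2 := by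
      rw [← integral_sub (integrable_bdd _ H hHb) (integrable_bdd _ H' hH'b)]
      have h9 := norm_integral_le_of_norm_le_const (μ := piPo (lam d q τ I))
        (f := fun k => H k - H' k) (C := (∑ i, pr d q τ a (some i)) ^ 2) (Filter.Eventually.of_forall fun k => h6 k)
      rw [probReal_univ, mul_one] at h9
      exact h9
    rw [h2, h5, sum_insert ha]
    have h10 := ih' H hH0 hH1
    rw [← hQ] at h10
    have h11 : ∫ k, (∫ l, h (k + l) ∂piPo fun i => Real.toNNReal (pr d q τ a (some i))) ∂piPo (lam d q τ I) =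
      ∫ k, H' k ∂piPo (lam d q τ I) := by rw [hH']
    rw [h11]
    calc |mean d Q (fun n => H (cntv I fun b => τ b n)) - ∫ k, H' k ∂piPo (lam d q τ I)|
        = |(mean d Q (fun n => H (cntv I fun b => τ b n)) - ∫ k, H k ∂piPo (lam d q τ I)) +
          (∫ k, H k ∂piPo (lam d q τ I) - ∫ k, H' k ∂piPo (lam d q τ I))| := by ring_nf
      _ ≤ _ := by
          refine (abs_add_le _ _).trans ?_
          linarith

end

end Q282LT
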