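import Pool.Agent.Q282.LT.Shift

/-!
# Moebius expansion over subsets, truncated
-/

set_option autoImplicit false
set_option linter.unusedSectionVars false

namespace Q282LT

open Finset

/-- the Moebius transform -/
def mu (φ : Finset ℕ → ℝ) (T : Finset ℕ) : ℝ := ∑ R ∈ T.powerset, (-1) ^ ((T \ R).card) * φ R

lemma mu_insert (φ : Finset ℕ → ℝ) (T : Finset ℕ) (a : ℕ) (ha : a ∉ T) :
    mu φ (insert a T) = - mu φ T + mu (fun R => φ (insert a R)) T := by
  unfold mu
  rw [sum_powerset_insert ha, ← sum_neg_distrib]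
  congr 1
  · refine sum_congr rfl fun R hR => ?_
    rw [mem_powerset] at hR
    have haR : a ∉ R := fun h => ha (hR h)
    rw [insert_sdiff_of_notMem _ haR, card_insert_of_notMem (fun h => ha (mem_sdiff.1 h).1), pow_succ]
    ring
  · refine sum_congr rfl fun R hR => ?_
    rw [mem_powerset] at hR
    have h1 : insert a T \ insert a R = T \ R := by
      ext x
      simp only [mem_sdiff, mem_insert, not_or]
      constructor
      · rintro ⟨h1 | h1, h2, h3⟩
        · exact absurd h1 h2
        · exact ⟨h1, h3⟩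
      · rintro ⟨h1, h2⟩
        exact ⟨Or.inr h1, fun h => ha (h ▸ h1), h2⟩
    rw [h1]

/-- inversion -/
lemma mu_sum (S : Finset ℕ) : ∀ φ : Finset ℕ → ℝ, ∑ T ∈ S.powerset, mu φ T = φ S := by
  induction S using Finset.induction_on with
  | empty =>
    intro φ
    simp [mu]
  | insert a S ha ih =>
    intro φ
    rw [sum_powerset_insert ha]
    have h1 : ∑ T ∈ S.powerset, mu φ (insert a T) = ∑ T ∈ S.powerset, (- mu φ T + mu (fun R => φ (insert a R)) T) := by
      refine sum_congr rfl fun T hT => ?_
      exact mu_insert φ T a (fun h => ha (mem_powerset.1 hT h))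
    rw [h1, sum_add_distrib, ih (fun R => φ (insert a R)), sum_neg_distrib]
    ring

lemma mu_zero (φ : Finset ℕ → ℝ) (T : Finset ℕ) (a : ℕ) (haT : a ∈ T) (h : ∀ R, φ (insert a R) = φ R) : mu φ T = 0 := by
  rw [← insert_erase haT, mu_insert φ _ a (notMem_erase a T)]
  have : (fun R => φ (insert a R)) = φ := funext h
  rw [this]
  ring

lemma mu_abs (φ : Finset ℕ → ℝ) (hφ : ∀ R, |φ R| ≤ 1) (T : Finset ℕ) : |mu φ T| ≤ 2 ^ T.card := by
  unfold mu
  refine (abs_sum_le_sum_abs _ _).trans ?_
  calc ∑ R ∈ T.powerset, |(-1) ^ ((T \ R).card) * φ R| ≤ ∑ _R ∈ T.powerset, (1 : ℝ) := by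
        refine sum_le_sum fun R _ => ?_
        rw [abs_mul, abs_pow, abs_neg, abs_one, one_pow, one_mul]
        exact hφ R
    _ = 2 ^ T.card := by
        rw [sum_const, card_powerset, nsmul_eq_mul, mul_one]
        push_cast
        rfl

/-- the truncated inversion -/
lemma mu_trunc (φ : Finset ℕ → ℝ) (hφ : ∀ R, |φ R| ≤ 1) (S : Finset ℕ) (J : ℕ) :
    |φ S - ∑ T ∈ S.powerset.filter (fun T => T.card < J), mu φ T| ≤ 3 ^ J * (S.card.choose J : ℝ) := by
  rcases Nat.lt_or_ge S.card J with hJ | hJ
  · have h1 : S.powerset.filter (fun T => T.card < J) = S.powerset := by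
      refine filter_true_of_mem fun T hT => ?_
      exact (card_le_card (mem_powerset.1 hT)).trans_lt hJ
    rw [h1, mu_sum, sub_self, abs_zero]
    positivity
  · have h1 : |∑ T ∈ S.powerset.filter (fun T => T.card < J), mu φ T| ≤ ∑ j ∈ range J, (S.card.choose j : ℝ) * 2 ^ j := by
      refine (abs_sum_le_sum_abs _ _).trans ?_
      have h2 : ∑ T ∈ S.powerset.filter (fun T => T.card < J), |mu φ T| ≤
          ∑ T ∈ S.powerset.filter (fun T => T.card < J), (2 : ℝ) ^ T.card :=
        sum_le_sum fun T _ => mu_abs φ hφ T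
      refine h2.trans (le_of_eq ?_)
      have h3 : ∀ T ∈ S.powerset.filter (fun T => T.card < J), T.card ∈ range J := by
        intro T hT
        rw [mem_filter] at hT
        rw [mem_range]
        exact hT.2
      rw [← sum_fiberwise_of_maps_to h3]
      refine sum_congr rfl fun j hj => ?_
      rw [mem_range] at hj
      have h4 : (S.powerset.filter (fun T => T.card < J)).filter (fun T => T.card = j) = powersetCard j S := by
        ext T
        rw [mem_filter, mem_filter, mem_powerset, mem_powersetCard]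
        constructor
        · rintro ⟨⟨h5, _⟩, h6⟩
          exact ⟨h5, h6⟩
        · rintro ⟨h5, h6⟩
          exact ⟨⟨h5, by omega⟩, h6⟩
      rw [h4]
      have h5 : ∀ T ∈ powersetCard j S, (2 : ℝ) ^ T.card = 2 ^ j := by
        intro T hT
        rw [(mem_powersetCard.1 hT).2]
      rw [sum_congr rfl h5, sum_const, card_powersetCard, nsmul_eq_mul]
    have h2 : 1 + ∑ j ∈ range J, (S.card.choose j : ℝ) * 2 ^ j ≤ 3 ^ J * (S.card.choose J : ℝ) := by
      have h3 : ∀ j ≤ J, (S.card.choose j : ℝ) ≤ (J.choose j : ℝ) * (S.card.choose J : ℝ) := by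
        intro j hj
        have h4 := Nat.choose_mul (n := S.card) hj
        have h5 : 1 ≤ (S.card - j).choose (J - j) := Nat.choose_pos (by omega)
        have h6 : S.card.choose j ≤ J.choose j * S.card.choose J := by
          rw [mul_comm, h4]
          exact Nat.le_mul_of_pos_right _ h5
        exact_mod_cast h6
      have h4 : (3 : ℝ) ^ J = ∑ j ∈ range (J + 1), (J.choose j : ℝ) * 2 ^ j := by
        have := add_pow (2 : ℝ) 1 J
        norm_num at this
        rw [this]
        refine sum_congr rfl fun j _ => ?_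
        ring
      rw [h4, sum_mul, sum_range_succ, add_comm]
      refine add_le_add (sum_le_sum fun j hj => ?_) ?_
      · rw [mem_range] at hj
        calc (S.card.choose j : ℝ) * 2 ^ j ≤ ((J.choose j : ℝ) * (S.card.choose J : ℝ)) * 2 ^ j :=
              mul_le_mul_of_nonneg_right (h3 j hj.le) (by positivity)
          _ = _ := by ring
      · rw [Nat.choose_self, Nat.cast_one, one_mul]
        have h5 : (1 : ℝ) ≤ (S.card.choose J : ℝ) := by
          have := Nat.choose_pos hJ
          exact_mod_cast this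
        have h6 : (1 : ℝ) ≤ 2 ^ J := one_le_pow₀ (by norm_num)
        nlinarith
    have h3 := abs_sub (φ S) (∑ T ∈ S.powerset.filter (fun T => T.card < J), mu φ T)
    have h4 := hφ S
    linarith

/-- elementary symmetric functions of nonnegative numbers -/
lemma esym_le (I : Finset ℕ) (P : ℕ → ℝ) (hP : ∀ a ∈ I, 0 ≤ P a) : ∀ J : ℕ,
    ∑ T ∈ powersetCard J I, ∏ a ∈ T, P a ≤ (∑ a ∈ I, P a) ^ J / (J.factorial : ℝ) := by
  induction I using Finset.induction_on with
  | empty =>
    intro J
    rcases J with _ | J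
    · simp
    · rw [powersetCard_eq_empty.2 (by simp), sum_empty, sum_empty]
      positivity
  | insert a I ha ih =>
    intro J
    have hPI : ∀ b ∈ I, 0 ≤ P b := fun b hb => hP b (mem_insert_of_mem hb)
    have hPa : 0 ≤ P a := hP a (mem_insert_self a I)
    have ih' := ih hPI
    rcases J with _ | J
    · simp
    · rw [powersetCard_succ_insert ha, sum_union, sum_image]
      · have h1 : ∑ T ∈ powersetCard J I, ∏ b ∈ insert a T, P b = P a * ∑ T ∈ powersetCard J I, ∏ b ∈ T, P b := by
          rw [mul_sum]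
          refine sum_congr rfl fun T hT => ?_
          rw [prod_insert fun h => ha ((mem_powersetCard.1 hT).1 h)]
        rw [h1, sum_insert ha]
        obtain ⟨s, hs⟩ : ∃ s : ℝ, s = ∑ b ∈ I, P b := ⟨_, rfl⟩
        have hs0 : 0 ≤ s := by
          rw [hs]
          exact sum_nonneg hPI
        have h2 := ih' (J + 1)
        have h3 := mul_le_mul_of_nonneg_left (ih' J) hPa
        rw [← hs] at h2 h3 ⊢
        have h4 : s ^ (J + 1) + (J + 1) * (P a * s ^ J) ≤ (P a + s) ^ (J + 1) := by
          have h5 := one_add_mul_le_pow_of_nonneg s (P a) hs0 hPa J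
          exact h5
        have h5 : s ^ (J + 1) / ((J + 1).factorial : ℝ) + P a * (s ^ J / (J.factorial : ℝ)) =
            (s ^ (J + 1) + (J + 1) * (P a * s ^ J)) / ((J + 1).factorial : ℝ) := by
          rw [Nat.factorial_succ]
          push_cast
          have : (J.factorial : ℝ) ≠ 0 := by
            have := Nat.factorial_ne_zero J
            exact_mod_cast this
          field_simp
        have h6 : (s ^ (J + 1) + (J + 1) * (P a * s ^ J)) / ((J + 1).factorial : ℝ) ≤ (P a + s) ^ (J + 1) / ((J + 1).factorial : ℝ) :=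
          div_le_div_of_nonneg_right h4 (by positivity)
        linarith
      · intro T hT T' hT' h
        rw [mem_coe, mem_powersetCard] at hT hT'
        rw [← erase_insert (fun h => ha (hT.1 h)), ← erase_insert (fun h => ha (hT'.1 h)), h]
      · rw [disjoint_left]
        intro T hT hT'
        rw [mem_image] at hT'
        obtain ⟨T', _, rfl⟩ := hT'
        exact ha ((mem_powersetCard.1 hT).1 (mem_insert_self a T'))
  where
  /-- two terms of the binomial theorem -/
  one_add_mul_le_pow_of_nonneg (s p : ℝ) (hs : 0 ≤ s) (hp : 0 ≤ p) (J : ℕ) :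
      s ^ (J + 1) + (J + 1) * (p * s ^ J) ≤ (p + s) ^ (J + 1) := by
    induction J with
    | zero => simp; linarith
    | succ J ih =>
      have h1 : (p + s) ^ (J + 1 + 1) = (p + s) ^ (J + 1) * (p + s) := pow_succ _ _
      rw [h1]
      have h2 := mul_le_mul_of_nonneg_right ih (add_nonneg hp hs)
      have h3 : (s ^ (J + 1) + (J + 1) * (p * s ^ J)) * (p + s) =
        s ^ (J + 1 + 1) + ((J : ℝ) + 1 + 1) * (p * s ^ (J + 1)) + (J + 1) * (p ^ 2 * s ^ J) := by ring
      have h4 : 0 ≤ ((J : ℝ) + 1) * (p ^ 2 * s ^ J) := by positivity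
      push_cast
      linarith

end Q282LT
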