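import Pool.Agent.Q282.LT.LeCam

/-!
# Configurations of residues over boxes of integers: the independent model and the Poisson law
-/

set_option autoImplicit false
set_option linter.unusedSectionVars false

namespace Q282LT

open Finset MeasureTheory ProbabilityTheory
open scoped NNReal
open Q282.BP (bx mem_bx card_bx bx_mean mean_mul_period)
open Pool.Agent.TH894.NE (box mem_box card_box Per mean mean_mul mean_mono mean_add mean_const mean_prod two_mod)

lemma zbox_card {d : ℕ} (m : Fin d → ℤ) (L : Fin d → ℕ) (P : (Fin d → ℤ) → Prop) [DecidablePred P] :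
    ((zbox m L).filter P).card = ((bx L).filter fun n => P (fun i => m i + n i)).card := by
  symm
  refine card_nbij' (i := fun n i => m i + n i) (j := fun ν i => (ν i - m i).toNat) ?_ ?_ ?_ ?_
  · intro n hn
    rw [mem_coe, mem_filter, mem_bx] at hn
    rw [mem_coe, mem_filter, mem_zbox]
    refine ⟨fun i => ?_, hn.2⟩
    have := hn.1 i
    show m i ≤ m i + n i ∧ m i + n i < m i + L i
    constructor <;> omega
  · intro ν hν
    rw [mem_coe, mem_filter, mem_zbox] at hν
    rw [mem_coe, mem_filter, mem_bx]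
    refine ⟨fun i => ?_, ?_⟩
    · have := hν.1 i
      show (ν i - m i).toNat < L i
      omega
    · have h4 : (fun i => m i + (((ν i - m i).toNat : ℕ) : ℤ)) = ν := by
        funext i
        have := hν.1 i
        omega
      rw [h4]
      exact hν.2
  · intro n _
    funext i
    show (m i + n i - m i).toNat = n i
    omega
  · intro ν hν
    rw [mem_coe, mem_filter, mem_zbox] at hν
    funext i
    have := hν.1 i
    show m i + (((ν i - m i).toNat : ℕ) : ℤ) = ν i
    omega

open Classical in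
/-- the proportion of the vectors of a box of integers -/
noncomputable def zprop {d : ℕ} (m : Fin d → ℤ) (L : Fin d → ℕ) (P : (Fin d → ℤ) → Prop) : ℝ :=
  (((zbox m L).filter P).card : ℝ) / ∏ i, (L i : ℝ)

open Classical in
/-- the proportion of the residues -/
noncomputable def rprop (d q : ℕ) (P : (Fin d → ℤ) → Prop) : ℝ := avg d q (fun ν => if P ν then 1 else 0)

lemma rprop_shift {d q : ℕ} (hq : 1 ≤ q) {P : (Fin d → ℤ) → Prop} [DecidablePred P] (h : ∀ ν ν' : Fin d → ℤ, (∀ i, (q : ℤ) ∣ ν i - ν' i) → (P ν ↔ P ν'))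
    (m : Fin d → ℤ) : mean d q (fun n => if P (fun i => m i + n i) then 1 else 0) = rprop d q P := by
  unfold rprop
  have h1 := mean_shift hq (f := fun ν => if P ν then (1 : ℝ) else 0) (fun ν ν' hν => by
    show (if P ν then (1 : ℝ) else 0) = if P ν' then 1 else 0
    rw [if_congr (h ν ν' hν) rfl rfl]) m
  rw [h1]
  congr 1
  funext ν
  split_ifs <;> rfl

/-- Boxes of integers: configurations with a bounded expected number of hits are distributed as for all residues, and the numbers of
the hits of the types are distributed like independent Poisson variables. -/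
theorem pois_z {κ : Type} [Fintype κ] [DecidableEq κ] (ε Λ : ℝ) (hε : 0 < ε) (hΛ : 0 ≤ Λ) : ∃ (C₀ : ℝ) (A : ℕ), 0 < C₀ ∧
    ∀ (d : ℕ) (I : Finset ℕ) (q : ℕ → ℕ) (τ : ℕ → (Fin d → ℤ) → Option κ), (∀ b ∈ I, 1 ≤ q b) →
      (∀ a ∈ I, ∀ b ∈ I, a ≠ b → Nat.Coprime (q a) (q b)) →
      (∀ b ∈ I, ∀ ν ν' : Fin d → ℤ, (∀ i, (q b : ℤ) ∣ ν i - ν' i) → τ b ν = τ b ν') →
      ∑ a ∈ I, rprop d (q a) (fun ν => τ a ν ≠ none) ≤ Λ →
      ∀ Y : ℕ, 1 ≤ Y → (∀ a ∈ I, q a ≤ Y) → I.card ≤ Y → ∀ (m : Fin d → ℤ) (L : Fin d → ℕ), (∀ i, C₀ * (d + 1) * (Y : ℝ) ^ A ≤ L i) →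
      (∀ 𝒜 : Set (ℕ → Option κ), |zprop m L (fun ν => (res I fun a => τ a ν) ∈ 𝒜) -
        rprop d (∏ a ∈ I, q a) (fun ν => (res I fun a => τ a ν) ∈ 𝒜)| ≤ ε) ∧
      ∀ S : Set (κ → ℕ), |zprop m L (fun ν => cntv I (fun a => τ a ν) ∈ S) -
        (Measure.pi fun i => poissonMeasure (Real.toNNReal (∑ a ∈ I, rprop d (q a) (fun ν => τ a ν = some i)))).real S| ≤
        ∑ a ∈ I, rprop d (q a) (fun ν => τ a ν ≠ none) ^ 2 + ε := by
  classical
  obtain ⟨C₀, A, hC₀, h⟩ := conf (κ := κ) ε Λ hε hΛ
  refine ⟨C₀, A, hC₀, ?_⟩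
  intro d I q τ hq hco hτ hlam Y hY1 hY hIY m L hL
  obtain ⟨Q, hQ⟩ : ∃ Q : ℕ, Q = ∏ a ∈ I, q a := ⟨_, rfl⟩
  have hQ1 : 1 ≤ Q := by
    rw [hQ]
    exact Nat.one_le_iff_ne_zero.2 (prod_ne_zero_iff.2 fun b hb => (Nat.one_le_iff_ne_zero.1 (hq b hb)))
  obtain ⟨T, hT⟩ : ∃ T : ℕ → (Fin d → ℕ) → Option κ, T = fun a n => τ a (fun i => m i + n i) := ⟨_, rfl⟩
  have hTper : ∀ b ∈ I, ∀ n, T b n = T b (fun i => n i % q b) := by
    intro b hb n
    rw [hT]
    refine hτ b hb _ _ fun i => ?_
    rw [add_sub_add_left_eq_sub]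
    push_cast
    exact Int.dvd_self_sub_emod
  have hdvd : ∀ b ∈ I, (q b : ℤ) ∣ (Q : ℤ) := by
    intro b hb
    rw [hQ]
    exact_mod_cast dvd_prod_of_mem q hb
  have hper : ∀ b ∈ I, ∀ ν ν' : Fin d → ℤ, (∀ i, (Q : ℤ) ∣ ν i - ν' i) → τ b ν = τ b ν' := fun b hb ν ν' hνν =>
    hτ b hb ν ν' fun i => (hdvd b hb).trans (hνν i)
  -- the probabilities
  have hpr : ∀ a ∈ I, ∀ o : Option κ, pr d q T a o = rprop d (q a) (fun ν => τ a ν = o) := by
    intro a ha o
    unfold pr
    rw [hT, ← rprop_shift (hq a ha) (P := fun ν => τ a ν = o) (fun ν ν' hνν => by rw [hτ a ha ν ν' hνν]) m]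
  have hhit : ∀ a ∈ I, mean d (q a) (fun n => hit (T a n)) = rprop d (q a) (fun ν => τ a ν ≠ none) := by
    intro a ha
    rw [← rprop_shift (hq a ha) (P := fun ν => τ a ν ≠ none) (fun ν ν' hνν => by rw [hτ a ha ν ν' hνν]) m, hT]
    congr 1
    funext n
    unfold hit
    by_cases h1 : τ a (fun i => m i + n i) = none
    · simp [h1]
    · simp [h1]
  have hsum : ∀ a ∈ I, ∑ i, pr d q T a (some i) = rprop d (q a) (fun ν => τ a ν ≠ none) := by
    intro a ha
    rw [← hhit a ha]
    unfold pr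
    rw [← mean_sum']
    congr 1
    funext n
    unfold hit
    rcases h1 : T a n with _ | j
    · simp
    · simp
  have hcard : ∀ P : (Fin d → ℤ) → Prop, zprop m L P = (∑ n ∈ bx L, if P (fun i => m i + n i) then (1 : ℝ) else 0) / ∏ i, (L i : ℝ) := by
    intro P
    unfold zprop
    rw [zbox_card]
    congr 1
    rw [card_filter]
    push_cast
    rfl
  have hmain := h d I q T hq hco hTper (by
    refine le_trans (le_of_eq ?_) hlam
    exact sum_congr rfl hhit) Y hY1 hY hIY L hL
  refine ⟨?_, ?_⟩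
  · intro 𝒜
    have h1 := hmain (fun σ => if σ ∈ 𝒜 then 1 else 0) (fun σ => by
      split_ifs <;> norm_num)
    rw [hcard, ← hQ, ← rprop_shift hQ1 (P := fun ν => (res I fun a => τ a ν) ∈ 𝒜) (fun ν ν' hνν => by
      have : (res I fun a => τ a ν) = (res I fun a => τ a ν') := by
        funext b
        unfold res
        by_cases hb : b ∈ I
        · rw [if_pos hb, if_pos hb]
          exact hper b hb ν ν' hνν
        · rw [if_neg hb, if_neg hb]
      rw [this]) m]
    rw [hT, ← hQ] at h1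
    exact h1
  · intro S
    -- the counts are functions of the configuration
    have hres : ∀ σ : ℕ → Option κ, cntv I (res I σ) = cntv I σ := by
      intro σ
      funext i
      unfold cntv
      congr 1
      refine filter_congr fun a ha => ?_
      unfold res
      rw [if_pos ha]
    have h1 := hmain (fun σ => if cntv I σ ∈ S then 1 else 0) (fun σ => by
      split_ifs <;> norm_num)
    simp only [hres] at h1
    have h2 := lecam d q T I hq hco hTper (fun k => if k ∈ S then 1 else 0) (fun k => by split_ifs <;> norm_num)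
      (fun k => by split_ifs <;> norm_num)
    have h3 : ∫ k, (if k ∈ S then (1 : ℝ) else 0) ∂piPo (lam d q T I) = (piPo (lam d q T I)).real S := by
      have : (fun k : κ → ℕ => if k ∈ S then (1 : ℝ) else 0) = S.indicator 1 := by
        funext k
        rw [Set.indicator_apply]
        rfl
      rw [this, integral_indicator_one (MeasurableSet.of_discrete)]
    rw [h3] at h2
    have h4 : piPo (lam d q T I) =
        Measure.pi fun i => poissonMeasure (Real.toNNReal (∑ a ∈ I, rprop d (q a) (fun ν => τ a ν = some i))) := by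
      unfold piPo lam
      congr 1
      funext i
      rw [sum_congr rfl fun a ha => hpr a ha (some i)]
    rw [h4, sum_congr rfl fun a ha => by rw [hsum a ha]] at h2
    rw [hcard]
    have h5 : (∑ n ∈ bx L, if cntv I (fun a => T a n) ∈ S then (1 : ℝ) else 0) =
        ∑ n ∈ bx L, if cntv I (fun a => τ a fun i => m i + n i) ∈ S then (1 : ℝ) else 0 := by
      rw [hT]
    rw [h5] at h1
    have h6 := abs_le.1 h1
    have h7 := abs_le.1 h2
    rw [abs_le]
    constructor
    · linarith [h6.1, h7.1]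
    · linarith [h6.2, h7.2]

end Q282LT
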