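import Pool.Agent.Q282.LT.Gauss

/-!
# The normal law for functions of residues over boxes of integers
-/

set_option autoImplicit false
set_option linter.unusedSectionVars false

namespace Q282LT

open Finset
open Q282MM (gm Phi)
open Q282.BP (bx mem_bx card_bx bx_mean mean_mul_period)
open Pool.Agent.TH894.NE (box mem_box card_box Per mean mean_mul mean_mono mean_add mean_const two_mod)

/-- the box of the integer vectors `ν` with `m i ≤ ν i < m i + L i` -/
noncomputable def zbox {d : ℕ} (m : Fin d → ℤ) (L : Fin d → ℕ) : Finset (Fin d → ℤ) := Fintype.piFinset fun i => Ico (m i) (m i + L i)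

lemma mem_zbox {d : ℕ} {m : Fin d → ℤ} {L : Fin d → ℕ} {ν : Fin d → ℤ} : ν ∈ zbox m L ↔ ∀ i, m i ≤ ν i ∧ ν i < m i + L i := by
  unfold zbox
  simp only [Fintype.mem_piFinset, mem_Ico]

lemma card_zbox {d : ℕ} (m : Fin d → ℤ) (L : Fin d → ℕ) : (zbox m L).card = ∏ i, L i := by
  unfold zbox
  rw [Fintype.card_piFinset]
  refine prod_congr rfl fun i _ => ?_
  rw [Int.card_Ico, add_sub_cancel_left, Int.toNat_natCast]

/-- the average over the residues modulo `q` -/
noncomputable def avg (d q : ℕ) (f : (Fin d → ℤ) → ℝ) : ℝ :=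
  (∑ ν ∈ Fintype.piFinset fun _ : Fin d => range q, f (fun i => (ν i : ℤ))) / (q : ℝ) ^ d

/-- functions of the residues modulo `q` -/
def ZPer {d : ℕ} (q : ℕ) (f : (Fin d → ℤ) → ℝ) : Prop := ∀ ν ν' : Fin d → ℤ, (∀ i, (q : ℤ) ∣ ν i - ν' i) → f ν = f ν'

lemma ZPer.per {d q : ℕ} {f : (Fin d → ℤ) → ℝ} (h : ZPer q f) (m : Fin d → ℤ) : Per q (fun n => f (fun i => m i + n i)) := by
  intro n
  refine h _ _ fun i => ?_
  rw [add_sub_add_left_eq_sub]
  push_cast
  exact Int.dvd_self_sub_emod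

lemma mean_shift {d q : ℕ} (hq : 1 ≤ q) {f : (Fin d → ℤ) → ℝ} (h : ZPer q f) (m : Fin d → ℤ) :
    mean d q (fun n => f (fun i => m i + n i)) = avg d q f := by
  have hq0 : (0 : ℤ) < q := by exact_mod_cast hq
  unfold Pool.Agent.TH894.NE.mean avg
  rw [one_div, inv_mul_eq_div]
  congr 1
  refine sum_nbij' (i := fun n i => ((m i + n i) % (q : ℤ)).toNat) (j := fun r i => ((r i - m i) % (q : ℤ)).toNat) ?_ ?_ ?_ ?_ ?_
  · intro n _
    rw [Fintype.mem_piFinset]
    intro i
    rw [mem_range]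
    have h1 := Int.emod_lt_of_pos (m i + n i) hq0
    have h2 := Int.emod_nonneg (m i + n i) hq0.ne'
    omega
  · intro r _
    rw [mem_box]
    intro i
    have h1 := Int.emod_lt_of_pos ((r i : ℤ) - m i) hq0
    have h2 := Int.emod_nonneg ((r i : ℤ) - m i) hq0.ne'
    show ((r i - m i : ℤ) % (q : ℤ)).toNat < q
    omega
  · intro n hn
    rw [mem_box] at hn
    funext i
    have h2 := Int.emod_nonneg (m i + n i) hq0.ne'
    show (((((m i + n i) % (q : ℤ)).toNat : ℤ) - m i) % (q : ℤ)).toNat = n i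
    rw [Int.toNat_of_nonneg h2, Int.emod_sub_emod, add_sub_cancel_left, Int.emod_eq_of_lt (by positivity) (by exact_mod_cast hn i),
      Int.toNat_natCast]
  · intro r hr
    rw [Fintype.mem_piFinset] at hr
    funext i
    have h1 := mem_range.1 (hr i)
    have h2 := Int.emod_nonneg ((r i : ℤ) - m i) hq0.ne'
    show ((m i + ((((r i : ℤ) - m i) % (q : ℤ)).toNat : ℤ)) % (q : ℤ)).toNat = r i
    rw [Int.toNat_of_nonneg h2, Int.add_emod_emod, add_sub_cancel, Int.emod_eq_of_lt (by positivity) (by exact_mod_cast h1),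
      Int.toNat_natCast]
  · intro n _
    refine h _ _ fun i => ?_
    have h2 := Int.emod_nonneg (m i + n i) hq0.ne'
    show (q : ℤ) ∣ (m i + n i) - (((m i + n i) % (q : ℤ)).toNat : ℤ)
    rw [Int.toNat_of_nonneg h2]
    exact Int.dvd_self_sub_emod

/-- the normal law for sums of functions of residues to coprime moduli over boxes of integers -/
theorem gauss_z (ε : ℝ) (hε : 0 < ε) : ∃ (V₀ C₀ : ℝ) (A : ℕ), 0 < V₀ ∧ 0 < C₀ ∧
    ∀ (d : ℕ) (I : Finset ℕ) (q : ℕ → ℕ) (f : ℕ → (Fin d → ℤ) → ℝ), (∀ b ∈ I, 1 ≤ q b) →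
      (∀ a ∈ I, ∀ b ∈ I, a ≠ b → Nat.Coprime (q a) (q b)) → (∀ b ∈ I, ZPer (q b) (f b)) → (∀ b ∈ I, ∀ ν, |f b ν| ≤ 1) →
      V₀ ≤ ∑ a ∈ I, (avg d (q a) (fun ν => f a ν ^ 2) - avg d (q a) (f a) ^ 2) →
      ∀ Y : ℕ, (∀ a ∈ I, q a ≤ Y) → I.card ≤ Y → ∀ (m : Fin d → ℤ) (L : Fin d → ℕ), (∀ i, C₀ * (d + 1) * (Y : ℝ) ^ A ≤ L i) →
      ∀ y : ℝ, |(((zbox m L).filter fun ν => ∑ a ∈ I, f a ν ≤ ∑ a ∈ I, avg d (q a) (f a) +
        y * Real.sqrt (∑ a ∈ I, (avg d (q a) (fun ν => f a ν ^ 2) - avg d (q a) (f a) ^ 2))).card : ℝ) / ∏ i, (L i : ℝ) - Phi y| ≤ ε := by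
  classical
  obtain ⟨V₀, C₀, A, hV₀, hC₀, h⟩ := gauss ε hε 2 (by norm_num)
  refine ⟨V₀, C₀, A, hV₀, hC₀, ?_⟩
  intro d I q f hq hco hf hb hV Y hY hIY m L hL y
  obtain ⟨F, hF⟩ : ∃ F : ℕ → (Fin d → ℕ) → ℝ, F = fun b n => f b (fun i => m i + n i) - avg d (q b) (f b) := ⟨_, rfl⟩
  have hFb : ∀ b, F b = fun n => f b (fun i => m i + n i) - avg d (q b) (f b) := fun b => by rw [hF]
  have hsq : ∀ b ∈ I, ZPer (q b) (fun ν => f b ν ^ 2) := by
    intro b hb ν ν' hνν
    show f b ν ^ 2 = f b ν' ^ 2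
    rw [hf b hb ν ν' hνν]
  have hmean : ∀ b ∈ I, mean d (q b) (F b) = 0 := by
    intro b hb
    rw [hFb b]
    have h1 := mean_add (d := d) (q := q b) (fun n => f b (fun i => m i + n i)) (fun _ => - avg d (q b) (f b))
    rw [mean_const d (q b) (hq b hb), mean_shift (hq b hb) (hf b hb)] at h1
    have h2 : (fun n : Fin d → ℕ => f b (fun i => m i + n i) - avg d (q b) (f b)) =
      fun n => f b (fun i => m i + n i) + - avg d (q b) (f b) := by
      funext n
      ring
    rw [h2, h1]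
    ring
  have hva : ∀ b ∈ I, va d q F b = avg d (q b) (fun ν => f b ν ^ 2) - avg d (q b) (f b) ^ 2 := by
    intro b hb
    unfold va
    rw [hFb b]
    have h2 : (fun n : Fin d → ℕ => (f b (fun i => m i + n i) - avg d (q b) (f b)) ^ 2) =
      fun n => f b (fun i => m i + n i) ^ 2 + (- (2 * avg d (q b) (f b)) * f b (fun i => m i + n i) + avg d (q b) (f b) ^ 2) := by
      funext n
      ring
    rw [h2, mean_add, mean_add, mean_mul, mean_const d (q b) (hq b hb), mean_shift (hq b hb) (hf b hb),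
      mean_shift (f := fun ν => f b ν ^ 2) (hq b hb) (hsq b hb)]
    ring
  have havg : ∀ b ∈ I, |avg d (q b) (f b)| ≤ 1 := by
    intro b hb'
    rw [← mean_shift (hq b hb') (hf b hb') m, abs_le]
    constructor
    · have := mean_mono (d := d) (q := q b) (F := fun _ => -1) (G := fun n => f b (fun i => m i + n i))
        (fun n => (abs_le.1 (hb b hb' _)).1)
      rwa [mean_const d (q b) (hq b hb')] at this
    · have := mean_mono (d := d) (q := q b) (F := fun n => f b (fun i => m i + n i)) (G := fun _ => 1)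
        (fun n => (abs_le.1 (hb b hb' _)).2)
      rwa [mean_const d (q b) (hq b hb')] at this
  have hsum : ∑ a ∈ I, va d q F a = ∑ a ∈ I, (avg d (q a) (fun ν => f a ν ^ 2) - avg d (q a) (f a) ^ 2) := sum_congr rfl hva
  have h1 := h d I q F hq hco
    (fun b hb => by
      rw [hFb b]
      intro n
      have := (hf b hb).per m n
      simp only at this ⊢
      rw [this])
    hmean
    (fun b hb' n => by
      rw [hFb b]
      have h2 := hb b hb' (fun i => m i + n i)
      have h3 := havg b hb'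
      calc |f b (fun i => m i + n i) - avg d (q b) (f b)| ≤ |f b (fun i => m i + n i)| + |avg d (q b) (f b)| := abs_sub _ _
        _ ≤ 2 := by linarith)
    (by rw [hsum]; exact hV) Y hY hIY L hL y
  rw [hsum, card_bx] at h1
  push_cast at h1
  have h2 : ((zbox m L).filter fun ν => ∑ a ∈ I, f a ν ≤ ∑ a ∈ I, avg d (q a) (f a) +
        y * Real.sqrt (∑ a ∈ I, (avg d (q a) (fun ν => f a ν ^ 2) - avg d (q a) (f a) ^ 2))).card =
      ((bx L).filter fun n => ∑ a ∈ I, F a n ≤ y * Real.sqrt (∑ a ∈ I, (avg d (q a) (fun ν => f a ν ^ 2) - avg d (q a) (f a) ^ 2))).card := by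
    symm
    refine card_nbij' (i := fun n i => m i + n i) (j := fun ν i => (ν i - m i).toNat) ?_ ?_ ?_ ?_
    · intro n hn
      rw [mem_coe, mem_filter, mem_bx] at hn
      rw [mem_coe, mem_filter, mem_zbox]
      refine ⟨fun i => ?_, ?_⟩
      · have := hn.1 i
        show m i ≤ m i + n i ∧ m i + n i < m i + L i
        constructor <;> omega
      · have h3 := hn.2
        rw [hF] at h3
        rw [sum_sub_distrib] at h3
        linarith
    · intro ν hν
      rw [mem_coe, mem_filter, mem_zbox] at hν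
      rw [mem_coe, mem_filter, mem_bx]
      refine ⟨fun i => ?_, ?_⟩
      · have := hν.1 i
        show (ν i - m i).toNat < L i
        omega
      · have h3 := hν.2
        rw [hF]
        rw [sum_sub_distrib]
        have h4 : (fun i => m i + (((ν i - m i).toNat : ℕ) : ℤ)) = ν := by
          funext i
          have := hν.1 i
          omega
        rw [h4]
        linarith
    · intro n _
      funext i
      show (m i + n i - m i).toNat = n i
      omega
    · intro ν hν
      rw [mem_coe, mem_filter, mem_zbox] at hν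
      funext i
      have := hν.1 i
      show m i + (((ν i - m i).toNat : ℕ) : ℤ) = ν i
      omega
  rw [h2]
  exact h1

end Q282LT
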